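import Mathlib

/-!
# Orders of vanishing along a filter
-/

set_option autoImplicit false

namespace Pool.Agent.KS6_82.CC

open Filter Topology MvPolynomial

variable {X : Type} {Ω : Type} [NormedField Ω]

/-- `g` has order at least `s` along the filter, with respect to the scale `exp (-Λ)` -/
def Ord (F : Filter X) (Λ : X → ℝ) (s : ℝ) (g : X → Ω) : Prop :=
  ∀ ε > 0, ∀ᶠ m in F, ‖g m‖ ≤ Real.exp (-((s - ε) * Λ m))

variable {F : Filter X} {Λ : X → ℝ}

lemma Ord.mono {s s' : ℝ} {g : X → Ω} (hΛ : Tendsto Λ F atTop) (h : Ord F Λ s g) (hs : s' ≤ s) :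
    Ord F Λ s' g := by
  intro ε hε
  filter_upwards [h ε hε, hΛ.eventually_ge_atTop 0] with m h1 h2
  refine h1.trans (Real.exp_le_exp.2 ?_)
  nlinarith

lemma Ord.congr {s : ℝ} {g h : X → Ω} (hg : Ord F Λ s g) (hgh : ∀ᶠ m in F, g m = h m) :
    Ord F Λ s h := by
  intro ε hε
  filter_upwards [hg ε hε, hgh] with m h1 h2
  rwa [← h2]

lemma ord_zero_fun (s : ℝ) : Ord F Λ s (fun _ => (0 : Ω)) := by
  intro ε _
  filter_upwards with m
  rw [norm_zero]
  exact (Real.exp_pos _).le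

/-- constants do not matter -/
lemma Ord.of_bound {s : ℝ} {g : X → Ω} (hΛ : Tendsto Λ F atTop) (K : ℝ)
    (h : ∀ ε > 0, ∀ᶠ m in F, ‖g m‖ ≤ K * Real.exp (-((s - ε) * Λ m))) : Ord F Λ s g := by
  intro ε hε
  have hK : ∀ᶠ m in F, K ≤ Real.exp (ε / 2 * Λ m) := by
    have h1 : Tendsto (fun m => Real.exp (ε / 2 * Λ m)) F atTop :=
      Real.tendsto_exp_atTop.comp (hΛ.const_mul_atTop (by positivity))
    exact h1.eventually_ge_atTop _
  filter_upwards [h (ε / 2) (by positivity), hK] with m h1 h3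
  refine h1.trans ?_
  calc K * Real.exp (-((s - ε / 2) * Λ m)) ≤
      Real.exp (ε / 2 * Λ m) * Real.exp (-((s - ε / 2) * Λ m)) :=
        mul_le_mul_of_nonneg_right h3 (Real.exp_pos _).le
    _ = Real.exp (-((s - ε) * Λ m)) := by
      rw [← Real.exp_add]
      congr 1
      ring

lemma Ord.add {s : ℝ} {g h : X → Ω} (hΛ : Tendsto Λ F atTop) (hg : Ord F Λ s g)
    (hh : Ord F Λ s h) : Ord F Λ s (fun m => g m + h m) := by
  apply Ord.of_bound hΛ 2
  intro ε hε
  filter_upwards [hg ε hε, hh ε hε] with m h1 h2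
  calc ‖g m + h m‖ ≤ ‖g m‖ + ‖h m‖ := norm_add_le _ _
    _ ≤ 2 * Real.exp (-((s - ε) * Λ m)) := by linarith

lemma Ord.neg {s : ℝ} {g : X → Ω} (hg : Ord F Λ s g) : Ord F Λ s (fun m => - g m) := by
  intro ε hε
  filter_upwards [hg ε hε] with m h1
  rwa [norm_neg]

lemma Ord.sub {s : ℝ} {g h : X → Ω} (hΛ : Tendsto Λ F atTop) (hg : Ord F Λ s g)
    (hh : Ord F Λ s h) : Ord F Λ s (fun m => g m - h m) := by
  simp_rw [sub_eq_add_neg]
  exact hg.add hΛ hh.neg

lemma Ord.mul {s s' : ℝ} {g h : X → Ω} (hg : Ord F Λ s g)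
    (hh : Ord F Λ s' h) : Ord F Λ (s + s') (fun m => g m * h m) := by
  intro ε hε
  filter_upwards [hg (ε / 2) (by positivity), hh (ε / 2) (by positivity)] with m h1 h2
  rw [norm_mul]
  calc ‖g m‖ * ‖h m‖ ≤ Real.exp (-((s - ε / 2) * Λ m)) * Real.exp (-((s' - ε / 2) * Λ m)) :=
        mul_le_mul h1 h2 (norm_nonneg _) (Real.exp_pos _).le
    _ = Real.exp (-((s + s' - ε) * Λ m)) := by
      rw [← Real.exp_add]
      congr 1
      ring

lemma Ord.of_bdd {g : X → Ω} (hΛ : Tendsto Λ F atTop) {K : ℝ} (h : ∀ᶠ m in F, ‖g m‖ ≤ K) :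
    Ord F Λ 0 g := by
  apply Ord.of_bound hΛ K
  intro ε hε
  filter_upwards [h, hΛ.eventually_ge_atTop 0] with m h1 h2
  have h3 : 0 ≤ K := (norm_nonneg _).trans h1
  have h4 : 1 ≤ Real.exp (-((0 - ε) * Λ m)) := by
    rw [Real.one_le_exp_iff]
    nlinarith
  nlinarith

lemma Ord.of_tendsto {g : X → Ω} (hΛ : Tendsto Λ F atTop) {c : Ω} (h : Tendsto g F (𝓝 c)) :
    Ord F Λ 0 g := by
  apply Ord.of_bdd hΛ (K := ‖c‖ + 1)
  have h1 := h.norm
  exact (h1.eventually (gt_mem_nhds (lt_add_one _))).mono fun m hm => hm.le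

lemma Ord.pow {s : ℝ} {g : X → Ω} (hΛ : Tendsto Λ F atTop) (hg : Ord F Λ s g) (n : ℕ) :
    Ord F Λ (n * s) (fun m => g m ^ n) := by
  induction n with
  | zero =>
    simp only [pow_zero, Nat.cast_zero, zero_mul]
    exact Ord.of_tendsto hΛ tendsto_const_nhds
  | succ n ih =>
    have h1 := ih.mul hg
    have e : ((n + 1 : ℕ) : ℝ) * s = n * s + s := by push_cast; ring
    rw [e]
    simp_rw [pow_succ]
    exact h1

lemma Ord.sum {s : ℝ} {ι : Type} (T : Finset ι) {g : ι → X → Ω} (hΛ : Tendsto Λ F atTop)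
    (hg : ∀ i ∈ T, Ord F Λ s (g i)) : Ord F Λ s (fun m => ∑ i ∈ T, g i m) := by
  classical
  induction T using Finset.induction_on with
  | empty =>
    simp only [Finset.sum_empty]
    exact ord_zero_fun s
  | insert a T ha ih =>
    simp only [Finset.sum_insert ha]
    exact (hg a (Finset.mem_insert_self _ _)).add hΛ
      (ih fun i hi => hg i (Finset.mem_insert_of_mem hi))

/-- division by a function with a nonzero limit -/
lemma Ord.of_mul_unit {s : ℝ} {g h : X → Ω} (hΛ : Tendsto Λ F atTop) {c : Ω} (hc : c ≠ 0)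
    (hg : Tendsto g F (𝓝 c)) (h1 : Ord F Λ s (fun m => g m * h m)) : Ord F Λ s h := by
  have h2 : Ord F Λ 0 (fun m => (g m)⁻¹) := Ord.of_tendsto hΛ (hg.inv₀ hc)
  have h3 := h2.mul h1
  rw [zero_add] at h3
  refine h3.congr ?_
  filter_upwards [hg.eventually_ne hc] with m hm
  rw [inv_mul_cancel_left₀ hm]

/-- change of the scale -/
lemma Ord.scale {Λ' : X → ℝ} {s c : ℝ} {g : X → Ω} (hc : 0 < c)
    (h : ∀ᶠ m in F, Λ m = c * Λ' m) (hg : Ord F Λ s g) : Ord F Λ' (c * s) g := by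
  intro ε hε
  filter_upwards [hg (ε / c) (by positivity), h] with m h1 h2
  refine h1.trans (le_of_eq ?_)
  rw [h2]
  congr 1
  field_simp

variable {σ : Type} {p : X → σ → Ω}

lemma eval_tendsto (hp : Tendsto p F (𝓝 0)) (G : MvPolynomial σ Ω) :
    Tendsto (fun m => eval (p m) G) F (𝓝 (eval 0 G)) :=
  ((MvPolynomial.continuous_eval G).tendsto 0).comp hp

/-- the ideal of the polynomials of order at least `s` -/
def Idl (hΛ : Tendsto Λ F atTop) (hp : Tendsto p F (𝓝 0)) (s : ℝ) :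
    Ideal (MvPolynomial σ Ω) where
  carrier := {G | Ord F Λ s (fun m => eval (p m) G)}
  add_mem' := by
    intro a b ha hb
    have : Ord F Λ s (fun m => eval (p m) a + eval (p m) b) := ha.add hΛ hb
    simpa only [Set.mem_ofPred_eq, map_add] using this
  zero_mem' := by
    show Ord F Λ s (fun m => eval (p m) (0 : MvPolynomial σ Ω))
    simp only [map_zero]
    exact ord_zero_fun s
  smul_mem' := by
    intro c g hg
    have h1 : Ord F Λ 0 (fun m => eval (p m) c) := Ord.of_tendsto hΛ (eval_tendsto hp c)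
    have h2 := h1.mul hg
    rw [zero_add] at h2
    simpa only [Set.mem_ofPred_eq, smul_eq_mul, map_mul] using h2

lemma mem_Idl (hΛ : Tendsto Λ F atTop) (hp : Tendsto p F (𝓝 0)) (s : ℝ) (G : MvPolynomial σ Ω) :
    G ∈ Idl hΛ hp s ↔ Ord F Λ s (fun m => eval (p m) G) := Iff.rfl

lemma Idl_anti (hΛ : Tendsto Λ F atTop) (hp : Tendsto p F (𝓝 0)) {s s' : ℝ} (h : s' ≤ s) :
    Idl hΛ hp s ≤ Idl hΛ hp s' := fun G hG => Ord.mono hΛ hG h

lemma Idl_mul (hΛ : Tendsto Λ F atTop) (hp : Tendsto p F (𝓝 0)) (s s' : ℝ) :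
    Idl hΛ hp s * Idl hΛ hp s' ≤ Idl hΛ hp (s + s') := by
  rw [Ideal.mul_le]
  intro a ha b hb
  rw [mem_Idl] at ha hb ⊢
  simp only [map_mul]
  exact ha.mul hb

lemma Idl_pow (hΛ : Tendsto Λ F atTop) (hp : Tendsto p F (𝓝 0)) (s : ℝ) (n : ℕ) :
    Idl hΛ hp s ^ n ≤ Idl hΛ hp (n * s) := by
  induction n with
  | zero =>
    rw [pow_zero, Nat.cast_zero, zero_mul, Ideal.one_eq_top]
    intro G _
    exact Ord.of_tendsto hΛ (eval_tendsto hp G)
  | succ n ih =>
    rw [pow_succ]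
    refine (Ideal.mul_mono_left ih).trans ((Idl_mul hΛ hp _ _).trans (le_of_eq ?_))
    congr 1
    push_cast
    ring

end Pool.Agent.KS6_82.CC
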