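import Mathlib

/-!
# Spanning modulo ideals
-/

set_option autoImplicit false

namespace Pool.Agent.KS6_82.CC

variable {Ω : Type} [Field Ω] {A : Type} [CommRing A] [Algebra Ω A]

/-- `A` is spanned by `c` elements modulo `I` -/
def Sp (Ω : Type) [Field Ω] {A : Type} [CommRing A] [Algebra Ω A] (c : ℕ) (I : Ideal A) : Prop :=
  ∃ q : Fin c → A, ∀ a : A, ∃ r : Fin c → Ω, a - ∑ i, r i • q i ∈ I

lemma Sp.mono {c : ℕ} {I J : Ideal A} (h : Sp Ω c I) (hIJ : I ≤ J) : Sp Ω c J := by
  obtain ⟨q, hq⟩ := h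
  refine ⟨q, fun a => ?_⟩
  obtain ⟨r, hr⟩ := hq a
  exact ⟨r, hIJ hr⟩

/-- a spanning family indexed by a finite type -/
lemma Sp.of_fintype {ι : Type} [Fintype ι] {I : Ideal A} (q : ι → A)
    (hq : ∀ a : A, ∃ r : ι → Ω, a - ∑ i, r i • q i ∈ I) : Sp Ω (Fintype.card ι) I := by
  refine ⟨fun i => q ((Fintype.equivFin ι).symm i), fun a => ?_⟩
  obtain ⟨r, hr⟩ := hq a
  refine ⟨fun i => r ((Fintype.equivFin ι).symm i), ?_⟩
  rw [Equiv.sum_comp (Fintype.equivFin ι).symm (fun i => r i • q i)]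
  exact hr

lemma Sp.mono_left {c c' : ℕ} {I : Ideal A} (h : Sp Ω c I) (hc : c ≤ c') : Sp Ω c' I := by
  classical
  obtain ⟨q, hq⟩ := h
  obtain ⟨m, rfl⟩ := Nat.exists_eq_add_of_le hc
  have h1 : Sp Ω (Fintype.card (Fin c ⊕ Fin m)) I := by
    apply Sp.of_fintype (Sum.elim q 0)
    intro a
    obtain ⟨r, hr⟩ := hq a
    refine ⟨Sum.elim r 0, ?_⟩
    simpa using hr
  simpa using h1

/-- the quotient has dimension at most `c` -/
lemma Sp.finrank_le {c : ℕ} {I : Ideal A} (h : Sp Ω c I) :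
    FiniteDimensional Ω (A ⧸ I) ∧ Module.finrank Ω (A ⧸ I) ≤ c := by
  obtain ⟨q, hq⟩ := h
  set Θ : (Fin c → Ω) →ₗ[Ω] (A ⧸ I) :=
    Fintype.linearCombination Ω (fun i => Ideal.Quotient.mk I (q i)) with hΘ
  have hsurj : Function.Surjective Θ := by
    intro y
    obtain ⟨a, rfl⟩ := Ideal.Quotient.mk_surjective y
    obtain ⟨r, hr⟩ := hq a
    refine ⟨r, ?_⟩
    rw [hΘ, Fintype.linearCombination_apply]
    have h1 := Ideal.Quotient.eq.2 hr
    rw [h1, map_sum]
    rfl
  have hfd : FiniteDimensional Ω (A ⧸ I) := Module.Finite.of_surjective Θ hsurj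
  refine ⟨hfd, ?_⟩
  have h1 := LinearMap.finrank_le_finrank_of_surjective hsurj
  simpa using h1

lemma Sp.of_finrank {c : ℕ} {I : Ideal A} [FiniteDimensional Ω (A ⧸ I)]
    (h : Module.finrank Ω (A ⧸ I) ≤ c) : Sp Ω c I := by
  apply Sp.mono_left _ h
  set b := Module.finBasis Ω (A ⧸ I) with hb
  have hq : ∀ i, ∃ a : A, Ideal.Quotient.mk I a = b i := fun i => Ideal.Quotient.mk_surjective _
  choose q hq using hq
  refine ⟨q, fun a => ⟨fun i => b.repr (Ideal.Quotient.mk I a) i, ?_⟩⟩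
  rw [← Ideal.Quotient.eq, map_sum]
  conv_lhs => rw [← b.sum_repr (Ideal.Quotient.mk I a)]
  refine Finset.sum_congr rfl fun i _ => ?_
  rw [← hq i]
  rfl

/-- The multiplicativity. -/
lemma Sp.mul {Q : Type} [CommRing Q] [Algebra Ω Q] (ψ : A →ₐ[Ω] Q) {b e : ℕ} {I : Ideal A}
    (hIψ : ∀ a ∈ I, ψ a = 0) (hI : Sp Ω b I) (𝔪 : Ideal A) {K : ℕ}
    (hnil : (𝔪.map ψ) ^ K = ⊥) (he : Sp Ω e (𝔪.map ψ)) : Sp Ω (b * e) (⊥ : Ideal Q) := by
  classical
  obtain ⟨q, hq⟩ := hI
  obtain ⟨q', hq'⟩ := he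
  have key : ∀ n : ℕ, ∀ x : Q, ∃ r : Fin b × Fin e → Ω,
      x - ∑ i, r i • (ψ (q i.1) * q' i.2) ∈ (𝔪.map ψ) ^ n := by
    -- the sum of the images
    have hN : ∀ (a : A) (j : Fin e), ∃ r : Fin b × Fin e → Ω,
        ψ a * q' j = ∑ i, r i • (ψ (q i.1) * q' i.2) := by
      intro a j
      obtain ⟨r, hr⟩ := hq a
      refine ⟨fun i => if i.2 = j then r i.1 else 0, ?_⟩
      have h1 : ψ a = ∑ i, r i • ψ (q i) := by
        have h2 := hIψ _ hr
        rw [map_sub, map_sum, sub_eq_zero] at h2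
        rw [h2]
        refine Finset.sum_congr rfl fun i _ => ?_
        rw [map_smul]
      rw [h1, Finset.sum_mul, Fintype.sum_prod_type]
      refine Finset.sum_congr rfl fun i _ => ?_
      rw [Finset.sum_eq_single j]
      · simp only [if_true, smul_mul_assoc]
      · intro j' _ hj
        simp only [if_neg hj, zero_smul]
      · intro h
        exact absurd (Finset.mem_univ j) h
    -- the subspace
    set N : Submodule Ω Q := Submodule.span Ω
      (Set.range fun i : Fin b × Fin e => ψ (q i.1) * q' i.2) with hNdef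
    have hNmem : ∀ x, x ∈ N → ∃ r : Fin b × Fin e → Ω,
        x = ∑ i, r i • (ψ (q i.1) * q' i.2) := by
      intro x hx
      obtain ⟨r, hr⟩ := (Submodule.mem_span_range_iff_exists_fun Ω).1 hx
      exact ⟨r, hr.symm⟩
    have hNmem' : ∀ (a : A) (j : Fin e), ψ a * q' j ∈ N := by
      intro a j
      obtain ⟨r, hr⟩ := hN a j
      rw [hr]
      exact Submodule.sum_mem _ fun i _ => Submodule.smul_mem _ _ (Submodule.subset_span ⟨i, rfl⟩)
    have hstep : ∀ n : ℕ, ∀ x : Q, ∃ y ∈ N, x - y ∈ (𝔪.map ψ) ^ n := by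
      intro n
      induction n with
      | zero =>
        intro x
        refine ⟨0, zero_mem _, ?_⟩
        rw [pow_zero, Ideal.one_eq_top]
        trivial
      | succ n ih =>
        -- elements of the `n`-th power
        have h1 : ∀ x ∈ (𝔪.map ψ) ^ n, ∀ c : Q, ∃ y ∈ N, c * x - y ∈ (𝔪.map ψ) ^ (n + 1) := by
          intro x hx
          rw [← Ideal.map_pow] at hx
          change x ∈ Ideal.span _ at hx
          induction hx using Submodule.span_induction with
          | mem x hx =>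
            intro c
            obtain ⟨a, ha, rfl⟩ := hx
            obtain ⟨r, hr⟩ := hq' c
            refine ⟨∑ j, r j • (ψ a * q' j), Submodule.sum_mem _ fun j _ =>
              Submodule.smul_mem _ _ (hNmem' a j), ?_⟩
            have h2 : c * ψ a - ∑ j, r j • (ψ a * q' j) =
                ψ a * (c - ∑ j, r j • q' j) := by
              rw [mul_sub, Finset.mul_sum, mul_comm c]
              congr 1
              refine Finset.sum_congr rfl fun j _ => ?_
              rw [mul_smul_comm]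
            have h3 : (ψ : A → Q) a ∈ (𝔪.map ψ) ^ n := by
              rw [← Ideal.map_pow]
              exact Ideal.mem_map_of_mem _ ha
            show c * ψ a - ∑ j, r j • (ψ a * q' j) ∈ _
            rw [h2, pow_succ]
            exact Ideal.mul_mem_mul h3 hr
          | zero => exact fun c => ⟨0, zero_mem _, by simp⟩
          | add x y _ _ hx hy =>
            intro c
            obtain ⟨x', hx', h2⟩ := hx c
            obtain ⟨y', hy', h3⟩ := hy c
            refine ⟨x' + y', add_mem hx' hy', ?_⟩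
            have : c * (x + y) - (x' + y') = (c * x - x') + (c * y - y') := by ring
            rw [this]
            exact add_mem h2 h3
          | smul c' x _ hx =>
            intro c
            obtain ⟨y, hy, h2⟩ := hx (c * c')
            refine ⟨y, hy, ?_⟩
            rw [smul_eq_mul, ← mul_assoc]
            exact h2
        intro x
        obtain ⟨y, hy, h2⟩ := ih x
        obtain ⟨y', hy', h3⟩ := h1 _ h2 1
        refine ⟨y + y', add_mem hy hy', ?_⟩
        have : x - (y + y') = 1 * (x - y) - y' := by ring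
        rw [this]
        exact h3
    intro n x
    obtain ⟨y, hy, h1⟩ := hstep n x
    obtain ⟨r, rfl⟩ := hNmem y hy
    exact ⟨r, h1⟩
  have h2 : Sp Ω (Fintype.card (Fin b × Fin e)) (⊥ : Ideal Q) := by
    apply Sp.of_fintype (fun i : Fin b × Fin e => ψ (q i.1) * q' i.2)
    intro x
    obtain ⟨r, hr⟩ := key K x
    rw [hnil] at hr
    exact ⟨r, hr⟩
  simpa using h2

/-- the same for a quotient -/
lemma Sp.mul_quot {B : Type} [CommRing B] [Algebra Ω B] (J J₂ : Ideal B) (ψ : A →ₐ[Ω] B ⧸ J)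
    {b e : ℕ} {I : Ideal A} (hIψ : ∀ a ∈ I, ψ a = 0) (hI : Sp Ω b I) (𝔪 : Ideal A) {K : ℕ}
    (hnil : (𝔪.map ψ) ^ K = ⊥) (hJ₂ : J₂.map (Ideal.Quotient.mk J) ≤ 𝔪.map ψ)
    (he : Sp Ω e J₂) : Sp Ω (b * e) J := by
  have h1 : Sp Ω e (𝔪.map ψ) := by
    obtain ⟨q, hq⟩ := he
    refine ⟨fun i => Ideal.Quotient.mk J (q i), fun x => ?_⟩
    obtain ⟨a, rfl⟩ := Ideal.Quotient.mk_surjective x
    obtain ⟨r, hr⟩ := hq a
    refine ⟨r, ?_⟩
    have h2 := hJ₂ (Ideal.mem_map_of_mem (Ideal.Quotient.mk J) hr)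
    rw [map_sub, map_sum] at h2
    exact h2
  obtain ⟨q, hq⟩ := Sp.mul ψ hIψ hI 𝔪 hnil h1
  choose q' hq' using fun i => Ideal.Quotient.mk_surjective (q i)
  refine ⟨q', fun a => ?_⟩
  obtain ⟨r, hr⟩ := hq (Ideal.Quotient.mk J a)
  refine ⟨r, ?_⟩
  rw [Ideal.mem_bot, sub_eq_zero] at hr
  rw [← Ideal.Quotient.eq, hr, map_sum]
  refine Finset.sum_congr rfl fun i _ => ?_
  rw [← hq' i]
  rfl

/-- powers of one element -/
lemma Sp.pow {c : ℕ} {I : Ideal A} {t : A} (h : Sp Ω c (I ⊔ Ideal.span {t})) (n : ℕ) :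
    Sp Ω (n * c) (I ⊔ Ideal.span {t ^ n}) := by
  classical
  obtain ⟨q, hq⟩ := h
  have key : ∀ n : ℕ, ∀ a : A, ∃ r : Fin n × Fin c → Ω, ∃ a' : A,
      a - ∑ i, r i • (t ^ (i.1 : ℕ) * q i.2) - t ^ n * a' ∈ I := by
    intro n
    induction n with
    | zero =>
      intro a
      refine ⟨fun _ => 0, a, ?_⟩
      simp
    | succ n ih =>
      intro a
      obtain ⟨r, a', h1⟩ := ih a
      obtain ⟨r', hr'⟩ := hq a'
      obtain ⟨u, hu, w, hw, huw⟩ := Submodule.mem_sup.1 hr'
      obtain ⟨a'', rfl⟩ := Ideal.mem_span_singleton'.1 hw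
      refine ⟨fun i => if h : (i.1 : ℕ) < n then r (⟨i.1, h⟩, i.2) else r' i.2, a'', ?_⟩
      have h2 : ∑ i : Fin (n + 1) × Fin c, (if h : (i.1 : ℕ) < n then r (⟨i.1, h⟩, i.2) else r' i.2) •
          (t ^ (i.1 : ℕ) * q i.2) = ∑ i : Fin n × Fin c, r i • (t ^ (i.1 : ℕ) * q i.2) +
            ∑ j, r' j • (t ^ n * q j) := by
        rw [Fintype.sum_prod_type, Fin.sum_univ_castSucc, Fintype.sum_prod_type]
        congr 1
        · refine Finset.sum_congr rfl fun i _ => Finset.sum_congr rfl fun j _ => ?_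
          simp
        · refine Finset.sum_congr rfl fun j _ => ?_
          simp
      rw [h2]
      have h3 : t ^ n * a' = ∑ j, r' j • (t ^ n * q j) + t ^ n * u + t ^ (n + 1) * a'' := by
        have h4 : a' = ∑ j, r' j • q j + u + a'' * t := by
          linear_combination -huw
        conv_lhs => rw [h4]
        rw [mul_add, mul_add, Finset.mul_sum]
        congr 1
        · congr 1
          refine Finset.sum_congr rfl fun j _ => ?_
          rw [mul_smul_comm]
        · ring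
      have h5 : a - (∑ i : Fin n × Fin c, r i • (t ^ (i.1 : ℕ) * q i.2) +
          ∑ j, r' j • (t ^ n * q j)) - t ^ (n + 1) * a'' =
          (a - ∑ i : Fin n × Fin c, r i • (t ^ (i.1 : ℕ) * q i.2) - t ^ n * a') + t ^ n * u := by
        linear_combination h3
      rw [h5]
      exact add_mem h1 (Ideal.mul_mem_left _ _ hu)
  have h1 : Sp Ω (Fintype.card (Fin n × Fin c)) (I ⊔ Ideal.span {t ^ n}) := by
    apply Sp.of_fintype (fun i : Fin n × Fin c => t ^ (i.1 : ℕ) * q i.2)
    intro a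
    obtain ⟨r, a', h2⟩ := key n a
    refine ⟨r, ?_⟩
    have h3 : a - ∑ i, r i • (t ^ (i.1 : ℕ) * q i.2) =
        (a - ∑ i, r i • (t ^ (i.1 : ℕ) * q i.2) - t ^ n * a') + t ^ n * a' := by ring
    rw [h3]
    exact Submodule.add_mem_sup h2 (Ideal.mul_mem_right _ _ (Ideal.mem_span_singleton_self _))
  simpa using h1

end Pool.Agent.KS6_82.CC
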