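import Mathlib
import Pool.Agent.KS6_82.CC.Sp

/-!
# Powers of the ideal of the origin
-/

set_option autoImplicit false

namespace Pool.Agent.KS6_82.CC

open MvPolynomial

/-- powers of a maximal ideal in an algebra of small dimension -/
lemma pow_le_of_sp {Ω : Type} [Field Ω] {A : Type} [CommRing A] [Algebra Ω A] {c : ℕ}
    {I M : Ideal A} (h : Sp Ω c (I ⊔ M ^ (c + 1))) : M ^ c ≤ I ⊔ M ^ (c + 1) := by
  classical
  obtain ⟨hfd, hrk⟩ := h.finrank_le
  set J := I ⊔ M ^ (c + 1) with hJ
  set m := M.map (Ideal.Quotient.mk J) with hm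
  have hc1 : m ^ (c + 1) = ⊥ := by
    rw [hm, ← Ideal.map_pow, Ideal.map_eq_bot_iff_le_ker, Ideal.mk_ker]
    exact le_sup_right
  have hc : m ^ c = ⊥ := by
    by_contra hne
    have hlt : ∀ i ≤ c, m ^ (i + 1) < m ^ i := by
      intro i hi
      refine lt_of_le_of_ne (Ideal.pow_le_pow_right (Nat.le_succ i)) fun heq => ?_
      have h1 : ∀ j, m ^ (i + j) = m ^ i := by
        intro j
        induction j with
        | zero => rfl
        | succ j ih =>
          calc m ^ (i + (j + 1)) = m ^ (i + j) * m := by rw [← add_assoc, pow_succ]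
            _ = m ^ i * m := by rw [ih]
            _ = m ^ (i + 1) := (pow_succ _ _).symm
            _ = m ^ i := heq
      have h2 := h1 (c + 1 - i)
      rw [show i + (c + 1 - i) = c + 1 by omega, hc1] at h2
      have h3 := h1 (c - i)
      rw [show i + (c - i) = c by omega, ← h2] at h3
      exact hne h3
    have hdim : ∀ j ≤ c + 1,
        j ≤ Module.finrank Ω ((m ^ (c + 1 - j)).restrictScalars Ω) := by
      intro j
      induction j with
      | zero => intro _; exact Nat.zero_le _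
      | succ j ih =>
        intro hj
        have h1 := ih (by omega)
        have h2 := hlt (c + 1 - (j + 1)) (by omega)
        rw [show c + 1 - (j + 1) + 1 = c + 1 - j by omega] at h2
        have h3 : (m ^ (c + 1 - j)).restrictScalars Ω < (m ^ (c + 1 - (j + 1))).restrictScalars Ω := h2
        have h4 := Submodule.finrank_lt_finrank_of_lt h3
        omega
    have h5 := hdim (c + 1) le_rfl
    have h6 := Submodule.finrank_le ((m ^ (c + 1 - (c + 1))).restrictScalars Ω)
    omega
  rw [hm, ← Ideal.map_pow, Ideal.map_eq_bot_iff_le_ker, Ideal.mk_ker] at hc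
  exact hc

variable {Ω : Type} {σ : Type}

/-- the powers of the ideal of the origin have finite colength -/
lemma sp_pow [Field Ω] [Finite σ] (K : ℕ) :
    ∃ c : ℕ, Sp Ω c ((idealOfVars σ Ω) ^ K) := by
  classical
  have hfin : {κ : σ →₀ ℕ | κ.degree < K}.Finite := by
    have := Fintype.ofFinite σ
    apply (Set.finite_Iic (Finsupp.equivFunOnFinite.symm fun _ => K : σ →₀ ℕ)).subset
    intro κ hκ
    rw [Set.mem_Iic]
    intro i
    have h1 : κ i ≤ κ.degree := Finsupp.le_degree i κ
    have h2 : κ.degree < K := hκ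
    show κ i ≤ K
    omega
  set T := hfin.toFinset with hT
  refine ⟨_, Sp.of_fintype (ι := T) (fun κ => monomial (κ : σ →₀ ℕ) (1 : Ω)) fun a =>
    ⟨fun κ => coeff (κ : σ →₀ ℕ) a, ?_⟩⟩
  rw [mem_pow_idealOfVars_iff']
  intro κ hκ
  rw [coeff_sub, coeff_sum]
  have h1 : κ ∈ T := by
    rw [hT, Set.Finite.mem_toFinset]
    exact hκ
  rw [Finset.sum_eq_single (⟨κ, h1⟩ : T)]
  · rw [coeff_smul, coeff_monomial, if_pos rfl, smul_eq_mul, mul_one, sub_self]
  · intro κ' _ hne
    rw [coeff_smul, coeff_monomial, if_neg, smul_zero]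
    intro h
    exact hne (Subtype.ext h)
  · intro h
    exact absurd (Finset.mem_univ _) h

/-- values of the elements of a power of the ideal of the origin -/
lemma eval_pow_bound [NormedField Ω] [Fintype σ] (K : ℕ) (G : MvPolynomial σ Ω)
    (hG : G ∈ (idealOfVars σ Ω) ^ K) : ∃ C : ℝ, 0 ≤ C ∧ ∀ p : σ → Ω, ‖p‖ ≤ 1 →
      ‖eval p G‖ ≤ C * ‖p‖ ^ K := by
  classical
  rw [mem_pow_idealOfVars_iff] at hG
  refine ⟨∑ κ ∈ G.support, ‖coeff κ G‖, Finset.sum_nonneg fun _ _ => norm_nonneg _, fun p hp => ?_⟩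
  rw [eval_eq', Finset.sum_mul]
  refine (norm_sum_le _ _).trans (Finset.sum_le_sum fun κ hκ => ?_)
  rw [norm_mul]
  apply mul_le_mul_of_nonneg_left _ (norm_nonneg _)
  rw [norm_prod]
  calc ∏ i, ‖p i ^ κ i‖ ≤ ∏ i, ‖p‖ ^ κ i := by
        apply Finset.prod_le_prod fun _ _ => norm_nonneg _
        intro i _
        rw [norm_pow]
        exact pow_le_pow_left₀ (norm_nonneg _) (norm_le_pi_norm p i) _
    _ = ‖p‖ ^ (∑ i, κ i) := Finset.prod_pow_eq_pow_sum _ _ _
    _ ≤ ‖p‖ ^ K := by
      apply pow_le_pow_of_le_one (norm_nonneg _) hp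
      have := hG κ hκ
      rwa [Finsupp.degree_eq_sum] at this

lemma mem_idealOfVars_of_eval [Field Ω] (G : MvPolynomial σ Ω) (h : eval 0 G = 0) :
    G ∈ idealOfVars σ Ω := by
  rw [← pow_one (idealOfVars σ Ω), mem_pow_idealOfVars_iff']
  intro κ hκ
  have h1 : κ = 0 := by
    have : κ.degree = 0 := by omega
    exact (Finsupp.degree_eq_zero_iff κ).1 this
  rw [h1]
  have h2 : constantCoeff G = 0 := by
    rw [← MvPolynomial.eval_zero']
    exact h
  exact h2

end Pool.Agent.KS6_82.CC
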