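import Mathlib
import Pool.Agent.KS6_82.CC.Ord
import Pool.Agent.KS6_82.CC.Pol
import Pool.Graph.R_seed8.R847.SN.Hom

/-!
# Charts at infinity and the pull-back of ideals
-/

set_option autoImplicit false

namespace Pool.Agent.KS6_82.CC

open Filter Topology MvPolynomial Pool.Agent.R847.SN

variable {k : Type} [Field k] {Ω : Type} [NormedField Ω] [Algebra k Ω] {T : Type} {N d : ℕ}

lemma ae_eq {σ : Type} (p : σ → Ω) (G : MvPolynomial σ Ω) : aeval p G = eval p G := rfl

/-- the local coordinates: the inverse of the coordinate `i0`, and the quotients of the coordinates -/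
noncomputable def pt (x : T → Fin (N + 1) → Ω) (i0 : Fin (N + 1)) (η : Fin (N + 1) → Ω) (m : T) :
    Option (Fin (N + 1)) → Ω :=
  fun o => o.elim (x m i0)⁻¹ fun i => x m i / x m i0 - η i

/-- a chart at infinity for a sequence of points -/
structure Ch (F : Filter T) (Λ : T → ℝ) (x : T → Fin (N + 1) → Ω) (i0 : Fin (N + 1))
    (η : Fin (N + 1) → Ω) : Prop where
  hΛ : Tendsto Λ F atTop
  one : η i0 = 1
  ne : ∀ᶠ m in F, x m i0 ≠ 0
  o1 : Ord F Λ 1 (fun m => (x m i0)⁻¹)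
  o2 : Ord F Λ (-1) (fun m => x m i0)
  lim : Tendsto (pt x i0 η) F (𝓝 0)

/-- the homogenisation of a polynomial in the chart -/
noncomputable def Hc (η : Fin (N + 1) → Ω) (m : ℕ) (g : MvPolynomial (Fin (N + 1)) k) :
    MvPolynomial (Option (Fin (N + 1))) Ω :=
  H m g (X none) fun i => X (some i) + C (η i)

lemma eval_Hc (η : Fin (N + 1) → Ω) (m : ℕ) (g : MvPolynomial (Fin (N + 1)) k)
    (p : Option (Fin (N + 1)) → Ω) :
    eval p (Hc η m g) = H m g (p none) fun i => p (some i) + η i := by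
  have h1 := H_map ((aeval p : MvPolynomial (Option (Fin (N + 1))) Ω →ₐ[Ω] Ω).restrictScalars k)
    m g (X none) (fun i => X (some i) + C (η i))
  unfold Hc
  have h2 : eval p (H m g (X none : MvPolynomial (Option (Fin (N + 1))) Ω)
      fun i => X (some i) + C (η i)) =
      ((aeval p : MvPolynomial (Option (Fin (N + 1))) Ω →ₐ[Ω] Ω).restrictScalars k)
        (H m g (X none) fun i => X (some i) + C (η i)) := by
    simp
  rw [h2, h1]
  simp

lemma eval_pt_Hc (x : T → Fin (N + 1) → Ω) (i0 : Fin (N + 1)) (η : Fin (N + 1) → Ω) (m : T)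
    (M : ℕ) (g : MvPolynomial (Fin (N + 1)) k) (hg : g.totalDegree ≤ M) (h0 : x m i0 ≠ 0) :
    aeval (x m) g = x m i0 ^ M * eval (pt x i0 η m) (Hc η M g) := by
  rw [eval_Hc]
  have h1 := H_eval M g hg ((x m i0)⁻¹) (x m i0) (mul_inv_cancel₀ h0)
    (fun i => x m i / x m i0)
  have h2 : (fun i => x m i0 * (x m i / x m i0)) = x m := by
    funext i
    rw [mul_div_cancel₀ _ h0]
  rw [h2] at h1
  rw [← h1]
  congr 2
  funext i
  show x m i / x m i0 = x m i / x m i0 - η i + η i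
  ring

section step

variable {f : Fin (N + 1) → MvPolynomial (Fin (N + 1)) k} {F : Filter T}

/-- the numerators of the pulled back coordinates -/
noncomputable def num (d : ℕ) (f : Fin (N + 1) → MvPolynomial (Fin (N + 1)) k) (i0 : Fin (N + 1))
    (η η' : Fin (N + 1) → Ω) : Option (Fin (N + 1)) → MvPolynomial (Option (Fin (N + 1))) Ω :=
  fun o => o.elim (X none ^ d) fun i => Hc η' d (f i) - C (η i) * Hc η' d (f i0)

/-- homogenised substitution -/
lemma exists_subst (γ : MvPolynomial (Option (Fin (N + 1))) Ω)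
    (nu : Option (Fin (N + 1)) → MvPolynomial (Option (Fin (N + 1))) Ω)
    (G : MvPolynomial (Option (Fin (N + 1))) Ω) :
    ∃ (M : ℕ) (G' : MvPolynomial (Option (Fin (N + 1))) Ω), ∀ (B : Type) [CommRing B]
      [Algebra Ω B] (θ : MvPolynomial (Option (Fin (N + 1))) Ω →ₐ[Ω] B) (u : B), θ γ * u = 1 →
        θ G' = θ γ ^ M * aeval (fun o => θ (nu o) * u) G := by
  induction G using MvPolynomial.induction_on with
  | C a =>
    refine ⟨0, C a, fun B _ _ θ u _ => ?_⟩
    rw [pow_zero, one_mul, aeval_C, ← MvPolynomial.algebraMap_eq, AlgHom.commutes]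
  | add p q hp hq =>
    obtain ⟨M, p', hp⟩ := hp
    obtain ⟨M', q', hq⟩ := hq
    refine ⟨M + M', γ ^ M' * p' + γ ^ M * q', fun B _ _ θ u hu => ?_⟩
    rw [map_add, map_mul, map_mul, map_pow, map_pow, hp B θ u hu, hq B θ u hu, map_add, pow_add]
    ring
  | mul_X p o hp =>
    obtain ⟨M, p', hp⟩ := hp
    refine ⟨M + 1, p' * nu o, fun B _ _ θ u hu => ?_⟩
    rw [map_mul, hp B θ u hu, map_mul, aeval_X, pow_succ]
    linear_combination (-(θ γ ^ M * aeval (fun o => θ (nu o) * u) p * θ (nu o))) * hu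

/-- the ideal of the fibre -/
noncomputable def fib (d : ℕ) (f : Fin (N + 1) → MvPolynomial (Fin (N + 1)) k)
    (i0 i0' : Fin (N + 1)) (η η' : Fin (N + 1) → Ω) :
    Ideal (MvPolynomial (Option (Fin (N + 1))) Ω) :=
  Ideal.span {X none} ⊔ Ideal.span (Set.range fun i => num d f i0 η η' (some i)) ⊔
    Ideal.span {X (some i0')}

variable {Λ Λ' : T → ℝ} {x x' : T → Fin (N + 1) → Ω} {i0 i0' : Fin (N + 1)}
  {η η' : Fin (N + 1) → Ω}

/-- the relation between two successive charts -/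
structure Rel (d : ℕ) (f : Fin (N + 1) → MvPolynomial (Fin (N + 1)) k) (F : Filter T)
    (Λ Λ' : T → ℝ) (x x' : T → Fin (N + 1) → Ω) (η η' : Fin (N + 1) → Ω) : Prop where
  hd : 1 ≤ d
  hdeg : ∀ i, (f i).totalDegree ≤ d
  hΛΛ : ∀ᶠ m in F, Λ m = d * Λ' m
  hxx : ∀ᶠ m in F, ∀ i, x m i = aeval (x' m) (f i)
  hη : ∃ c : Ω, c ≠ 0 ∧ ∀ i, aeval η' (homogeneousComponent d (f i)) = c * η i

/-- the denominator -/
noncomputable def den (d : ℕ) (f : Fin (N + 1) → MvPolynomial (Fin (N + 1)) k) (i0 : Fin (N + 1))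
    (η' : Fin (N + 1) → Ω) : MvPolynomial (Option (Fin (N + 1))) Ω := Hc η' d (f i0)

lemma eval_zero_Hc (η : Fin (N + 1) → Ω) (m : ℕ) (g : MvPolynomial (Fin (N + 1)) k) :
    eval 0 (Hc η m g) = aeval η (homogeneousComponent m g) := by
  rw [eval_Hc]
  show H m g 0 (fun i => 0 + η i) = _
  simp only [zero_add]
  exact H_zero m g η

lemma Rel.den_ne (R : Rel d f F Λ Λ' x x' η η') (C₁ : Ch F Λ x i0 η) :
    eval 0 (den d f i0 η') ≠ 0 := by
  obtain ⟨c, hc, h⟩ := R.hη
  unfold den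
  rw [eval_zero_Hc, h, C₁.one, mul_one]
  exact hc

lemma Rel.num_zero (R : Rel d f F Λ Λ' x x' η η') (C₁ : Ch F Λ x i0 η)
    (o : Option (Fin (N + 1))) : eval 0 (num d f i0 η η' o) = 0 := by
  obtain ⟨c, hc, h⟩ := R.hη
  cases o with
  | none =>
    show eval 0 (X none ^ d) = _
    rw [map_pow, eval_X, Pi.zero_apply, zero_pow (by have := R.hd; omega)]
  | some i =>
    show eval 0 (Hc η' d (f i) - C (η i) * Hc η' d (f i0)) = _
    rw [map_sub, map_mul, eval_C, eval_zero_Hc, eval_zero_Hc, h, h, C₁.one]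
    ring

/-- the coordinates of the image -/
lemma Rel.pt_eq (R : Rel d f F Λ Λ' x x' η η') (C₁ : Ch F Λ x i0 η) (C₂ : Ch F Λ' x' i0' η') :
    ∀ᶠ m in F, eval (pt x' i0' η' m) (den d f i0 η') ≠ 0 ∧ ∀ o, pt x i0 η m o =
      eval (pt x' i0' η' m) (num d f i0 η η' o) * (eval (pt x' i0' η' m) (den d f i0 η'))⁻¹ := by
  have h1 := (eval_tendsto C₂.lim (den d f i0 η')).eventually_ne (R.den_ne C₁)
  filter_upwards [h1, C₁.ne, C₂.ne, R.hxx] with m h2 h3 h4 h5
  refine ⟨h2, fun o => ?_⟩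
  have h6 : ∀ i, x m i = x' m i0' ^ d * eval (pt x' i0' η' m) (Hc η' d (f i)) := by
    intro i
    rw [h5, eval_pt_Hc x' i0' η' m d (f i) (R.hdeg i) h4]
  have hT : x' m i0' ^ d ≠ 0 := pow_ne_zero _ h4
  cases o with
  | none =>
    show (x m i0)⁻¹ = eval (pt x' i0' η' m) (X none ^ d) * _
    rw [h6 i0, mul_inv, map_pow, eval_X]
    congr 1
    show (x' m i0' ^ d)⁻¹ = ((x' m i0')⁻¹) ^ d
    rw [inv_pow]
  | some i =>
    show x m i / x m i0 - η i = eval (pt x' i0' η' m) (Hc η' d (f i) - C (η i) * Hc η' d (f i0)) * _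
    unfold den at h2 ⊢
    rw [h6 i, h6 i0, map_sub, map_mul, eval_C]
    field_simp

/-- **The colength of the pulled back ideal.** -/
theorem Rel.step (R : Rel d f F Λ Λ' x x' η η') (C₁ : Ch F Λ x i0 η) (C₂ : Ch F Λ' x' i0' η')
    {b c K : ℕ} {s : ℝ}
    (hc : Sp Ω c (fib d f i0 i0' η η' ⊔ (idealOfVars (Option (Fin (N + 1))) Ω) ^ K))
    (hK : (idealOfVars (Option (Fin (N + 1))) Ω) ^ K ≤ Idl C₂.hΛ C₂.lim (d * s))
    (hb : Sp Ω b (Idl C₁.hΛ C₁.lim s)) :
    Sp Ω (b * (d * c)) (Idl C₂.hΛ C₂.lim (d * s)) := by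
  classical
  set J := Idl C₂.hΛ C₂.lim (d * s) with hJ
  set mk := Ideal.Quotient.mkₐ Ω J with hmk
  set γ := den d f i0 η' with hγ
  have hmkJ : ∀ a, mk a = 0 ↔ a ∈ J := fun a => by
    rw [hmk, Ideal.Quotient.mkₐ_eq_mk, Ideal.Quotient.eq_zero_iff_mem]
  -- the denominator is a unit
  have hnilv : ∀ a ∈ idealOfVars (Option (Fin (N + 1))) Ω, IsNilpotent (mk a) := by
    intro a ha
    refine ⟨K, ?_⟩
    rw [← map_pow, hmkJ]
    exact hK (Ideal.pow_mem_pow ha K)
  have hunit : IsUnit (mk γ) := by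
    have h1 : γ = C (eval 0 γ) + (γ - C (eval 0 γ)) := by ring
    rw [h1, map_add]
    apply IsNilpotent.isUnit_add_left_of_commute
    · apply hnilv
      apply mem_idealOfVars_of_eval
      rw [map_sub, eval_C, sub_self]
    · have h2 : IsUnit (C (eval 0 γ) : MvPolynomial (Option (Fin (N + 1))) Ω) := by
        exact (isUnit_iff_ne_zero.2 (R.den_ne C₁)).map MvPolynomial.C
      exact h2.map mk
    · exact Commute.all _ _
  obtain ⟨u, hu⟩ := hunit.exists_right_inv
  set ψ : MvPolynomial (Option (Fin (N + 1))) Ω →ₐ[Ω] _ ⧸ J :=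
    aeval (fun o => mk (num d f i0 η η' o) * u) with hψ
  have hψX : ∀ o, ψ (X o) = mk (num d f i0 η η' o) * u := fun o => by rw [hψ, aeval_X]
  have hnum : ∀ o, mk (num d f i0 η η' o) = mk γ * ψ (X o) := by
    intro o
    rw [hψX]
    linear_combination (-(mk (num d f i0 η η' o))) * hu
  -- the kernel
  have hker : ∀ G ∈ Idl C₁.hΛ C₁.lim s, ψ G = 0 := by
    intro G hG
    obtain ⟨M, G', hG'⟩ := exists_subst γ (num d f i0 η η') G
    have h1 := hG' _ mk u hu
    have h2 : G' ∈ J := by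
      rw [hJ, mem_Idl]
      have h3 : Ord F Λ' (d * s) (fun m => eval (pt x i0 η m) G) :=
        Ord.scale (by have := R.hd; exact_mod_cast this) R.hΛΛ hG
      have h4 : Ord F Λ' 0 (fun m => eval (pt x' i0' η' m) γ ^ M) :=
        Ord.of_tendsto C₂.hΛ ((eval_tendsto C₂.lim γ).pow M)
      have h5 := h4.mul h3
      rw [zero_add] at h5
      refine h5.congr ?_
      filter_upwards [R.pt_eq C₁ C₂] with m hm
      have h6 := hG' Ω (aeval (pt x' i0' η' m)) (eval (pt x' i0' η' m) γ)⁻¹ (by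
        rw [ae_eq]
        exact mul_inv_cancel₀ hm.1)
      simp only [ae_eq] at h6
      have h7 : (fun o => eval (pt x' i0' η' m) (num d f i0 η η' o) *
          (eval (pt x' i0' η' m) γ)⁻¹) = pt x i0 η m := by
        funext o
        exact (hm.2 o).symm
      rw [h7] at h6
      exact h6.symm
    rw [(hmkJ _).2 h2] at h1
    have h8 : IsUnit (mk γ ^ M) := hunit.pow M
    exact ((h8.mul_right_eq_zero).1 h1.symm)
  -- nilpotence
  have hmapX : ∀ o, ψ (X o) ∈ (idealOfVars (Option (Fin (N + 1))) Ω).map ψ := fun o =>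
    Ideal.mem_map_of_mem ψ (Ideal.subset_span ⟨o, rfl⟩)
  have hle : (idealOfVars (Option (Fin (N + 1))) Ω).map ψ ≤
      (idealOfVars (Option (Fin (N + 1))) Ω).map mk := by
    rw [idealOfVars, Ideal.map_span, Ideal.span_le]
    rintro _ ⟨_, ⟨o, rfl⟩, rfl⟩
    show ψ (X o) ∈ _
    rw [hψX]
    exact Ideal.mul_mem_right _ _ (Ideal.mem_map_of_mem mk
      (mem_idealOfVars_of_eval _ (R.num_zero C₁ o)))
  have hnil : ((idealOfVars (Option (Fin (N + 1))) Ω).map ψ) ^ K = ⊥ := by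
    rw [eq_bot_iff]
    refine (Ideal.pow_right_mono hle K).trans ?_
    rw [← Ideal.map_pow]
    refine Ideal.map_le_iff_le_comap.2 fun a ha => ?_
    rw [Ideal.mem_comap, Ideal.mem_bot, hmkJ]
    exact hK ha
  -- the ideal `J₂`
  set I := J ⊔ Ideal.span (Set.range fun i => num d f i0 η η' (some i)) with hI
  have hX0 : (X (some i0') : MvPolynomial (Option (Fin (N + 1))) Ω) ∈ J := by
    rw [hJ, mem_Idl]
    refine (ord_zero_fun _).congr ?_
    filter_upwards [C₂.ne] with m hm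
    rw [eval_X]
    show 0 = x' m i0' / x' m i0' - η' i0'
    rw [C₂.one, div_self hm, sub_self]
  have h1 : Sp Ω c (I ⊔ Ideal.span {X none}) := by
    apply hc.mono
    rw [hI]
    refine sup_le (sup_le (sup_le ?_ ?_) ?_) ?_
    · exact le_sup_right
    · exact le_sup_of_le_left le_sup_right
    · rw [Ideal.span_singleton_le_iff_mem]
      exact Ideal.mem_sup_left (Ideal.mem_sup_left hX0)
    · exact hK.trans (le_sup_of_le_left le_sup_left)
  have h2 : Sp Ω (d * c) (I ⊔ Ideal.span {X none ^ d}) := h1.pow d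
  refine Sp.mul_quot J (I ⊔ Ideal.span {X none ^ d}) ψ hker hb
    (idealOfVars (Option (Fin (N + 1))) Ω) hnil ?_ h2
  rw [hI, Ideal.map_sup, Ideal.map_sup]
  refine sup_le (sup_le ?_ ?_) ?_
  · rw [Ideal.map_quotient_self]
    exact bot_le
  · rw [Ideal.map_span, Ideal.span_le]
    rintro _ ⟨_, ⟨i, rfl⟩, rfl⟩
    show mk (num d f i0 η η' (some i)) ∈ _
    rw [hnum]
    exact Ideal.mul_mem_left _ _ (hmapX _)
  · rw [Ideal.map_span, Set.image_singleton, Ideal.span_singleton_le_iff_mem]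
    show mk (num d f i0 η η' none) ∈ _
    rw [hnum]
    exact Ideal.mul_mem_left _ _ (hmapX _)

end step

end Pool.Agent.KS6_82.CC
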