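import Mathlib
import Pool.Agent.KS6_82.CC.Cht

/-!
# The rate of convergence at infinity
-/

set_option autoImplicit false

namespace Pool.Agent.KS6_82.CC

open Filter Topology MvPolynomial Pool.Agent.R847.SN

section root

variable {T : Type} {Ω : Type} [NormedField Ω] {F : Filter T} {Λ : T → ℝ}

lemma Ord.root {s : ℝ} {g : T → Ω} {c : ℕ} (hc : 1 ≤ c)
    (h : Ord F Λ s (fun m => g m ^ c)) : Ord F Λ (s / c) g := by
  have hc0 : (0 : ℝ) < c := by exact_mod_cast hc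
  intro ε hε
  filter_upwards [h (c * ε) (by positivity)] with m hm
  rw [norm_pow] at hm
  have e1 : Real.exp (-((s - c * ε) * Λ m)) = Real.exp (-((s / c - ε) * Λ m)) ^ c := by
    rw [← Real.exp_nat_mul]
    congr 1
    field_simp
  rw [e1] at hm
  exact (pow_le_pow_iff_left₀ (norm_nonneg _) (Real.exp_pos _).le (by omega)).1 hm

/-- an ideal whose powers have small colength modulo a small ideal -/
lemma ord_coord {σ : Type} [Fintype σ] {p : T → σ → Ω} (hΛ : Tendsto Λ F atTop)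
    (hp : Tendsto p F (𝓝 0)) {s : ℝ} {c : ℕ} (hc : 1 ≤ c)
    (h : (idealOfVars σ Ω) ^ c ≤ Idl hΛ hp s ⊔ (idealOfVars σ Ω) ^ (c + 1)) (o : σ) :
    Ord F Λ (s / c) (fun m => p m o) := by
  classical
  have hX : ∀ o : σ, ∃ A ∈ Idl hΛ hp s, ∃ K : ℝ, 0 ≤ K ∧ ∀ m, ‖p m‖ ≤ 1 →
      ‖p m o ^ c - eval (p m) A‖ ≤ K * ‖p m‖ ^ (c + 1) := by
    intro o
    have h1 : (X o : MvPolynomial σ Ω) ^ c ∈ (idealOfVars σ Ω) ^ c :=
      Ideal.pow_mem_pow (show (X o : MvPolynomial σ Ω) ∈ idealOfVars σ Ω from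
        Ideal.subset_span ⟨o, rfl⟩) c
    obtain ⟨A, hA, B, hB, hAB⟩ := Submodule.mem_sup.1 (h h1)
    obtain ⟨K, hK, h2⟩ := eval_pow_bound (c + 1) B hB
    refine ⟨A, hA, K, hK, fun m hm => ?_⟩
    have h3 : p m o ^ c - eval (p m) A = eval (p m) B := by
      have h4 := congrArg (eval (p m)) hAB
      rw [map_add, map_pow, eval_X] at h4
      rw [← h4]
      ring
    rw [h3]
    exact h2 _ hm
  choose A hA K hK hAK using hX
  apply Ord.root hc
  set K' := ∑ o, K o with hK'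
  have hK'0 : 0 ≤ K' := Finset.sum_nonneg fun o _ => hK o
  have hsmall : ∀ᶠ m in F, ‖p m‖ ≤ 1 ∧ K' * ‖p m‖ ≤ 1 / 2 := by
    have h1 : Tendsto (fun m => ‖p m‖) F (𝓝 0) := by
      have := hp.norm
      rwa [norm_zero] at this
    have h2 : Tendsto (fun m => K' * ‖p m‖) F (𝓝 0) := by
      have := h1.const_mul K'
      rwa [mul_zero] at this
    filter_upwards [h1.eventually (gt_mem_nhds one_pos),
      h2.eventually (gt_mem_nhds (by norm_num : (0 : ℝ) < 1 / 2))] with m e1 e2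
    exact ⟨e1.le, e2.le⟩
  apply Ord.of_bound hΛ 2
  intro ε hε
  have hAo : ∀ᶠ m in F, ∀ o, ‖eval (p m) (A o)‖ ≤ Real.exp (-((s - ε) * Λ m)) := by
    rw [eventually_all]
    exact fun o => hA o ε hε
  filter_upwards [hsmall, hAo] with m h1 h2
  set E := Real.exp (-((s - ε) * Λ m)) with hE
  have hE0 : 0 < E := Real.exp_pos _
  -- the largest coordinate
  have hmax : ‖p m‖ ^ c ≤ E + K' * ‖p m‖ ^ (c + 1) := by
    obtain ⟨o', ho'⟩ : ∃ o', ‖p m‖ = ‖p m o'‖ := by
      have : Nonempty σ := ⟨o⟩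
      obtain ⟨o', _, h3⟩ := Finset.exists_max_image Finset.univ (fun o => ‖p m o‖)
        Finset.univ_nonempty
      refine ⟨o', le_antisymm ?_ (norm_le_pi_norm _ _)⟩
      exact (pi_norm_le_iff_of_nonneg (norm_nonneg _)).2 fun i => h3 i (Finset.mem_univ i)
    have h3 := hAK o' m h1.1
    have h4 : ‖p m o' ^ c‖ ≤ ‖p m o' ^ c - eval (p m) (A o')‖ + ‖eval (p m) (A o')‖ := by
      have := norm_add_le (p m o' ^ c - eval (p m) (A o')) (eval (p m) (A o'))
      rwa [sub_add_cancel] at this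
    rw [norm_pow, ← ho'] at h4
    have h5 : K o' * ‖p m‖ ^ (c + 1) ≤ K' * ‖p m‖ ^ (c + 1) := by
      apply mul_le_mul_of_nonneg_right _ (by positivity)
      exact Finset.single_le_sum (f := K) (fun o _ => hK o) (Finset.mem_univ o')
    have h6 := h2 o'
    linarith
  have h3 : K' * ‖p m‖ ^ (c + 1) ≤ 1 / 2 * ‖p m‖ ^ c := by
    rw [pow_succ']
    calc K' * (‖p m‖ * ‖p m‖ ^ c) = K' * ‖p m‖ * ‖p m‖ ^ c := by ring
      _ ≤ 1 / 2 * ‖p m‖ ^ c := mul_le_mul_of_nonneg_right h1.2 (by positivity)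
  have h4 : ‖p m o ^ c‖ ≤ ‖p m‖ ^ c := by
    rw [norm_pow]
    exact pow_le_pow_left₀ (norm_nonneg _) (norm_le_pi_norm _ _) _
  linarith

/-- all the coordinates of order at least `δ` -/
lemma idealOfVars_pow_le {σ : Type} [Finite σ] {p : T → σ → Ω} (hΛ : Tendsto Λ F atTop)
    (hp : Tendsto p F (𝓝 0)) {δ s : ℝ} {K : ℕ} (hK : s ≤ K * δ)
    (h : ∀ o, Ord F Λ δ (fun m => p m o)) : (idealOfVars σ Ω) ^ K ≤ Idl hΛ hp s := by
  have h1 : idealOfVars σ Ω ≤ Idl hΛ hp δ := by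
    rw [idealOfVars, Ideal.span_le]
    rintro _ ⟨o, rfl⟩
    show Ord F Λ δ (fun m => eval (p m) (X o))
    simp only [eval_X]
    exact h o
  exact (Ideal.pow_right_mono h1 K).trans ((Idl_pow hΛ hp δ K).trans (Idl_anti hΛ hp hK))

end root

variable {k : Type} [Field k] {Ω : Type} [NormedField Ω] [Algebra k Ω] {T : Type} {N d : ℕ}
  {f : Fin (N + 1) → MvPolynomial (Fin (N + 1)) k} {F : Filter T}
  {Λ Λ' : T → ℝ} {x x' : T → Fin (N + 1) → Ω} {i0 i0' : Fin (N + 1)}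
  {η η' : Fin (N + 1) → Ω}

lemma Rel.one_le (R : Rel d f F Λ Λ' x x' η η') (C₁ : Ch F Λ x i0 η)
    {c : ℕ} (hc : Sp Ω c (fib d f i0 i0' η η' ⊔ (idealOfVars (Option (Fin (N + 1))) Ω) ^ (c + 1))) :
    1 ≤ c := by
  rcases Nat.eq_zero_or_pos c with h0 | h0
  · exfalso
    subst h0
    obtain ⟨q, hq⟩ := hc
    obtain ⟨r, hr⟩ := hq 1
    rw [Finset.univ_eq_empty, Finset.sum_empty, sub_zero] at hr
    have hle : fib d f i0 i0' η η' ⊔ (idealOfVars (Option (Fin (N + 1))) Ω) ^ (0 + 1) ≤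
        RingHom.ker (eval (0 : Option (Fin (N + 1)) → Ω)) := by
      unfold fib
      refine sup_le (sup_le (sup_le ?_ ?_) ?_) ?_
      · rw [Ideal.span_singleton_le_iff_mem, RingHom.mem_ker, eval_X]
        rfl
      · rw [Ideal.span_le]
        rintro _ ⟨i, rfl⟩
        exact R.num_zero C₁ (some i)
      · rw [Ideal.span_singleton_le_iff_mem, RingHom.mem_ker, eval_X]
        rfl
      · rw [zero_add, pow_one, idealOfVars, Ideal.span_le]
        rintro _ ⟨o, rfl⟩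
        show eval 0 (X o) = 0
        rw [eval_X]
        rfl
    have h1 := hle hr
    rw [RingHom.mem_ker, map_one] at h1
    exact one_ne_zero h1
  · exact h0

/-- **The rate at the next level.** -/
theorem Rel.rate (R : Rel d f F Λ Λ' x x' η η') (C₁ : Ch F Λ x i0 η) (C₂ : Ch F Λ' x' i0' η')
    {c : ℕ} (hc : Sp Ω c (fib d f i0 i0' η η' ⊔ (idealOfVars (Option (Fin (N + 1))) Ω) ^ (c + 1)))
    {δ : ℝ} (hδ : ∀ i, Ord F Λ δ (fun m => x m i / x m i0 - η i)) (o : Option (Fin (N + 1))) :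
    Ord F Λ' (min 1 (d * δ) / c) (fun m => pt x' i0' η' m o) := by
  have hc1 := R.one_le C₁ hc
  apply ord_coord C₂.hΛ C₂.lim hc1
  have h1 : fib d f i0 i0' η η' ≤ Idl C₂.hΛ C₂.lim (min 1 (d * δ)) := by
    unfold fib
    refine sup_le (sup_le ?_ ?_) ?_
    · rw [Ideal.span_singleton_le_iff_mem, mem_Idl]
      refine Ord.mono C₂.hΛ ?_ (min_le_left _ _)
      refine C₂.o1.congr ?_
      filter_upwards with m
      rw [eval_X]
      rfl
    · rw [Ideal.span_le]
      rintro _ ⟨i, rfl⟩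
      show Ord F Λ' _ _
      refine Ord.mono C₂.hΛ ?_ (min_le_right _ _)
      have h3 : Ord F Λ' (d * δ) (fun m => x m i / x m i0 - η i) :=
        Ord.scale (by have := R.hd; exact_mod_cast this) R.hΛΛ (hδ i)
      have h4 : Ord F Λ' 0 (fun m => eval (pt x' i0' η' m) (den d f i0 η')) :=
        Ord.of_tendsto C₂.hΛ (eval_tendsto C₂.lim _)
      have h5 := h4.mul h3
      rw [zero_add] at h5
      refine h5.congr ?_
      filter_upwards [R.pt_eq C₁ C₂] with m hm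
      have h6 := hm.2 (some i)
      have h7 : pt x i0 η m (some i) = x m i / x m i0 - η i := rfl
      rw [← h7, h6]
      have := hm.1
      field_simp
    · rw [Ideal.span_singleton_le_iff_mem, mem_Idl]
      refine (ord_zero_fun _).congr ?_
      filter_upwards [C₂.ne] with m hm
      rw [eval_X]
      show 0 = x' m i0' / x' m i0' - η' i0'
      rw [C₂.one, div_self hm, sub_self]
  exact (pow_le_of_sp hc).trans (sup_le_sup_right h1 _)

end Pool.Agent.KS6_82.CC
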