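import Mathlib
import Pool.Agent.KS6_82.CC.Rate

/-!
# Chains of pull-backs
-/

set_option autoImplicit false

namespace Pool.Agent.KS6_82.CC

open Filter Topology MvPolynomial Pool.Agent.R847.SN

section alg

variable {Ω : Type} [Field Ω] {σ : Type}

lemma sup_pow_le {A : Type} [CommRing A] (P T : Ideal A) (n : ℕ) : (P ⊔ T) ^ n ≤ P ^ n ⊔ T := by
  induction n with
  | zero =>
    rw [pow_zero, pow_zero]
    exact le_sup_left
  | succ n ih =>
    rw [pow_succ, pow_succ]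
    refine (Ideal.mul_mono_left ih).trans ?_
    rw [Ideal.sup_mul, Ideal.mul_sup, Ideal.mul_sup]
    refine sup_le (sup_le ?_ ?_) (sup_le ?_ ?_)
    · exact le_sup_left
    · exact le_sup_of_le_right Ideal.mul_le_right
    · exact le_sup_of_le_right Ideal.mul_le_left
    · exact le_sup_of_le_right Ideal.mul_le_left

/-- nilpotence and successive approximation -/
lemma nil_approx {A : Type} [CommRing A] (Q M : Ideal A) (a K : ℕ) (h : M ^ a ≤ Q ⊔ M ^ (a + 1))
    (hK : M ^ K = ⊥) : M ^ a ≤ Q := by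
  have h1 : ∀ j, M ^ a ≤ Q ⊔ M ^ (a + j) := by
    intro j
    induction j with
    | zero => exact le_sup_right
    | succ j ih =>
      refine ih.trans (sup_le le_sup_left ?_)
      have h2 : M ^ (a + j) = M ^ j * M ^ a := by rw [← pow_add, add_comm]
      rw [h2]
      refine (Ideal.mul_mono_right h).trans ?_
      rw [Ideal.mul_sup]
      refine sup_le (le_sup_of_le_left Ideal.mul_le_right) (le_sup_of_le_right ?_)
      rw [← pow_add]
      apply le_of_eq
      congr 1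
      omega
  refine (h1 K).trans (sup_le le_rfl ?_)
  rw [pow_add, hK, Ideal.mul_bot]
  exact bot_le

/-- the state of a chain of pull-backs -/
structure St (I0 I : Ideal (MvPolynomial (Option σ) Ω)) (D A : ℕ) : Prop where
  ex : ∃ Ψ : MvPolynomial (Option σ) Ω →ₐ[Ω] MvPolynomial (Option σ) Ω ⧸ I,
    (∀ a ∈ I0, Ψ a = 0) ∧
    (Ideal.Quotient.mkₐ Ω I (X none)) ^ D ∈ (idealOfVars (Option σ) Ω).map Ψ ∧
    ((idealOfVars (Option σ) Ω).map (Ideal.Quotient.mkₐ Ω I)) ^ A ≤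
      (idealOfVars (Option σ) Ω).map Ψ ⊔ Ideal.span {Ideal.Quotient.mkₐ Ω I (X none)} ∧
    (idealOfVars (Option σ) Ω).map Ψ ≤ (idealOfVars (Option σ) Ω).map (Ideal.Quotient.mkₐ Ω I)

lemma St.refl (I : Ideal (MvPolynomial (Option σ) Ω)) : St I I 1 1 := by
  refine ⟨Ideal.Quotient.mkₐ Ω I, fun a ha => ?_, ?_, ?_, le_rfl⟩
  · rw [Ideal.Quotient.mkₐ_eq_mk, Ideal.Quotient.eq_zero_iff_mem]
    exact ha
  · rw [pow_one]
    exact Ideal.mem_map_of_mem _ (show (X none : MvPolynomial (Option σ) Ω) ∈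
      idealOfVars (Option σ) Ω from Ideal.subset_span ⟨none, rfl⟩)
  · exact (pow_one ((idealOfVars (Option σ) Ω).map (Ideal.Quotient.mkₐ Ω I))).le.trans
      le_sup_left

lemma mem_mk (I : Ideal (MvPolynomial (Option σ) Ω)) (a : MvPolynomial (Option σ) Ω) :
    Ideal.Quotient.mkₐ Ω I a = 0 ↔ a ∈ I := by
  rw [Ideal.Quotient.mkₐ_eq_mk, Ideal.Quotient.eq_zero_iff_mem]

lemma map_mk_pow {I : Ideal (MvPolynomial (Option σ) Ω)} {K : ℕ}
    (hK : (idealOfVars (Option σ) Ω) ^ K ≤ I) :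
    ((idealOfVars (Option σ) Ω).map (Ideal.Quotient.mkₐ Ω I)) ^ K = ⊥ := by
  rw [eq_bot_iff, ← Ideal.map_pow]
  refine Ideal.map_le_iff_le_comap.2 fun a ha => ?_
  rw [Ideal.mem_comap, Ideal.mem_bot, mem_mk]
  exact hK ha

/-- one more pull-back -/
lemma St.next {I0 I I' : Ideal (MvPolynomial (Option σ) Ω)} {D A d a K : ℕ} (h : St I0 I D A)
    (hd : 1 ≤ d) (hK : (idealOfVars (Option σ) Ω) ^ K ≤ I')
    (ψ : MvPolynomial (Option σ) Ω →ₐ[Ω] MvPolynomial (Option σ) Ω ⧸ I')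
    (hker : ∀ G ∈ I, ψ G = 0)
    (v : MvPolynomial (Option σ) Ω ⧸ I') (hv : IsUnit v)
    (ht : (Ideal.Quotient.mkₐ Ω I' (X none)) ^ d = v * ψ (X none))
    (hle : (idealOfVars (Option σ) Ω).map ψ ≤
      (idealOfVars (Option σ) Ω).map (Ideal.Quotient.mkₐ Ω I'))
    (ha : ((idealOfVars (Option σ) Ω).map (Ideal.Quotient.mkₐ Ω I')) ^ a ≤
      (idealOfVars (Option σ) Ω).map ψ ⊔ Ideal.span {Ideal.Quotient.mkₐ Ω I' (X none)} ⊔
        ((idealOfVars (Option σ) Ω).map (Ideal.Quotient.mkₐ Ω I')) ^ (a + 1)) :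
    St I0 I' (d * D) (a * A) := by
  obtain ⟨Ψ, h1, h2, h3, h4⟩ := h.ex
  set M := (idealOfVars (Option σ) Ω).map (Ideal.Quotient.mkₐ Ω I') with hM
  set tb := Ideal.Quotient.mkₐ Ω I' (X none) with htb
  have hnil : M ^ K = ⊥ := map_mk_pow hK
  have ha' : M ^ a ≤ (idealOfVars (Option σ) Ω).map ψ ⊔ Ideal.span {tb} :=
    nil_approx _ M a K ha hnil
  set ψb : (MvPolynomial (Option σ) Ω ⧸ I) →ₐ[Ω] MvPolynomial (Option σ) Ω ⧸ I' :=
    Ideal.Quotient.liftₐ I ψ hker with hψb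
  have hψbmk : ∀ G, ψb (Ideal.Quotient.mkₐ Ω I G) = ψ G := fun G => rfl
  have hcomp : ψb.comp (Ideal.Quotient.mkₐ Ω I) = ψ := by
    ext o
    exact hψbmk _
  have hmap1 : ((idealOfVars (Option σ) Ω).map (Ideal.Quotient.mkₐ Ω I)).map ψb =
      (idealOfVars (Option σ) Ω).map ψ := by
    rw [Ideal.map_mapₐ, hcomp]
  have hmap2 : ((idealOfVars (Option σ) Ω).map Ψ).map ψb =
      (idealOfVars (Option σ) Ω).map (ψb.comp Ψ) := Ideal.map_mapₐ _ _
  obtain ⟨w, hw⟩ := hv.exists_left_inv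
  have htψ : ψ (X none) = w * tb ^ d := by
    rw [ht, ← mul_assoc, hw, one_mul]
  refine ⟨ψb.comp Ψ, fun a ha => ?_, ?_, ?_, ?_⟩
  · rw [AlgHom.comp_apply, h1 a ha, map_zero]
  · have h5 := Ideal.mem_map_of_mem ψb h2
    rw [map_pow, hψbmk, hmap2] at h5
    have h6 : tb ^ (d * D) = v ^ D * ψ (X none) ^ D := by
      rw [pow_mul, ht, mul_pow]
    rw [h6]
    exact Ideal.mul_mem_left _ _ h5
  · refine (pow_mul M a A).le.trans ?_
    refine (Ideal.pow_right_mono ha' A).trans ((sup_pow_le _ _ A).trans (sup_le ?_ le_sup_right))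
    rw [← hmap1, ← Ideal.map_pow]
    refine (Ideal.map_mono h3).trans ?_
    have h5 : (Ideal.span {Ideal.Quotient.mkₐ Ω I (X none)}).map ψb =
        Ideal.span {ψb (Ideal.Quotient.mkₐ Ω I (X none))} := by
      rw [Ideal.map_span, Set.image_singleton]
    rw [Ideal.map_sup, hmap2, h5]
    apply sup_le_sup_left
    rw [Ideal.span_singleton_le_iff_mem]
    show ψb (Ideal.Quotient.mkₐ Ω I (X none)) ∈ _
    rw [hψbmk, htψ]
    apply Ideal.mul_mem_left
    exact Ideal.pow_mem_of_mem _ (Ideal.mem_span_singleton_self _) _ (by omega)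
  · rw [← hmap2]
    refine (Ideal.map_mono h4).trans ?_
    rw [hmap1]
    exact hle

/-- the dimension at the end of a chain -/
lemma St.sp {I0 I 𝔷 : Ideal (MvPolynomial (Option σ) Ω)} {D A K c e : ℕ} (h : St I0 I D A)
    (hK : (idealOfVars (Option σ) Ω) ^ K ≤ I) (hz : 𝔷 ≤ I) (h0 : Sp Ω c I0)
    (he : Sp Ω e (𝔷 ⊔ Ideal.span {X none} ⊔ (idealOfVars (Option σ) Ω) ^ A)) :
    Sp Ω (c * (D * e)) I := by
  obtain ⟨Ψ, h1, h2, h3, h4⟩ := h.ex
  set J₂ := ((idealOfVars (Option σ) Ω).map Ψ).comap (Ideal.Quotient.mkₐ Ω I) with hJ₂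
  have hIJ : I ≤ J₂ := by
    intro a ha
    rw [hJ₂, Ideal.mem_comap, (mem_mk I a).2 ha]
    exact zero_mem _
  have h5 : Sp Ω e (J₂ ⊔ Ideal.span {X none}) := by
    apply he.mono
    refine sup_le (sup_le (le_sup_of_le_left (hz.trans hIJ)) le_sup_right) ?_
    intro a ha
    have h6 : Ideal.Quotient.mkₐ Ω I a ∈
        ((idealOfVars (Option σ) Ω).map (Ideal.Quotient.mkₐ Ω I)) ^ A := by
      rw [← Ideal.map_pow]
      exact Ideal.mem_map_of_mem _ ha
    obtain ⟨b, hb, c', hc', hbc⟩ := Submodule.mem_sup.1 (h3 h6)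
    obtain ⟨g, rfl⟩ := Ideal.mem_span_singleton'.1 hc'
    obtain ⟨g', rfl⟩ := Ideal.Quotient.mkₐ_surjective Ω I g
    have h7 : a - g' * X none ∈ J₂ := by
      rw [hJ₂, Ideal.mem_comap, map_sub, map_mul, ← hbc, add_sub_cancel_right]
      exact hb
    have h8 : a = (a - g' * X none) + g' * X none := by ring
    rw [h8]
    exact Submodule.add_mem_sup h7 (Ideal.mul_mem_left _ _ (Ideal.mem_span_singleton_self _))
  have h6 : Sp Ω (D * e) J₂ := by
    apply (h5.pow D).mono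
    refine sup_le le_rfl ?_
    rw [Ideal.span_singleton_le_iff_mem, hJ₂, Ideal.mem_comap, map_pow]
    exact h2
  refine Sp.mul_quot I J₂ Ψ h1 h0 (idealOfVars (Option σ) Ω) (K := K) ?_ ?_ h6
  · rw [eq_bot_iff]
    exact (Ideal.pow_right_mono h4 K).trans (map_mk_pow hK).le
  · exact Ideal.map_comap_le

end alg

section chart

variable {k : Type} [Field k] {Ω : Type} [NormedField Ω] [Algebra k Ω] {T : Type} {N d : ℕ}
  {f : Fin (N + 1) → MvPolynomial (Fin (N + 1)) k} {F : Filter T}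
  {Λ Λ' : T → ℝ} {x x' : T → Fin (N + 1) → Ω} {i0 i0' : Fin (N + 1)}
  {η η' : Fin (N + 1) → Ω}

/-- the pull-back modulo a valuation ideal -/
lemma Rel.psi (R : Rel d f F Λ Λ' x x' η η') (C₁ : Ch F Λ x i0 η) (C₂ : Ch F Λ' x' i0' η')
    {K : ℕ} {s : ℝ}
    (hK : (idealOfVars (Option (Fin (N + 1))) Ω) ^ K ≤ Idl C₂.hΛ C₂.lim (d * s)) :
    ∃ ψ : MvPolynomial (Option (Fin (N + 1))) Ω →ₐ[Ω]
        MvPolynomial (Option (Fin (N + 1))) Ω ⧸ Idl C₂.hΛ C₂.lim (d * s),
      (∀ G ∈ Idl C₁.hΛ C₁.lim s, ψ G = 0) ∧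
      (∃ v, IsUnit v ∧ ∀ o, Ideal.Quotient.mkₐ Ω _ (num d f i0 η η' o) = v * ψ (X o)) ∧
      (idealOfVars (Option (Fin (N + 1))) Ω).map ψ ≤
        (idealOfVars (Option (Fin (N + 1))) Ω).map (Ideal.Quotient.mkₐ Ω _) := by
  classical
  set J := Idl C₂.hΛ C₂.lim (d * s) with hJ
  set mk := Ideal.Quotient.mkₐ Ω J with hmk
  set γ := den d f i0 η' with hγ
  have hmkJ : ∀ a, mk a = 0 ↔ a ∈ J := fun a => mem_mk J a
  -- the denominator is a unit
  have hnilv : ∀ a ∈ idealOfVars (Option (Fin (N + 1))) Ω, IsNilpotent (mk a) := by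
    intro a ha
    refine ⟨K, ?_⟩
    rw [← map_pow, hmkJ]
    exact hK (Ideal.pow_mem_pow ha K)
  have hunit : IsUnit (mk γ) := by
    have h1 : γ = C (eval 0 γ) + (γ - C (eval 0 γ)) := by ring
    rw [h1, map_add]
    apply IsNilpotent.isUnit_add_left_of_commute
    · apply hnilv
      apply mem_idealOfVars_of_eval
      rw [map_sub, eval_C, sub_self]
    · have h2 : IsUnit (C (eval 0 γ) : MvPolynomial (Option (Fin (N + 1))) Ω) := by
        exact (isUnit_iff_ne_zero.2 (R.den_ne C₁)).map MvPolynomial.C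
      exact h2.map mk
    · exact Commute.all _ _
  obtain ⟨u, hu⟩ := hunit.exists_right_inv
  set ψ : MvPolynomial (Option (Fin (N + 1))) Ω →ₐ[Ω] _ ⧸ J :=
    aeval (fun o => mk (num d f i0 η η' o) * u) with hψ
  have hψX : ∀ o, ψ (X o) = mk (num d f i0 η η' o) * u := fun o => by rw [hψ, aeval_X]
  have hnum : ∀ o, mk (num d f i0 η η' o) = mk γ * ψ (X o) := by
    intro o
    rw [hψX]
    linear_combination (-(mk (num d f i0 η η' o))) * hu
  refine ⟨ψ, ?_, ⟨mk γ, hunit, hnum⟩, ?_⟩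
  · intro G hG
    obtain ⟨M, G', hG'⟩ := exists_subst γ (num d f i0 η η') G
    have h1 := hG' _ mk u hu
    have h2 : G' ∈ J := by
      rw [hJ, mem_Idl]
      have h3 : Ord F Λ' (d * s) (fun m => eval (pt x i0 η m) G) :=
        Ord.scale (by have := R.hd; exact_mod_cast this) R.hΛΛ hG
      have h4 : Ord F Λ' 0 (fun m => eval (pt x' i0' η' m) γ ^ M) :=
        Ord.of_tendsto C₂.hΛ ((eval_tendsto C₂.lim γ).pow M)
      have h5 := h4.mul h3
      rw [zero_add] at h5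
      refine h5.congr ?_
      filter_upwards [R.pt_eq C₁ C₂] with m hm
      have h6 := hG' Ω (aeval (pt x' i0' η' m)) (eval (pt x' i0' η' m) γ)⁻¹ (by
        rw [ae_eq]
        exact mul_inv_cancel₀ hm.1)
      simp only [ae_eq] at h6
      have h7 : (fun o => eval (pt x' i0' η' m) (num d f i0 η η' o) *
          (eval (pt x' i0' η' m) γ)⁻¹) = pt x i0 η m := by
        funext o
        exact (hm.2 o).symm
      rw [h7] at h6
      exact h6.symm
    rw [(hmkJ _).2 h2] at h1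
    have h8 : IsUnit (mk γ ^ M) := hunit.pow M
    exact ((h8.mul_right_eq_zero).1 h1.symm)
  · rw [idealOfVars, Ideal.map_span, Ideal.span_le]
    rintro _ ⟨_, ⟨o, rfl⟩, rfl⟩
    show ψ (X o) ∈ _
    rw [hψX]
    exact Ideal.mul_mem_right _ _ (Ideal.mem_map_of_mem mk
      (mem_idealOfVars_of_eval _ (R.num_zero C₁ o)))

/-- one more step of a chain -/
theorem Rel.st (R : Rel d f F Λ Λ' x x' η η') (C₁ : Ch F Λ x i0 η) (C₂ : Ch F Λ' x' i0' η')
    {I0 : Ideal (MvPolynomial (Option (Fin (N + 1))) Ω)} {D A a K : ℕ} {s : ℝ}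
    (hK : (idealOfVars (Option (Fin (N + 1))) Ω) ^ K ≤ Idl C₂.hΛ C₂.lim (d * s))
    (ha : (idealOfVars (Option (Fin (N + 1))) Ω) ^ a ≤ fib d f i0 i0' η η' ⊔
      (idealOfVars (Option (Fin (N + 1))) Ω) ^ (a + 1))
    (h : St I0 (Idl C₁.hΛ C₁.lim s) D A) :
    St I0 (Idl C₂.hΛ C₂.lim (d * s)) (d * D) (a * A) := by
  obtain ⟨ψ, hker, ⟨v, hv, hnum⟩, hle⟩ := R.psi C₁ C₂ hK
  refine h.next R.hd hK ψ hker v hv ?_ hle ?_
  · rw [← hnum none]
    show _ = Ideal.Quotient.mkₐ Ω _ (X none ^ d)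
    rw [map_pow]
  · set mk := Ideal.Quotient.mkₐ Ω (Idl C₂.hΛ C₂.lim (d * s)) with hmk
    have h1 := Ideal.map_mono (f := mk) ha
    rw [Ideal.map_sup, Ideal.map_pow, Ideal.map_pow] at h1
    refine h1.trans (sup_le_sup_right ?_ _)
    unfold fib
    rw [Ideal.map_sup, Ideal.map_sup, Ideal.map_span, Ideal.map_span, Ideal.map_span,
      Set.image_singleton, Set.image_singleton]
    refine sup_le (sup_le le_sup_right ?_) ?_
    · rw [Ideal.span_le]
      rintro _ ⟨_, ⟨i, rfl⟩, rfl⟩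
      show mk (num d f i0 η η' (some i)) ∈ _
      rw [hnum]
      exact Ideal.mem_sup_left (Ideal.mul_mem_left _ _ (Ideal.mem_map_of_mem ψ
        (show (X (some i) : MvPolynomial (Option (Fin (N + 1))) Ω) ∈ idealOfVars _ Ω from
          Ideal.subset_span ⟨some i, rfl⟩)))
    · rw [Ideal.span_singleton_le_iff_mem]
      have h2 : (X (some i0') : MvPolynomial (Option (Fin (N + 1))) Ω) ∈
          Idl C₂.hΛ C₂.lim (d * s) := by
        rw [mem_Idl]
        refine (ord_zero_fun _).congr ?_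
        filter_upwards [C₂.ne] with m hm
        rw [eval_X]
        show 0 = x' m i0' / x' m i0' - η' i0'
        rw [C₂.one, div_self hm, sub_self]
      show mk (X (some i0')) ∈ _
      rw [hmk, (mem_mk _ _).2 h2]
      exact zero_mem _

lemma Rel.one_le' (R : Rel d f F Λ Λ' x x' η η') (C₁ : Ch F Λ x i0 η) {a : ℕ}
    (ha : (idealOfVars (Option (Fin (N + 1))) Ω) ^ a ≤ fib d f i0 i0' η η' ⊔
      (idealOfVars (Option (Fin (N + 1))) Ω) ^ (a + 1)) : 1 ≤ a := by
  rcases Nat.eq_zero_or_pos a with h0 | h0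
  · exfalso
    subst h0
    have hle : fib d f i0 i0' η η' ⊔ (idealOfVars (Option (Fin (N + 1))) Ω) ^ (0 + 1) ≤
        RingHom.ker (eval (0 : Option (Fin (N + 1)) → Ω)) := by
      unfold fib
      refine sup_le (sup_le (sup_le ?_ ?_) ?_) ?_
      · rw [Ideal.span_singleton_le_iff_mem, RingHom.mem_ker, eval_X]
        rfl
      · rw [Ideal.span_le]
        rintro _ ⟨i, rfl⟩
        exact R.num_zero C₁ (some i)
      · rw [Ideal.span_singleton_le_iff_mem, RingHom.mem_ker, eval_X]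
        rfl
      · rw [zero_add, pow_one, idealOfVars, Ideal.span_le]
        rintro _ ⟨o, rfl⟩
        show eval 0 (X o) = 0
        rw [eval_X]
        rfl
    rw [pow_zero, Ideal.one_eq_top] at ha
    have h1 := hle (ha (Submodule.mem_top (x := 1)))
    rw [RingHom.mem_ker, map_one] at h1
    exact one_ne_zero h1
  · exact h0

/-- **The rate at the next level.** -/
theorem Rel.rate' (R : Rel d f F Λ Λ' x x' η η') (C₁ : Ch F Λ x i0 η) (C₂ : Ch F Λ' x' i0' η')
    {a : ℕ} (ha : (idealOfVars (Option (Fin (N + 1))) Ω) ^ a ≤ fib d f i0 i0' η η' ⊔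
      (idealOfVars (Option (Fin (N + 1))) Ω) ^ (a + 1))
    {δ : ℝ} (hδ : ∀ i, Ord F Λ δ (fun m => x m i / x m i0 - η i)) (o : Option (Fin (N + 1))) :
    Ord F Λ' (min 1 (d * δ) / a) (fun m => pt x' i0' η' m o) := by
  have hc1 := R.one_le' C₁ ha
  apply ord_coord C₂.hΛ C₂.lim hc1
  have h1 : fib d f i0 i0' η η' ≤ Idl C₂.hΛ C₂.lim (min 1 (d * δ)) := by
    unfold fib
    refine sup_le (sup_le ?_ ?_) ?_
    · rw [Ideal.span_singleton_le_iff_mem, mem_Idl]
      refine Ord.mono C₂.hΛ ?_ (min_le_left _ _)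
      refine C₂.o1.congr ?_
      filter_upwards with m
      rw [eval_X]
      rfl
    · rw [Ideal.span_le]
      rintro _ ⟨i, rfl⟩
      show Ord F Λ' _ _
      refine Ord.mono C₂.hΛ ?_ (min_le_right _ _)
      have h3 : Ord F Λ' (d * δ) (fun m => x m i / x m i0 - η i) :=
        Ord.scale (by have := R.hd; exact_mod_cast this) R.hΛΛ (hδ i)
      have h4 : Ord F Λ' 0 (fun m => eval (pt x' i0' η' m) (den d f i0 η')) :=
        Ord.of_tendsto C₂.hΛ (eval_tendsto C₂.lim _)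
      have h5 := h4.mul h3
      rw [zero_add] at h5
      refine h5.congr ?_
      filter_upwards [R.pt_eq C₁ C₂] with m hm
      have h6 := hm.2 (some i)
      have h7 : pt x i0 η m (some i) = x m i / x m i0 - η i := rfl
      rw [← h7, h6]
      have := hm.1
      field_simp
    · rw [Ideal.span_singleton_le_iff_mem, mem_Idl]
      refine (ord_zero_fun _).congr ?_
      filter_upwards [C₂.ne] with m hm
      rw [eval_X]
      show 0 = x' m i0' / x' m i0' - η' i0'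
      rw [C₂.one, div_self hm, sub_self]
  exact ha.trans (sup_le_sup_right h1 _)

end chart

end Pool.Agent.KS6_82.CC
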