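import Mathlib
import Pool.Agent.KS6_82.CC.Rate

/-!
# Towers of charts, pairs of indices and the growth of the colengths
-/

set_option autoImplicit false

namespace Pool.Agent.KS6_82.CC

open Filter Topology MvPolynomial Pool.Agent.R847.SN

/-- the ultrafilter of pairs -/
def PF (Hy U : Ultrafilter ℕ) : Ultrafilter ℕ := Hy.bind fun a => U.map (Nat.pair a)

lemma ev_PF (Hy U : Ultrafilter ℕ) (p : ℕ → Prop) :
    (∀ᶠ m in PF Hy U, p m) ↔ ∀ᶠ a in Hy, ∀ᶠ n in U, p (Nat.pair a n) := Iff.rfl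

lemma ev_lv (Hy U : Ultrafilter ℕ) (J : ℕ → ℕ) (P : ℕ → ℕ → Prop)
    (h : ∀ a, ∀ᶠ n in U, P (J a) n) : ∀ᶠ m : ℕ in PF Hy U, P (J m.unpair.1) m.unpair.2 := by
  rw [ev_PF]
  filter_upwards with a
  filter_upwards [h a] with n hn
  rw [Nat.unpair_pair]
  exact hn

lemma tendsto_lv (Hy U : Ultrafilter ℕ) (J : ℕ → ℕ) {β : Type} (g : ℕ → ℕ → β) (L : Filter β)
    (h : ∀ a, Tendsto (g (J a)) U L) :
    Tendsto (fun m : ℕ => g (J m.unpair.1) m.unpair.2) (PF Hy U) L := by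
  intro s hs
  exact ev_lv Hy U J (fun j n => g j n ∈ s) fun a => h a hs

section lv

variable {Ω : Type} [NormedField Ω]

lemma ord_lv (Hy U : Ultrafilter ℕ) (J : ℕ → ℕ) (Λ : ℕ → ℕ → ℝ) (s : ℝ) (g : ℕ → ℕ → Ω)
    (h : ∀ a, Ord U (Λ (J a)) s (g (J a))) :
    Ord (PF Hy U) (fun m : ℕ => Λ (J m.unpair.1) m.unpair.2) s
      (fun m => g (J m.unpair.1) m.unpair.2) := by
  intro ε hε
  exact ev_lv Hy U J (fun j n => ‖g j n‖ ≤ Real.exp (-((s - ε) * Λ j n))) fun a => h a ε hε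

variable {N : ℕ}

lemma ch_lv (Hy U : Ultrafilter ℕ) (J : ℕ → ℕ) (Λ : ℕ → ℕ → ℝ) (x : ℕ → ℕ → Fin (N + 1) → Ω)
    (i0 : Fin (N + 1)) (η : Fin (N + 1) → Ω) (h : ∀ a, Ch U (Λ (J a)) (x (J a)) i0 η) :
    Ch (PF Hy U) (fun m : ℕ => Λ (J m.unpair.1) m.unpair.2)
      (fun m => x (J m.unpair.1) m.unpair.2) i0 η where
  hΛ := tendsto_lv Hy U J Λ _ fun a => (h a).hΛ
  one := (h 0).one
  ne := ev_lv Hy U J (fun j n => x j n i0 ≠ 0) fun a => (h a).ne
  o1 := ord_lv Hy U J Λ 1 (fun j n => (x j n i0)⁻¹) fun a => (h a).o1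
  o2 := ord_lv Hy U J Λ (-1) (fun j n => x j n i0) fun a => (h a).o2
  lim := tendsto_lv Hy U J (fun j n => pt (x j) i0 η n) _ fun a => (h a).lim

variable {k : Type} [Field k] [Algebra k Ω] {d : ℕ} {f : Fin (N + 1) → MvPolynomial (Fin (N + 1)) k}

lemma rel_lv (Hy U : Ultrafilter ℕ) (J : ℕ → ℕ) (Λ : ℕ → ℕ → ℝ) (x : ℕ → ℕ → Fin (N + 1) → Ω)
    (η η' : Fin (N + 1) → Ω)
    (h : ∀ a, Rel d f (U : Filter ℕ) (Λ (J a)) (Λ (J a + 1)) (x (J a)) (x (J a + 1)) η η') :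
    Rel d f (PF Hy U : Filter ℕ) (fun m : ℕ => Λ (J m.unpair.1) m.unpair.2)
      (fun m : ℕ => Λ (J m.unpair.1 + 1) m.unpair.2)
      (fun m => x (J m.unpair.1) m.unpair.2) (fun m => x (J m.unpair.1 + 1) m.unpair.2) η η' where
  hd := (h 0).hd
  hdeg := (h 0).hdeg
  hΛΛ := ev_lv Hy U J (fun j n => Λ j n = d * Λ (j + 1) n) fun a => (h a).hΛΛ
  hxx := ev_lv Hy U J (fun j n => ∀ i, x j n i = aeval (x (j + 1) n) (f i)) fun a => (h a).hxx
  hη := (h 0).hη

/-- a tower of charts -/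
structure Tow (d l : ℕ) (f : Fin (N + 1) → MvPolynomial (Fin (N + 1)) k) (U : Ultrafilter ℕ)
    (Λ : ℕ → ℕ → ℝ) (x : ℕ → ℕ → Fin (N + 1) → Ω) (i0 : ℕ → Fin (N + 1))
    (η : ℕ → Fin (N + 1) → Ω) (e : ℕ → ℕ) : Prop where
  hl : 1 ≤ l
  hd : 1 ≤ d
  ch : ∀ j, Ch U (Λ j) (x j) (i0 j) (η j)
  rel : ∀ j, Rel d f (U : Filter ℕ) (Λ j) (Λ (j + 1)) (x j) (x (j + 1)) (η j) (η (j + 1))
  sp : ∀ j K, Sp Ω (e (j + 1)) (fib d f (i0 j) (i0 (j + 1)) (η j) (η (j + 1)) ⊔
    (idealOfVars (Option (Fin (N + 1))) Ω) ^ K)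
  pi : ∀ j, i0 (j + l) = i0 j
  pη : ∀ j, η (j + l) = η j
  pe : ∀ j, e (j + l) = e j
  hprod : ∏ i ∈ Finset.range l, e (i + 1) ≤ d ^ l
  rate0 : ∃ ρ : ℝ, 0 < ρ ∧ ∀ i, Ord U (Λ 0) ρ (fun n => x 0 n i / x 0 n (i0 0) - η 0 i)

variable {U : Ultrafilter ℕ} {l : ℕ} {Λ : ℕ → ℕ → ℝ} {x : ℕ → ℕ → Fin (N + 1) → Ω}
  {i0 : ℕ → Fin (N + 1)} {η : ℕ → Fin (N + 1) → Ω} {e : ℕ → ℕ}

lemma per_mul {β : Type} {g : ℕ → β} {l : ℕ} (h : ∀ j, g (j + l) = g j) (t j : ℕ) :
    g (j + l * t) = g j := by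
  induction t with
  | zero => rfl
  | succ t ih =>
    rw [mul_add, mul_one, ← add_assoc, h, ih]

lemma per_mod {β : Type} {g : ℕ → β} {l : ℕ} (h : ∀ j, g (j + l) = g j) (j : ℕ) :
    g j = g (j % l) := by
  conv_lhs => rw [← Nat.mod_add_div j l]
  exact per_mul h _ _

lemma Tow.e_pos (T : Tow d l f U Λ x i0 η e) (j : ℕ) : 1 ≤ e (j + 1) :=
  (T.rel j).one_le (T.ch j) (T.sp j _)

/-- the rate at all levels -/
theorem Tow.rate (T : Tow d l f U Λ x i0 η e) : ∃ δ : ℝ, 0 < δ ∧ ∀ j o,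
    Ord U (Λ j) δ (fun n => pt (x j) (i0 j) (η j) n o) := by
  classical
  obtain ⟨ρ, hρ, hρ0⟩ := T.rate0
  have hd0 : (0 : ℝ) < d := by exact_mod_cast T.hd
  have he0 : ∀ j, (0 : ℝ) < e (j + 1) := fun j => by exact_mod_cast T.e_pos j
  set w : ℕ → ℝ := fun r => (d : ℝ) ^ r / ∏ i ∈ Finset.range r, (e (i + 1) : ℝ) with hw
  have hprodpos : ∀ r, (0 : ℝ) < ∏ i ∈ Finset.range r, (e (i + 1) : ℝ) := fun r =>
    Finset.prod_pos fun i _ => he0 i
  have hwpos : ∀ r, 0 < w r := fun r => div_pos (pow_pos hd0 r) (hprodpos r)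
  have hw0 : w 0 = 1 := by
    rw [hw]
    simp
  have hwl : 1 ≤ w l := by
    rw [hw]
    simp only
    rw [one_le_div (hprodpos l)]
    exact_mod_cast T.hprod
  have hwsucc : ∀ r, w (r + 1) * e (r + 1) = d * w r := by
    intro r
    rw [hw]
    simp only
    rw [Finset.prod_range_succ, pow_succ]
    have h1 := he0 r
    have h2 := hprodpos r
    field_simp
  have hne : (Finset.range l).Nonempty := Finset.nonempty_range_iff.2 (by have := T.hl; omega)
  set κ : ℝ := min ρ ((Finset.range l).inf' hne fun r => 1 / (e (r + 1) * w (r + 1))) with hκ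
  have hκpos : 0 < κ := by
    rw [hκ, lt_min_iff]
    refine ⟨hρ, ?_⟩
    rw [Finset.lt_inf'_iff]
    intro r _
    have h1 := he0 r
    have h2 := hwpos (r + 1)
    positivity
  have hκle : ∀ r < l, κ * (e (r + 1) * w (r + 1)) ≤ 1 := by
    intro r hr
    have h1 : κ ≤ 1 / (e (r + 1) * w (r + 1)) :=
      (min_le_right _ _).trans (Finset.inf'_le _ (Finset.mem_range.2 hr))
    rwa [le_div_iff₀ (mul_pos (he0 r) (hwpos _))] at h1
  have main : ∀ j i, Ord U (Λ j) (κ * w (j % l)) (fun n => x j n i / x j n (i0 j) - η j i) := by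
    intro j
    induction j with
    | zero =>
      intro i
      refine Ord.mono (T.ch 0).hΛ (hρ0 i) ?_
      rw [Nat.zero_mod, hw0, mul_one]
      exact min_le_left _ _
    | succ j ih =>
      intro i
      have h1 := (T.rel j).rate (T.ch j) (T.ch (j + 1)) (T.sp j _) ih (some i)
      have hr : j % l < l := Nat.mod_lt _ (by have := T.hl; omega)
      have h2 : e (j + 1) = e (j % l + 1) :=
        per_mod (g := fun j => e (j + 1)) (fun j => by
          have := T.pe (j + 1)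
          rw [← this]
          congr 1
          omega) j
      have h3 : κ * w (j % l + 1) ≤ min 1 (d * (κ * w (j % l))) / e (j + 1) := by
        rw [h2, le_div_iff₀ (he0 _)]
        apply le_min
        · have := hκle _ hr
          linarith
        · have := hwsucc (j % l)
          calc κ * w (j % l + 1) * e (j % l + 1) = κ * (w (j % l + 1) * e (j % l + 1)) := by ring
            _ = κ * (d * w (j % l)) := by rw [this]
            _ ≤ d * (κ * w (j % l)) := by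
              apply le_of_eq
              ring
      have h4 : κ * w ((j + 1) % l) ≤ κ * w (j % l + 1) := by
        rcases Nat.lt_or_ge (j % l + 1) l with h5 | h5
        · have h6 : (j + 1) % l = j % l + 1 := by
            rw [Nat.add_mod]
            rcases Nat.lt_or_ge 1 l with h7 | h7
            · rw [Nat.mod_eq_of_lt h7, Nat.mod_eq_of_lt h5]
            · omega
          rw [h6]
        · have h6 : j % l + 1 = l := by omega
          have h7 : (j + 1) % l = 0 := by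
            have h8 := Nat.mod_add_div j l
            have h9 : j + 1 = l * (j / l + 1) := by
              rw [mul_add, mul_one]
              omega
            rw [h9, Nat.mul_mod_right]
          rw [h7, h6, hw0]
          exact mul_le_mul_of_nonneg_left hwl hκpos.le
      exact Ord.mono (T.ch (j + 1)).hΛ h1 (h4.trans h3)
  set δ : ℝ := min 1 ((Finset.range l).inf' hne fun r => κ * w r) with hδ
  have hδpos : 0 < δ := by
    rw [hδ, lt_min_iff]
    refine ⟨one_pos, ?_⟩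
    rw [Finset.lt_inf'_iff]
    intro r _
    exact mul_pos hκpos (hwpos r)
  refine ⟨δ, hδpos, fun j o => ?_⟩
  cases o with
  | none => exact Ord.mono (T.ch j).hΛ (T.ch j).o1 (min_le_left _ _)
  | some i =>
    refine Ord.mono (T.ch j).hΛ (main j i) ((min_le_right _ _).trans ?_)
    exact Finset.inf'_le (fun r => κ * w r)
      (Finset.mem_range.2 (Nat.mod_lt _ (by have := T.hl; omega)))

/-- the chart at a family of levels -/
lemma Tow.chJ (T : Tow d l f U Λ x i0 η e) (Hy : Ultrafilter ℕ) (J : ℕ → ℕ) (hJ : ∀ a, l ∣ J a)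
    (q : ℕ) : Ch (PF Hy U) (fun m : ℕ => Λ (J m.unpair.1 + q) m.unpair.2)
      (fun m => x (J m.unpair.1 + q) m.unpair.2) (i0 q) (η q) := by
  apply ch_lv Hy U (fun a => J a + q) Λ x (i0 q) (η q)
  intro a
  obtain ⟨t, ht⟩ := hJ a
  have h1 := T.ch (J a + q)
  have h2 : J a + q = q + l * t := by omega
  have h3 : i0 (J a + q) = i0 q := by
    rw [h2]
    exact per_mul T.pi t q
  have h4 : η (J a + q) = η q := by
    rw [h2]
    exact per_mul T.pη t q
  rw [h3, h4] at h1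
  exact h1

lemma Tow.relJ (T : Tow d l f U Λ x i0 η e) (Hy : Ultrafilter ℕ) (J : ℕ → ℕ) (hJ : ∀ a, l ∣ J a)
    (q : ℕ) : Rel d f (PF Hy U : Filter ℕ) (fun m : ℕ => Λ (J m.unpair.1 + q) m.unpair.2)
      (fun m : ℕ => Λ (J m.unpair.1 + (q + 1)) m.unpair.2)
      (fun m => x (J m.unpair.1 + q) m.unpair.2)
      (fun m => x (J m.unpair.1 + (q + 1)) m.unpair.2) (η q) (η (q + 1)) := by
  apply rel_lv Hy U (fun a => J a + q) Λ x (η q) (η (q + 1))
  intro a
  obtain ⟨t, ht⟩ := hJ a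
  have h1 := T.rel (J a + q)
  have h2 : J a + q = q + l * t := by omega
  have h2' : J a + q + 1 = (q + 1) + l * t := by omega
  have h3 : η (J a + q) = η q := by
    rw [h2]
    exact per_mul T.pη t q
  have h4 : η (J a + q + 1) = η (q + 1) := by
    rw [h2']
    exact per_mul T.pη t (q + 1)
  rw [h3, h4] at h1
  exact h1

/-- **The growth of the colengths.** -/
theorem Tow.grow (T : Tow d l f U Λ x i0 η e) (s0 : ℝ) : ∃ c : ℕ, ∀ (Hy : Ultrafilter ℕ)
    (J : ℕ → ℕ) (hJ : ∀ a, l ∣ J a) (q : ℕ),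
    Sp Ω (c * ∏ i ∈ Finset.range q, (d * e (i + 1)))
      (Idl (T.chJ Hy J hJ q).hΛ (T.chJ Hy J hJ q).lim ((d : ℝ) ^ q * s0)) := by
  obtain ⟨δ, hδ, hr⟩ := T.rate
  have hpow : ∀ s : ℝ, ∃ K : ℕ, ∀ (Hy : Ultrafilter ℕ) (J : ℕ → ℕ) (hJ : ∀ a, l ∣ J a) (q : ℕ),
      (idealOfVars (Option (Fin (N + 1))) Ω) ^ K ≤
        Idl (T.chJ Hy J hJ q).hΛ (T.chJ Hy J hJ q).lim s := by
    intro s
    obtain ⟨K, hK⟩ := exists_nat_ge (s / δ)
    refine ⟨K, fun Hy J hJ q => idealOfVars_pow_le _ _ (δ := δ) ?_ fun o => ?_⟩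
    · rwa [div_le_iff₀ hδ] at hK
    · apply ord_lv Hy U (fun a => J a + q) Λ δ (fun j n => pt (x j) (i0 q) (η q) n o)
      intro a
      obtain ⟨t, ht⟩ := hJ a
      have h1 := hr (J a + q) o
      have h2 : J a + q = q + l * t := by omega
      have h3 : i0 (J a + q) = i0 q := by
        rw [h2]
        exact per_mul T.pi t q
      have h4 : η (J a + q) = η q := by
        rw [h2]
        exact per_mul T.pη t q
      rw [h3, h4] at h1
      exact h1
  obtain ⟨K0, hK0⟩ := hpow s0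
  obtain ⟨c, hc⟩ := sp_pow (Ω := Ω) (σ := Option (Fin (N + 1))) K0
  refine ⟨c, fun Hy J hJ q => ?_⟩
  induction q with
  | zero =>
    rw [Finset.range_zero, Finset.prod_empty, mul_one, pow_zero, one_mul]
    exact hc.mono (hK0 Hy J hJ 0)
  | succ q ih =>
    obtain ⟨K, hK⟩ := hpow ((d : ℝ) * ((d : ℝ) ^ q * s0))
    have h1 := (T.relJ Hy J hJ q).step (T.chJ Hy J hJ q) (T.chJ Hy J hJ (q + 1)) (T.sp q K)
      (hK Hy J hJ (q + 1)) ih
    have e1 : (d : ℝ) ^ (q + 1) * s0 = (d : ℝ) * ((d : ℝ) ^ q * s0) := by ring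
    rw [Finset.prod_range_succ, ← mul_assoc, e1]
    exact h1

end lv

end Pool.Agent.KS6_82.CC
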