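import Mathlib
import Pool.Agent.KS6_82.CC.Lev

/-!
# Linear forms from small colengths
-/

set_option autoImplicit false

namespace Pool.Agent.KS6_82.CC

open Filter Topology MvPolynomial Pool.Agent.R847.SN

/-- a basis adapted to a subspace -/
lemma exists_adapted {Ω : Type} [Field Ω] {n : ℕ} (K : Submodule Ω (Fin n → Ω)) :
    ∃ B : Fin n → Fin n → Ω, (Matrix.of B).det ≠ 0 ∧ ∃ I : Finset (Fin n),
      I.card = Module.finrank Ω K ∧ ∀ a ∈ I, B a ∈ K := by
  classical
  obtain ⟨K', hK'⟩ := Submodule.exists_isCompl K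
  set b := ((Module.finBasis Ω K).prod (Module.finBasis Ω K')).map
    (Submodule.prodEquivOfIsCompl K K' hK') with hb
  have hcard : Fintype.card (Fin (Module.finrank Ω K) ⊕ Fin (Module.finrank Ω K')) =
      Fintype.card (Fin n) := by
    rw [← Module.finrank_eq_card_basis b, Fintype.card_fin, Module.finrank_fin_fun]
  set ε := Fintype.equivOfCardEq hcard with hε
  set b' := b.reindex ε with hb'
  refine ⟨fun a => b' a, ?_, Finset.univ.map
    ⟨fun i => ε (Sum.inl i), ε.injective.comp Sum.inl_injective⟩, ?_, ?_⟩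
  · have h1 : LinearIndependent Ω (Matrix.of fun a => b' a).row := b'.linearIndependent
    rw [Matrix.linearIndependent_rows_iff_isUnit, Matrix.isUnit_iff_isUnit_det] at h1
    exact h1.ne_zero
  · rw [Finset.card_map, Finset.card_univ, Fintype.card_fin]
  · intro a ha
    obtain ⟨i, _, rfl⟩ := Finset.mem_map.1 ha
    show b' (ε (Sum.inl i)) ∈ K
    rw [hb', Module.Basis.reindex_apply, Equiv.symm_apply_apply, hb, Module.Basis.map_apply,
      Module.Basis.prod_apply]
    simp

variable {k : Type} [Field k] {Ω : Type} [NormedField Ω] [Algebra k Ω] {T : Type} {N : ℕ}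
  {F : Filter T} {Λ : T → ℝ} {x : T → Fin (N + 1) → Ω} {i0 : Fin (N + 1)}
  {η : Fin (N + 1) → Ω}

/-- the forms -/
theorem exists_forms (C₁ : Ch F Λ x i0 η) {b : ℕ} {s : ℝ} (hs : 0 ≤ s)
    (hb : Sp Ω b (Idl C₁.hΛ C₁.lim s)) (n D : ℕ) (P : Fin n → MvPolynomial (Fin (N + 1)) k)
    (hP : ∀ e, (P e).totalDegree ≤ D) :
    ∃ B : Fin n → Fin n → Ω, (Matrix.of B).det ≠ 0 ∧ ∃ w : Fin n → ℝ,
      ((n : ℝ) - b) * s ≤ ∑ a, w a ∧ ∀ ε > 0, ∀ᶠ m in F, ∀ a,
        ‖∑ e, B a e * aeval (x m) (P e)‖ ≤ Real.exp ((D - w a + ε) * Λ m) := by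
  classical
  set I := Idl C₁.hΛ C₁.lim s with hI
  obtain ⟨hfd, hrk⟩ := hb.finrank_le
  set Φ : (Fin n → Ω) →ₗ[Ω] (MvPolynomial (Option (Fin (N + 1))) Ω ⧸ I) :=
    Fintype.linearCombination Ω (fun e => Ideal.Quotient.mk I (Hc η D (P e))) with hΦ
  have hΦv : ∀ v, Φ v = Ideal.Quotient.mk I (∑ e, v e • Hc η D (P e)) := by
    intro v
    rw [hΦ, Fintype.linearCombination_apply, map_sum]
    rfl
  obtain ⟨B, hB, J, hJ, hBJ⟩ := exists_adapted (LinearMap.ker Φ)
  have hrn : Module.finrank Ω (LinearMap.range Φ) + Module.finrank Ω (LinearMap.ker Φ) = n := by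
    rw [LinearMap.finrank_range_add_finrank_ker, Module.finrank_fin_fun]
  have hrange : Module.finrank Ω (LinearMap.range Φ) ≤ b :=
    (Submodule.finrank_le _).trans hrk
  refine ⟨B, hB, fun a => if a ∈ J then s else 0, ?_, ?_⟩
  · rw [Finset.sum_ite_mem, Finset.univ_inter, Finset.sum_const, nsmul_eq_mul, hJ]
    apply mul_le_mul_of_nonneg_right _ hs
    have : n ≤ Module.finrank Ω (LinearMap.ker Φ) + b := by omega
    have h2 : (n : ℝ) ≤ (Module.finrank Ω (LinearMap.ker Φ) : ℝ) + b := by exact_mod_cast this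
    linarith
  · intro ε hε
    rw [eventually_all]
    intro a
    have hval : ∀ᶠ m in F, x m i0 ^ D * eval (pt x i0 η m) (∑ e, B a e • Hc η D (P e)) =
        ∑ e, B a e * aeval (x m) (P e) := by
      filter_upwards [C₁.ne] with m hm
      rw [map_sum, Finset.mul_sum]
      refine Finset.sum_congr rfl fun e _ => ?_
      rw [eval_pt_Hc x i0 η m D (P e) (hP e) hm, smul_eval]
      ring
    have hx : Ord F Λ (D * (-1)) (fun m => x m i0 ^ D) := C₁.o2.pow C₁.hΛ D
    have key : ∀ t : ℝ, Ord F Λ t (fun m => eval (pt x i0 η m) (∑ e, B a e • Hc η D (P e))) →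
        ∀ᶠ m in F, ‖∑ e, B a e * aeval (x m) (P e)‖ ≤ Real.exp ((D - t + ε) * Λ m) := by
      intro t ht
      have h1 := (hx.mul ht).congr hval
      filter_upwards [h1 ε hε] with m hm
      refine hm.trans (le_of_eq ?_)
      congr 1
      ring
    by_cases ha : a ∈ J
    · simp only [ha, if_true]
      apply key
      have h1 := hBJ a ha
      rw [LinearMap.mem_ker, hΦv, Ideal.Quotient.eq_zero_iff_mem, hI, mem_Idl] at h1
      exact h1
    · simp only [ha, if_false]
      apply key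
      exact Ord.of_tendsto C₁.hΛ (eval_tendsto C₁.lim _)

end Pool.Agent.KS6_82.CC
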