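import Mathlib
import Pool.Agent.KS6_82.CC.Forms
import Pool.Graph.R_seed8.R847.SB.BddK

/-!
# The subspace theorem along pairs of indices
-/

set_option autoImplicit false

namespace Pool.Agent.KS6_82.CC

open MvPolynomial NumberField IsDedekindDomain Height Module Filter Topology
open Pool.Agent.W180.OP (Pl av wt wt_nonneg nrm le_nrm nrm_pos nrm_le nrm_nonneg exists_nrm)
open Pool.Agent.R847.SN Pool.Agent.R847.SB

variable {k : Type} [Field k] [NumberField k] {N d : ℕ}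
  {f : Fin (N + 1) → MvPolynomial (Fin (N + 1)) k}
  {U : Ultrafilter ℕ} {x : ℕ → Fin (N + 1) → k}

/-- **The subspace theorem along pairs of indices.** -/
theorem contraP (G : Glob d f U x) (hX : ∀ v, LocX (G.loc v)) (hd : 2 ≤ d) (v : G.big) :
    ∃ A : ℝ, 0 < A ∧ ∀ (Hy : Ultrafilter ℕ) (J : ℕ → ℕ) (n0 D : ℕ), 1 ≤ n0 →
      ∀ P : Fin (n0 + 1) → MvPolynomial (Fin (N + 1)) k, (∀ l, (P l).totalDegree ≤ D) →
      (∀ a : Fin (n0 + 1) → k, a ≠ 0 → ∀ᶠ m : ℕ in PF Hy U,
        ∑ l, a l * aeval (x (m.unpair.2 - J m.unpair.1)) (P l) ≠ 0) →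
      ∀ B : Fin (n0 + 1) → Fin (n0 + 1) → AlgebraicClosure k, (Matrix.of B).det ≠ 0 →
      ∀ w : Fin (n0 + 1) → ℝ,
      (∀ᶠ m : ℕ in PF Hy U, ∀ a, G.W v (∑ l, B a l * algebraMap k _
        (aeval (x (m.unpair.2 - J m.unpair.1)) (P l))) ≤
        Real.exp (((D : ℝ) - w a + 1 / 2) * (G.loc v).Λ (J m.unpair.1) m.unpair.2)) →
      ((n0 : ℝ) + 1) * ((D : ℝ) + 1) * A ≤ ∑ a, w a → False := by
  classical
  obtain ⟨A0, hA00, hA0⟩ := scale_cmp G hX hd v
  set R : ℝ := (∑ v' ∈ G.S \ G.big, wt v') / wt (v : Pl k) with hR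
  have hwv : 0 < wt (v : Pl k) := wt_pos _
  have hR0 : 0 ≤ R := div_nonneg (Finset.sum_nonneg fun v' _ => wt_nonneg v') hwv.le
  refine ⟨A0 + R + 1, by positivity, ?_⟩
  intro Hy J n0 D hn0 P hP hind B hB w hC hw
  obtain ⟨s, hs, hsP⟩ := scale_poly P
  set P' : Fin (n0 + 1) → MvPolynomial (Fin (N + 1)) k := fun e => C s * P e with hP'
  have hP'deg : ∀ e, (P' e).totalDegree ≤ D := by
    intro e
    refine (totalDegree_mul _ _).trans ?_
    rw [totalDegree_C, zero_add]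
    exact hP e
  have hval : ∀ n e, aeval (x n) (P' e) = s * aeval (x n) (P e) := by
    intro n e
    rw [hP']
    simp only [map_mul, aeval_C]
    rfl
  have hWav : ∀ v (t : k), G.W v (algebraMap k _ t) = av v t := fun v t => (G.hW v).1 t
  -- the scales at the levels
  set Λ0 : Pl k → ℕ → ℕ → ℝ := fun v' j n =>
    if h : v' ∈ G.big then (G.loc ⟨v', h⟩).Λ j n else (G.loc v).Λ j n with hΛ0
  have hΛ1 : ∀ v' (h : v' ∈ G.big) j n, Λ0 v' j n = (G.loc ⟨v', h⟩).Λ j n :=
    fun v' h j n => dif_pos h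
  have hΛ2 : ∀ v', v' ∉ G.big → ∀ j n, Λ0 v' j n = (G.loc v).Λ j n := fun v' h j n => dif_neg h
  have hΛt : ∀ v' j, Tendsto (Λ0 v' j) U atTop := by
    intro v' j
    by_cases h : v' ∈ G.big
    · exact ((G.loc ⟨v', h⟩).hΛ j).congr fun n => (hΛ1 v' h j n).symm
    · exact ((G.loc v).hΛ j).congr fun n => (hΛ2 v' h j n).symm
  set Λ : Pl k → ℕ → ℝ := fun v' m => Λ0 v' (J m.unpair.1) m.unpair.2 with hΛ
  have hΛv : ∀ m : ℕ, Λ v m = (G.loc v).Λ (J m.unpair.1) m.unpair.2 := fun m =>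
    hΛ1 v v.2 (J m.unpair.1) m.unpair.2
  have hΛt' : ∀ v', Tendsto (Λ v') (PF Hy U) atTop := fun v' =>
    tendsto_lv Hy U J (Λ0 v') _ fun a => hΛt v' _
  have hΛnn : ∀ᶠ m in PF Hy U, ∀ v' ∈ G.S, 0 ≤ Λ v' m := by
    rw [Filter.eventually_all_finset]
    intro v' _
    exact (hΛt' v').eventually_ge_atTop 0
  set BB : Pl k → Fin (n0 + 1) → Fin (n0 + 1) → AlgebraicClosure k := fun v' =>
    if v' = v then B else (1 : Matrix _ _ _) with hBB
  have hBB1 : BB v = B := if_pos rfl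
  have hBB0 : ∀ v' : Pl k, v' ≠ v → BB v' = (1 : Matrix _ _ _) := fun v' h => if_neg h
  set γ : Pl k → Fin (n0 + 1) → ℝ := fun v' a =>
    if v' = v then (D : ℝ) - w a + 1 / 2 else (D : ℝ) + 1 / 2 with hγ
  set Cs : ℝ := max (Real.log (G.W v (algebraMap k _ s))) 0 with hCs
  have hCs0 : 0 ≤ Cs := le_max_right _ _
  -- the values
  have h2 : ∀ v' ∈ G.S, ∀ᶠ m : ℕ in PF Hy U, ∀ e,
      av v' (aeval (x (m.unpair.2 - J m.unpair.1)) (P' e)) ≤
        Real.exp (((D : ℝ) + 1 / 2) * Λ v' m) := by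
    intro v' hv
    apply ev_lv Hy U J (fun j n => ∀ e, av v' (aeval (x (n - j)) (P' e)) ≤
        Real.exp (((D : ℝ) + 1 / 2) * Λ0 v' j n))
    intro a
    rw [eventually_all]
    intro e
    have hbd : ∃ c : ℝ, ∀ᶠ n in U, av v' (aeval (x (n - J a)) (P' e)) ≤
        Real.exp (c + (D : ℝ) * Λ0 v' (J a) n) := by
      by_cases hb : v' ∈ G.big
      · obtain ⟨c1, hc1⟩ := (hX ⟨v', hb⟩).val (J a) D (P' e) (hP'deg e)
        refine ⟨c1, ?_⟩
        filter_upwards [hc1] with n hn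
        rw [hWav] at hn
        rw [hΛ1 v' hb]
        exact hn
      · obtain ⟨c1, hc1⟩ := G.val_bdd v' hv hb (J a) (P' e)
        refine ⟨c1, ?_⟩
        filter_upwards [hc1, (hΛt v' (J a)).eventually_ge_atTop 0] with n hn h0
        refine hn.trans (Real.exp_le_exp.2 ?_)
        have : 0 ≤ (D : ℝ) * Λ0 v' (J a) n := by positivity
        linarith
    obtain ⟨c, hc⟩ := hbd
    filter_upwards [hc, (hΛt v' (J a)).eventually_ge_atTop (2 * c)] with n h1 h3
    refine h1.trans (Real.exp_le_exp.2 ?_)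
    linarith
  -- the forms
  have h1 : ∀ v' ∈ G.S, ∀ᶠ m : ℕ in PF Hy U, ∀ a,
      G.W v' (∑ e, BB v' a e * algebraMap k _
        (aeval (x (m.unpair.2 - J m.unpair.1)) (P' e))) ≤ Real.exp (Cs + γ v' a * Λ v' m) := by
    intro v' hv
    by_cases hvv : v' = v
    · filter_upwards [hC] with m hm a
      have e1 := hm a
      have e2 : ∑ e, BB v' a e * algebraMap k (AlgebraicClosure k)
          (aeval (x (m.unpair.2 - J m.unpair.1)) (P' e)) =
          algebraMap k (AlgebraicClosure k) s *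
            ∑ l, B a l * algebraMap k _ (aeval (x (m.unpair.2 - J m.unpair.1)) (P l)) := by
        rw [Finset.mul_sum]
        refine Finset.sum_congr rfl fun l _ => ?_
        rw [hval, map_mul, hvv, hBB1]
        ring
      have e3 : γ v' a = (D : ℝ) - w a + 1 / 2 := by
        rw [hγ]
        simp only [hvv, if_true]
      have e4 : 0 < G.W v (algebraMap k (AlgebraicClosure k) s) := by
        apply (G.W v).pos
        rw [Ne, map_eq_zero]
        exact hs
      rw [e2, e3, hvv, map_mul, hΛv]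
      have e5 : G.W v (algebraMap k (AlgebraicClosure k) s) ≤ Real.exp Cs := by
        rw [← Real.log_le_iff_le_exp e4]
        exact le_max_left _ _
      rw [Real.exp_add]
      exact mul_le_mul e5 e1 ((G.W v).nonneg _) (Real.exp_pos _).le
    · filter_upwards [h2 v' hv] with m hm a
      have e1 := hm a
      have e2 := hBB0 v' hvv
      have e3 : γ v' a = (D : ℝ) + 1 / 2 := by
        rw [hγ]
        simp only [hvv, if_false]
      rw [e2, e3, Finset.sum_eq_single a]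
      · rw [Matrix.one_apply_eq, one_mul, hWav]
        refine e1.trans (Real.exp_le_exp.2 ?_)
        linarith
      · intro b _ hb
        rw [Matrix.one_apply_ne (Ne.symm hb), zero_mul]
      · intro h
        exact absurd (Finset.mem_univ _) h
  have hvS : (v : Pl k) ∈ G.S := G.hbig v.2
  have hγsum1 : ∑ a, γ v a = ((n0 : ℝ) + 1) * (D + 1 / 2) - ∑ a, w a := by
    have e0 : ∀ a, γ v a = ((D : ℝ) + 1 / 2) - w a := by
      intro a
      rw [hγ]
      simp only [if_true]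
      ring
    simp_rw [e0]
    rw [Finset.sum_sub_distrib, Finset.sum_const, Finset.card_univ, Fintype.card_fin,
      nsmul_eq_mul]
    push_cast
    ring
  have hγsum0 : ∀ v' : Pl k, v' ≠ v → ∑ a, γ v' a = ((n0 : ℝ) + 1) * (D + 1 / 2) := by
    intro v' hv'
    have e0 : ∀ a, γ v' a = (D : ℝ) + 1 / 2 := by
      intro a
      rw [hγ]
      simp only [hv', if_false]
    simp_rw [e0]
    rw [Finset.sum_const, Finset.card_univ, Fintype.card_fin, nsmul_eq_mul]
    push_cast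
    ring
  -- comparison of the scales
  have hcmp : ∀ᶠ m in PF Hy U, ∑ v' ∈ G.S, wt v' * Λ v' m ≤
      (A0 + R) * (wt (v : Pl k) * Λ v m) := by
    apply ev_lv Hy U J (fun j n => ∑ v' ∈ G.S, wt v' * Λ0 v' j n ≤
      (A0 + R) * (wt (v : Pl k) * Λ0 v j n))
    intro a
    filter_upwards [hA0 (J a)] with n hn
    have e1 : ∑ v' ∈ G.S, wt v' * Λ0 v' (J a) n =
        ∑ v' ∈ G.big, wt v' * Λ0 v' (J a) n + ∑ v' ∈ G.S \ G.big, wt v' * Λ0 v' (J a) n := by
      rw [add_comm, Finset.sum_sdiff G.hbig]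
    have e2 : ∑ v' ∈ G.big, wt v' * Λ0 v' (J a) n =
        ∑ v' : G.big, wt (v' : Pl k) * (G.loc v').Λ (J a) n := by
      rw [← Finset.sum_coe_sort]
      refine Finset.sum_congr rfl fun v' _ => ?_
      rw [hΛ1 v' v'.2]
    have e3 : ∑ v' ∈ G.S \ G.big, wt v' * Λ0 v' (J a) n =
        R * (wt (v : Pl k) * (G.loc v).Λ (J a) n) := by
      rw [hR, ← mul_assoc, div_mul_cancel₀ _ hwv.ne', Finset.sum_mul]
      refine Finset.sum_congr rfl fun v' hv' => ?_
      rw [hΛ2 v' (Finset.mem_sdiff.1 hv').2]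
    rw [e1, e2, e3, hΛ1 v v.2, add_mul]
    linarith
  refine sub_globG G.S G.hS G.W (fun v _ => G.hW v) (PF Hy U) n0 hn0
    (fun m e => aeval (x (m.unpair.2 - J m.unpair.1)) (P' e))
    (fun n v hv e => G.out v hv (P' e) (fun m v => hsP e m v) _) Λ ?_ BB ?_
    (fun _ => Cs) ((D : ℝ) + 1 / 2) (by positivity) γ h1 ?_ (1 / 2) (by norm_num) ?_ ?_
  · have h3 : Tendsto (fun n => wt (v : Pl k) * Λ v n) (PF Hy U) atTop :=
      Tendsto.const_mul_atTop hwv (hΛt' v)
    refine tendsto_atTop_mono' _ ?_ h3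
    filter_upwards [hΛnn] with n hn
    exact Finset.single_le_sum (f := fun v => wt v * Λ v n)
      (fun v hv => mul_nonneg (wt_nonneg v) (hn v hv)) hvS
  · intro v' _
    by_cases h : v' = v
    · rw [h, hBB1]
      exact hB
    · rw [hBB0 v' h]
      have : (Matrix.of (1 : Matrix (Fin (n0 + 1)) (Fin (n0 + 1))
          (AlgebraicClosure k))) = 1 := rfl
      rw [this, Matrix.det_one]
      exact one_ne_zero
  · intro v' hv'
    filter_upwards [h2 v' hv'] with n hn a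
    refine (hn a).trans (Real.exp_le_exp.2 ?_)
    linarith
  · filter_upwards [hcmp, hΛnn] with m e1 e2
    have e3 : ∑ v' ∈ G.S, wt v' * ((∑ a, γ v' a) * Λ v' m) =
        ((n0 : ℝ) + 1) * (D + 1 / 2) * ∑ v' ∈ G.S, wt v' * Λ v' m -
          (∑ a, w a) * (wt (v : Pl k) * Λ v m) := by
      rw [← Finset.add_sum_erase _ _ hvS, ← Finset.add_sum_erase (a := (v : Pl k)) G.S
        (fun v' => wt v' * Λ v' m) hvS, hγsum1]
      have e4 : ∑ v' ∈ G.S.erase v, wt v' * ((∑ a, γ v' a) * Λ v' m) =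
          ((n0 : ℝ) + 1) * (D + 1 / 2) * ∑ v' ∈ G.S.erase v, wt v' * Λ v' m := by
        rw [Finset.mul_sum]
        refine Finset.sum_congr rfl fun v' hv' => ?_
        rw [hγsum0 v' (Finset.mem_erase.1 hv').1]
        ring
      rw [e4]
      ring
    rw [e3]
    set T := ∑ v' ∈ G.S, wt v' * Λ v' m with hT
    have hT0 : 0 ≤ T := Finset.sum_nonneg fun v' hv' => mul_nonneg (wt_nonneg v') (e2 v' hv')
    set Q := wt (v : Pl k) * Λ v m with hQ
    have hQ0 : 0 ≤ Q := mul_nonneg (wt_nonneg _) (e2 v hvS)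
    have hn0r : (0 : ℝ) ≤ n0 := Nat.cast_nonneg _
    have hD0 : (0 : ℝ) ≤ D := Nat.cast_nonneg _
    have a1 : ((n0 : ℝ) + 1) * (D + 1) * T ≤ ((n0 : ℝ) + 1) * (D + 1) * ((A0 + R) * Q) :=
      mul_le_mul_of_nonneg_left e1 (by positivity)
    have a2 : ((n0 : ℝ) + 1) * (D + 1) * (A0 + R + 1) * Q ≤ (∑ a, w a) * Q :=
      mul_le_mul_of_nonneg_right hw hQ0
    have a4 : 0 ≤ (n0 : ℝ) * T := mul_nonneg hn0r hT0
    have a5 : 0 ≤ ((n0 : ℝ) + 1) * (D + 1) * Q := by positivity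
    nlinarith
  · intro a ha
    have h3 := hind (fun l => a l * s) (by
      obtain ⟨l, hl⟩ := Function.ne_iff.1 ha
      intro h0
      have := congrFun h0 l
      exact (mul_ne_zero hl hs) this)
    filter_upwards [h3] with n hn h0
    apply hn
    rw [← h0]
    refine Finset.sum_congr rfl fun l _ => ?_
    rw [hval]
    ring

end Pool.Agent.KS6_82.CC
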