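import Mathlib
import Pool.Graph.R_seed8.R847.SB.DataX

/-!
# The global data with the scaled predecessors
-/

set_option autoImplicit false

open MvPolynomial Filter Topology Asymptotics

namespace Pool.Agent.KS6_82.CC

open Pool.Agent.R847.SN Pool.Agent.R847.SB

section loc

variable {k : Type} [Field k] {N d : ℕ} {f : Fin (N + 1) → MvPolynomial (Fin (N + 1)) k}
  {U : Ultrafilter ℕ} {x : ℕ → Fin (N + 1) → k}

/-- the scaled predecessors of the local package -/
structure LocY {d : ℕ} {f : Fin (N + 1) → MvPolynomial (Fin (N + 1)) k} {U : Ultrafilter ℕ}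
    {x : ℕ → Fin (N + 1) → k} {W : AbsoluteValue (AlgebraicClosure k) ℝ}
    (L : Loc d f U x W) : Prop where
  ex : ∃ (s : ℕ → ℕ → AlgebraicClosure k) (z : ℕ → ℕ → Fin (N + 1) → AlgebraicClosure k),
    (∀ j n, L.Λ j n = Real.log (W (s j n))) ∧
    (∀ j, ∀ᶠ n in U, s j n ≠ 0) ∧
    (∀ j, ∀ᶠ n in U, ∀ i, algebraMap k _ (x (n - j) i) = s j n * z j n i) ∧
    (∀ j i, ∀ ε > 0, ∀ᶠ n in U, W (z j n i - L.y j i) < ε) ∧
    ∃ ρ : ℝ, 0 < ρ ∧ ∃ C : ℝ, ∀ i, ∀ᶠ n in U,
      W (z 0 n i - L.y 0 i) ≤ C * Real.exp (-(ρ * L.Λ 0 n))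

/-- the local package at a place where the orbit is unbounded -/
theorem exists_locY [CharZero k] (W : AbsoluteValue (AlgebraicClosure k) ℝ) (d : ℕ) (hd : 2 ≤ d)
    (f : Fin (N + 1) → MvPolynomial (Fin (N + 1)) k)
    (hdeg : ∀ i, (f i).totalDegree ≤ d) (hreg : Reg d f)
    (x : ℕ → Fin (N + 1) → k) (hx : ∀ n i, x (n + 1) i = aeval (x n) (f i))
    (U : Ultrafilter ℕ) (hU : (U : Filter ℕ) ≤ atTop)
    (hbig : ∀ C : ℝ, ∀ᶠ n in U, ∃ i, C ≤ W (algebraMap k _ (x n i)))
    (hpair : ∀ i j, ∃ P : MvPolynomial (Fin 2) k, P ≠ 0 ∧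
      ∀ᶠ n in U, aeval ![x n i, x n j] P = 0) :
    ∃ L : Loc d f U x W, LocX L ∧ LocY L := by
  classical
  let iN : NormedField (AlgebraicClosure k) := W.toNormedField
  have hnorm : ∀ a : AlgebraicClosure k, ‖a‖ = W a := fun a => rfl
  have hbig' : Tendsto (fun n => ‖fun i => algebraMap k (AlgebraicClosure k) (x n i)‖) U
      atTop := by
    rw [tendsto_atTop]
    intro C
    filter_upwards [hbig C] with n hn
    obtain ⟨i, hi⟩ := hn
    rw [← hnorm] at hi
    exact hi.trans (norm_le_pi_norm (fun i => algebraMap k (AlgebraicClosure k) (x n i)) i)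
  obtain ⟨T⟩ := exists_tower (Ω := AlgebraicClosure k) d hd f hdeg hreg x hx U hU hbig' hpair
  refine ⟨⟨T.y, T.hy, T.hy0, T.top, T.coord, fun j n => Real.log ‖T.s j n‖, fun j =>
    Real.tendsto_log_atTop.comp (T.hs j), ?_, ?_⟩, ⟨?_, ?_, ?_, ?_, ?_⟩, ⟨T.s, T.z, ?_, ?_, ?_, ?_,
      ?_⟩⟩
  · intro k1 hdet m
    obtain ⟨K, hK⟩ := sub_place T hd hdeg k1 hdet m
    refine ⟨K, fun j hj P hP => ?_⟩
    obtain ⟨B, hB, C, hC0, hC⟩ := hK j hj P hP
    refine ⟨B, hB, Real.log C, ?_⟩
    filter_upwards [hC, (T.hs j).eventually_gt_atTop 0] with n hn hs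
    have e1 : ∀ a : ℝ, C * ‖T.s j n‖ ^ a = Real.exp (Real.log C + a * Real.log ‖T.s j n‖) := by
      intro a
      rw [Real.exp_add, Real.exp_log hC0, Real.rpow_def_of_pos hs, mul_comm a]
    refine ⟨fun a => ?_, fun e => ?_⟩
    · rw [← e1]
      exact hn.1 a
    · rw [← e1]
      exact hn.2 e
  · intro k1 hdet l τ hτ hyl m
    exact mon_place T hd hdeg k1 hdet l τ hτ hyl m
  · intro j
    exact Tower.log_d T j
  · exact Tower.low T hd hdeg hreg hx hU hbig'
  · exact Tower.upb T hd hdeg hx hU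
  · intro j D P hP
    exact Tower.val_le T j D P hP
  · intro j b ρ hρ hρK
    exact place_main T (by omega) hdeg hreg hpair j b ρ hρ hρK
  · intro j n
    rfl
  · intro j
    exact ((T.hs j).eventually_gt_atTop 0).mono fun n hn => norm_pos_iff.1 hn
  · exact T.hp
  · intro j i ε hε
    have h1 := tendsto_pi_nhds.1 (T.hz j) i
    have h2 := (tendsto_iff_norm_sub_tendsto_zero.1 h1).eventually (gt_mem_nhds hε)
    exact h2
  · obtain ⟨ρ, hρ, h⟩ := T.hrate 0
    choose C hC using fun i => (h i).bound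
    refine ⟨ρ, hρ, ∑ i, |C i|, fun i => ?_⟩
    filter_upwards [hC i, (T.hs 0).eventually_gt_atTop 0] with n hn hs
    have e1 : ‖T.s 0 n‖ ^ (-ρ) = Real.exp (-(ρ * Real.log ‖T.s 0 n‖)) := by
      rw [Real.rpow_def_of_pos hs]
      congr 1
      ring
    rw [e1, Real.norm_of_nonneg (Real.exp_pos _).le] at hn
    have e2 : C i ≤ ∑ i, |C i| := (le_abs_self _).trans
      (Finset.single_le_sum (f := fun i => |C i|) (fun _ _ => abs_nonneg _) (Finset.mem_univ i))
    exact hn.trans (mul_le_mul_of_nonneg_right e2 (Real.exp_pos _).le)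

end loc

section glob

open NumberField IsDedekindDomain Height Module
open Pool.Agent.W180.OP (Pl av wt wt_nonneg nrm le_nrm nrm_pos nrm_le nrm_nonneg exists_nrm
  fv_support_finite)

variable {k : Type} [Field k] [NumberField k] {N d : ℕ}
  {f : Fin (N + 1) → MvPolynomial (Fin (N + 1)) k}
  {U : Ultrafilter ℕ} {x : ℕ → Fin (N + 1) → k}

/-- Existence of the extended global data. -/
theorem exists_globY (hd : 2 ≤ d) (hdeg : ∀ i, (f i).totalDegree ≤ d) (hreg : Reg d f)
    (hx : ∀ n i, x (n + 1) i = aeval (x n) (f i)) (hinj : Function.Injective x)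
    (hU : (U : Filter ℕ) ≤ atTop)
    (hpair : ∀ i j, ∃ P : MvPolynomial (Fin 2) k, P ≠ 0 ∧
      ∀ᶠ n in U, aeval ![x n i, x n j] P = 0) :
    ∃ G : Glob d f U x, (∀ v, LocX (G.loc v)) ∧ ∀ v, LocY (G.loc v) := by
  classical
  obtain ⟨S, hS, hSint⟩ := exists_S ((Finset.univ.biUnion fun i =>
    (f i).support.image fun m => coeff m (f i)) ∪ (Finset.univ.image fun i => x 0 i))
  have hint : ∀ n v, v ∉ S → ∀ i, av v (x n i) ≤ 1 := by
    intro n v hv
    rcases v with w | v
    · exact absurd (hS w) hv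
    · induction n with
      | zero =>
        intro i
        exact hSint _ hv _ (Finset.mem_union_right _ (Finset.mem_image_of_mem _
          (Finset.mem_univ i)))
      | succ n ih =>
        intro i
        rw [hx]
        apply int_eval v (f i) _ (x n) ih
        intro κ
        by_cases hκ : κ ∈ (f i).support
        · exact hSint _ hv _ (Finset.mem_union_left _ (Finset.mem_biUnion.2
            ⟨i, Finset.mem_univ i, Finset.mem_image_of_mem _ hκ⟩))
        · rw [notMem_support_iff.1 hκ, map_zero]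
          exact zero_le_one
  choose W hW using fun v : Pl k => exists_isExt v
  obtain ⟨v0, hv0, hbig0⟩ := exists_big S hS hint hinj hU
  set big : Finset (Pl k) := S.filter fun v => ∀ C : ℝ, ∀ᶠ n in U, ∃ i, C ≤ av v (x n i)
    with hbigdef
  have hloc : ∀ v : big, ∃ L : Loc d f U x (W v), LocX L ∧ LocY L := by
    intro v
    have h1 := (Finset.mem_filter.1 v.2).2
    apply exists_locY (W v) d hd f hdeg hreg x hx U hU _ hpair
    intro C
    filter_upwards [h1 C] with n hn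
    obtain ⟨i, hi⟩ := hn
    refine ⟨i, ?_⟩
    rw [(hW v).1]
    exact hi
  choose L hL hLY using hloc
  refine ⟨⟨S, W, hS, hW, hx, hU, hint, big, Finset.filter_subset _ _, v0,
    Finset.mem_filter.2 ⟨hv0, hbig0⟩, L, ?_⟩, hL, hLY⟩
  intro v hv hv' j
  apply bdd_step (by omega) hdeg hreg hx hU v (W v) (hW v) _ j
  apply uf_not
  intro h
  exact hv' (Finset.mem_filter.2 ⟨hv, h⟩)

end glob

end Pool.Agent.KS6_82.CC
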