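import Mathlib
import Pool.Agent.KS6_82.CC.Cht
import Pool.Graph.R_seed8.R847.SN.Final

/-!
# Comparison of multiplicities
-/

set_option autoImplicit false

namespace Pool.Agent.KS6_82.CC

open MvPolynomial Pool.Agent.R847.SN

section transfer

variable {Ω : Type} [Field Ω] {A B : Type} [CommRing A] [Algebra Ω A] [CommRing B] [Algebra Ω B]

lemma Sp.transfer {c : ℕ} (θ : A →ₐ[Ω] B) {I : Ideal A} {J : Ideal B} (hI : ∀ a ∈ I, θ a ∈ J)
    (hs : ∀ b, ∃ a, b - θ a ∈ J) (h : Sp Ω c I) : Sp Ω c J := by
  obtain ⟨q, hq⟩ := h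
  refine ⟨fun i => θ (q i), fun b => ?_⟩
  obtain ⟨a, ha⟩ := hs b
  obtain ⟨r, hr⟩ := hq a
  refine ⟨r, ?_⟩
  have h1 := hI _ hr
  rw [map_sub, map_sum] at h1
  simp only [map_smul] at h1
  have h2 := add_mem ha h1
  rwa [sub_add_sub_cancel] at h2

end transfer

/-- the ideal of the fibre, with a power of the ideal of the point -/
noncomputable def fI {E : Type} [Field E] {N : ℕ} (F : Fin (N + 1) → MvPolynomial (Fin (N + 1)) E)
    (z : Fin (N + 1) → E) (i : Fin (N + 1)) (K : ℕ) : Ideal (MvPolynomial (Fin (N + 1)) E) :=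
  Ideal.span {X i - C (z i)} ⊔
    Ideal.span (Set.range fun p : Fin (N + 1) × Fin (N + 1) =>
      C (eval z (F p.1)) * F p.2 - C (eval z (F p.2)) * F p.1) ⊔
    (Ideal.span (Set.range fun j => X j - C (z j))) ^ K

lemma fI_map {E E' : Type} [Field E] [Field E'] {N : ℕ} (σ : E →+* E')
    (F : Fin (N + 1) → MvPolynomial (Fin (N + 1)) E) (z : Fin (N + 1) → E) (i : Fin (N + 1))
    (K : ℕ) : (fI F z i K).map (map σ) =
      fI (fun i => map σ (F i)) (fun i => σ (z i)) i K := by
  have hev : ∀ p : MvPolynomial (Fin (N + 1)) E, eval (fun i => σ (z i)) (map σ p) =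
      σ (eval z p) := by
    intro p
    induction p using MvPolynomial.induction_on with
    | C a => rw [map_C, eval_C, eval_C]
    | add p q hp hq => rw [map_add, map_add, map_add, hp, hq, map_add]
    | mul_X p i hp => rw [map_mul, map_mul, map_mul, hp, map_X, eval_X, eval_X, map_mul]
  unfold fI
  rw [Ideal.map_sup, Ideal.map_sup, Ideal.map_pow, Ideal.map_span, Ideal.map_span, Ideal.map_span,
    Set.image_singleton, ← Set.range_comp, ← Set.range_comp]
  congr 1
  · congr 1
    · simp
    · congr 1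
      congr 1
      funext p
      simp only [Function.comp_apply, map_sub, map_mul, map_C, hev]
  · congr 1
    congr 1
    congr 1
    funext j
    simp

lemma sp_point {E : Type} [Field E] {N : ℕ} (z : Fin (N + 1) → E) (K : ℕ) :
    ∃ c : ℕ, Sp E c ((Ideal.span (Set.range fun j => X j - C (z j))) ^ K :
      Ideal (MvPolynomial (Fin (N + 1)) E)) := by
  obtain ⟨c, hc⟩ := sp_pow (Ω := E) (σ := Fin (N + 1)) K
  refine ⟨c, hc.transfer (aeval fun j => X j - C (z j)) (fun a ha => ?_) fun b => ?_⟩
  · have h1 : (idealOfVars (Fin (N + 1)) E).map (aeval fun j => X j - C (z j) :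
        MvPolynomial (Fin (N + 1)) E →ₐ[E] MvPolynomial (Fin (N + 1)) E) ≤
        Ideal.span (Set.range fun j => X j - C (z j)) := by
      rw [idealOfVars, Ideal.map_span, Ideal.span_le]
      rintro _ ⟨_, ⟨o, rfl⟩, rfl⟩
      show aeval _ (X o) ∈ _
      rw [aeval_X]
      exact Ideal.subset_span ⟨o, rfl⟩
    have h2 := Ideal.mem_map_of_mem (aeval fun j => X j - C (z j) :
        MvPolynomial (Fin (N + 1)) E →ₐ[E] MvPolynomial (Fin (N + 1)) E) ha
    rw [Ideal.map_pow] at h2
    exact Ideal.pow_right_mono h1 K h2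
  · refine ⟨aeval (fun j => X j + C (z j)) b, ?_⟩
    have h1 : aeval (fun j => X j - C (z j)) (aeval (fun j => X j + C (z j)) b) = b := by
      have h2 := comp_aeval_apply (fun j => X j + C (z j)) (aeval (fun j => X j - C (z j)) :
        MvPolynomial (Fin (N + 1)) E →ₐ[E] MvPolynomial (Fin (N + 1)) E) b
      rw [h2]
      have h3 : (fun i => aeval (fun j => X j - C (z j)) (X i + C (z i) :
          MvPolynomial (Fin (N + 1)) E)) = (X : Fin (N + 1) → MvPolynomial (Fin (N + 1)) E) := by
        funext i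
        rw [map_add, aeval_X, aeval_C]
        show X i - C (z i) + C (z i) = X i
        ring
      rw [h3, aeval_X_left_apply]
    rw [h1, sub_self]
    exact zero_mem _

lemma fI_fd {E : Type} [Field E] {N : ℕ} (F : Fin (N + 1) → MvPolynomial (Fin (N + 1)) E)
    (z : Fin (N + 1) → E) (i : Fin (N + 1)) (K : ℕ) :
    FiniteDimensional E (MvPolynomial (Fin (N + 1)) E ⧸ fI F z i K) := by
  obtain ⟨c, hc⟩ := sp_point z K
  exact (hc.mono (le_sup_right : _ ≤ fI F z i K)).finrank_le.1

section descend

variable {Ω : Type} [Field Ω] [Algebra Ω ℂ] {ι : Type}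

lemma cmp_mul (φ : Module.Dual Ω ℂ) (h : MvPolynomial ι ℂ) (g : MvPolynomial ι Ω) :
    cmp φ (h * map (algebraMap Ω ℂ) g) = cmp φ h * g := by
  classical
  ext κ
  rw [coeff_cmp, coeff_mul, coeff_mul, map_sum]
  refine Finset.sum_congr rfl fun p _ => ?_
  rw [coeff_cmp, coeff_map, mul_comm, ← Algebra.smul_def, map_smul, smul_eq_mul, mul_comm]

lemma cmp_add (φ : Module.Dual Ω ℂ) (g h : MvPolynomial ι ℂ) :
    cmp φ (g + h) = cmp φ g + cmp φ h := by
  ext κ
  rw [coeff_cmp, coeff_add, coeff_add, coeff_cmp, coeff_cmp, map_add]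

lemma cmp_mem (I : Ideal (MvPolynomial ι Ω)) (φ : Module.Dual Ω ℂ) (P : MvPolynomial ι ℂ)
    (hP : P ∈ I.map (map (algebraMap Ω ℂ))) : cmp φ P ∈ I := by
  have key : ∀ c : MvPolynomial ι ℂ, cmp φ (c * P) ∈ I := by
    change P ∈ Ideal.span _ at hP
    induction hP using Submodule.span_induction with
    | mem x hx =>
      intro c
      obtain ⟨g, hg, rfl⟩ := hx
      show cmp φ (c * map (algebraMap Ω ℂ) g) ∈ I
      rw [cmp_mul]
      exact Ideal.mul_mem_left _ _ hg
    | zero =>
      intro c
      rw [mul_zero]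
      have : cmp φ (0 : MvPolynomial ι ℂ) = 0 := by
        ext κ
        rw [coeff_cmp, coeff_zero, map_zero, coeff_zero]
      rw [this]
      exact zero_mem _
    | add x y _ _ hx hy =>
      intro c
      rw [mul_add, cmp_add]
      exact add_mem (hx c) (hy c)
    | smul a x _ hx =>
      intro c
      rw [smul_eq_mul, ← mul_assoc]
      exact hx _
  have := key 1
  rwa [one_mul] at this

lemma cmp_sum_smul {m : ℕ} (φ : Module.Dual Ω ℂ) (a : Fin m → MvPolynomial ι Ω) (r : Fin m → ℂ) :
    cmp φ (∑ i, r i • map (algebraMap Ω ℂ) (a i)) = ∑ i, φ (r i) • a i := by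
  ext κ
  rw [coeff_cmp, coeff_sum, map_sum, coeff_sum]
  refine Finset.sum_congr rfl fun i _ => ?_
  rw [coeff_smul, coeff_smul, coeff_map, smul_eq_mul, mul_comm, ← Algebra.smul_def, map_smul,
    smul_eq_mul, smul_eq_mul, mul_comm]

/-- multiplicities over a subfield -/
theorem Sp.descend {c : ℕ} (I : Ideal (MvPolynomial ι Ω))
    [FiniteDimensional Ω (MvPolynomial ι Ω ⧸ I)]
    (h : Sp ℂ c (I.map (map (algebraMap Ω ℂ)))) : Sp Ω c I := by
  classical
  apply Sp.of_finrank
  by_contra hlt
  push Not at hlt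
  obtain ⟨hfd, hrk⟩ := h.finrank_le
  set b := Module.finBasis Ω (MvPolynomial ι Ω ⧸ I) with hb
  have hq : ∀ i, ∃ a : MvPolynomial ι Ω, Ideal.Quotient.mk I a = b i :=
    fun i => Ideal.Quotient.mk_surjective _
  choose a ha using hq
  have h1 : ¬ LinearIndependent ℂ (fun i : Fin (Module.finrank Ω (MvPolynomial ι Ω ⧸ I)) =>
      Ideal.Quotient.mk (I.map (map (algebraMap Ω ℂ))) (map (algebraMap Ω ℂ) (a i))) := by
    intro hli
    have h2 := hli.fintype_card_le_finrank
    rw [Fintype.card_fin] at h2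
    omega
  obtain ⟨r, hr, i, hi⟩ := Fintype.not_linearIndependent_iff.1 h1
  obtain ⟨φ, hφ⟩ : ∃ φ : Module.Dual Ω ℂ, φ (r i) ≠ 0 := by
    by_contra hno
    push Not at hno
    exact hi ((Module.forall_dual_apply_eq_zero_iff Ω _).1 hno)
  have h3 : ∑ i, r i • map (algebraMap Ω ℂ) (a i) ∈ I.map (map (algebraMap Ω ℂ)) := by
    rw [← Ideal.Quotient.eq_zero_iff_mem, ← hr, map_sum]
    rfl
  have h4 := cmp_mem I φ _ h3
  rw [cmp_sum_smul, ← Ideal.Quotient.eq_zero_iff_mem, map_sum] at h4
  have h5 : ∑ i, φ (r i) • b i = 0 := by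
    rw [← h4]
    refine Finset.sum_congr rfl fun j _ => ?_
    rw [← ha j]
    rfl
  have h6 := Fintype.linearIndependent_iff.1 b.linearIndependent _ h5 i
  exact hφ h6

end descend

section chart

variable {k : Type} [Field k] {Ω : Type} [NormedField Ω] [Algebra k Ω] {N d : ℕ}
  {f : Fin (N + 1) → MvPolynomial (Fin (N + 1)) k}

lemma Hc_top (η : Fin (N + 1) → Ω) (g : MvPolynomial (Fin (N + 1)) k) :
    Hc η d g - aeval (fun i => X (some i) + C (η i)) (homogeneousComponent d g) ∈
      (Ideal.span {X none} : Ideal (MvPolynomial (Option (Fin (N + 1))) Ω)) := by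
  unfold Hc H
  rw [Finset.sum_range_succ, Nat.sub_self, pow_zero, one_mul, add_sub_cancel_right]
  apply Ideal.sum_mem
  intro j hj
  rw [Finset.mem_range] at hj
  apply Ideal.mul_mem_right
  exact Ideal.pow_mem_of_mem _ (Ideal.mem_span_singleton_self _) _ (by omega)

/-- from the fibre in homogeneous coordinates to the fibre in the chart -/
theorem sp_fib {i0 i0' : Fin (N + 1)} {η η' w : Fin (N + 1) → Ω}
    (hw : ∀ i, w i = w i0' * η' i) (hw0 : w i0' ≠ 0) {c : Ω}
    (hη : ∀ i, aeval η' (homogeneousComponent d (f i)) = c * η i) {e K : ℕ}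
    (h : Sp Ω e (fI (fun i => map (algebraMap k Ω) (homogeneousComponent d (f i))) w i0' K)) :
    Sp Ω e (fib d f i0 i0' η η' ⊔ (idealOfVars (Option (Fin (N + 1))) Ω) ^ K) := by
  classical
  set J := fib d f i0 i0' η η' ⊔ (idealOfVars (Option (Fin (N + 1))) Ω) ^ K with hJ
  set T : Fin (N + 1) → MvPolynomial (Option (Fin (N + 1))) Ω := fun b =>
    aeval (fun i => X (some i) + C (η' i)) (homogeneousComponent d (f b)) with hT
  set θ : MvPolynomial (Fin (N + 1)) Ω →ₐ[Ω] MvPolynomial (Option (Fin (N + 1))) Ω :=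
    aeval (fun j => C (w i0') * (X (some j) + C (η' j))) with hθ
  have hone : η' i0' = 1 := by
    have := hw i0'
    exact (mul_left_cancel₀ hw0 (by rw [mul_one]; exact this)).symm
  have hθX : ∀ j, θ (X j - C (w j)) = C (w i0') * X (some j) := by
    intro j
    rw [hθ, map_sub, aeval_X, aeval_C, MvPolynomial.algebraMap_eq, hw j, C_mul]
    ring
  have hθF : ∀ b, θ (map (algebraMap k Ω) (homogeneousComponent d (f b))) =
      C (w i0') ^ d * T b := by
    intro b
    rw [hθ, aeval_map_algebraMap,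
      aeval_scale _ d (homogeneousComponent_isHomogeneous d (f b))]
  have hev : ∀ b, eval w (map (algebraMap k Ω) (homogeneousComponent d (f b))) =
      w i0' ^ d * (c * η b) := by
    intro b
    rw [← hη, ← aeval_scale _ d (homogeneousComponent_isHomogeneous d (f b)), aeval_def,
      eval₂_eq_eval_map]
    congr 2
    funext i
    exact hw i
  have hX0 : (X none : MvPolynomial (Option (Fin (N + 1))) Ω) ∈ J :=
    Ideal.mem_sup_left (Ideal.mem_sup_left (Ideal.mem_sup_left (Ideal.mem_span_singleton_self _)))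
  have hXi : (X (some i0') : MvPolynomial (Option (Fin (N + 1))) Ω) ∈ J :=
    Ideal.mem_sup_left (Ideal.mem_sup_right (Ideal.mem_span_singleton_self _))
  have hnum : ∀ b, num d f i0 η η' (some b) ∈ J := fun b =>
    Ideal.mem_sup_left (Ideal.mem_sup_left (Ideal.mem_sup_right (Ideal.subset_span ⟨b, rfl⟩)))
  have hTH : ∀ b, Hc η' d (f b) - T b ∈ J := fun b =>
    Ideal.mem_sup_left (Ideal.mem_sup_left (Ideal.mem_sup_left (Hc_top η' (f b))))
  have hTT : ∀ a b, C (η a) * T b - C (η b) * T a ∈ J := by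
    intro a b
    have h1 : C (η a) * T b - C (η b) * T a = C (η a) * num d f i0 η η' (some b) -
        C (η b) * num d f i0 η η' (some a) - C (η a) * (Hc η' d (f b) - T b) +
        C (η b) * (Hc η' d (f a) - T a) := by
      show _ = C (η a) * (Hc η' d (f b) - C (η b) * Hc η' d (f i0)) -
        C (η b) * (Hc η' d (f a) - C (η a) * Hc η' d (f i0)) - C (η a) * (Hc η' d (f b) - T b) +
        C (η b) * (Hc η' d (f a) - T a)
      ring
    rw [h1]
    exact add_mem (sub_mem (sub_mem (Ideal.mul_mem_left _ _ (hnum b))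
      (Ideal.mul_mem_left _ _ (hnum a))) (Ideal.mul_mem_left _ _ (hTH b)))
      (Ideal.mul_mem_left _ _ (hTH a))
  refine Sp.transfer θ (fun a ha => ?_) (fun b => ?_) h
  · have hle : fI (fun i => map (algebraMap k Ω) (homogeneousComponent d (f i))) w i0' K ≤
        J.comap θ := by
      unfold fI
      refine sup_le (sup_le ?_ ?_) ?_
      · rw [Ideal.span_singleton_le_iff_mem, Ideal.mem_comap, hθX]
        exact Ideal.mul_mem_left _ _ hXi
      · rw [Ideal.span_le]
        rintro _ ⟨⟨a, b⟩, rfl⟩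
        show θ (C (eval w (map (algebraMap k Ω) (homogeneousComponent d (f a)))) *
          map (algebraMap k Ω) (homogeneousComponent d (f b)) -
          C (eval w (map (algebraMap k Ω) (homogeneousComponent d (f b)))) *
          map (algebraMap k Ω) (homogeneousComponent d (f a))) ∈ J
        rw [map_sub, map_mul, map_mul, hθF, hθF, hev, hev]
        have hC : ∀ t : Ω, θ (C t) = C t := fun t => by
          rw [hθ, aeval_C, MvPolynomial.algebraMap_eq]
        rw [hC, hC]
        have h1 : C (w i0' ^ d * (c * η a)) * (C (w i0') ^ d * T b) -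
            C (w i0' ^ d * (c * η b)) * (C (w i0') ^ d * T a) =
            C (w i0') ^ d * C (w i0') ^ d * C c * (C (η a) * T b - C (η b) * T a) := by
          simp only [C_mul, C_pow]
          ring
        rw [h1]
        exact Ideal.mul_mem_left _ _ (hTT a b)
      · have h2 : Ideal.span (Set.range fun j => X j - C (w j)) ≤
            (idealOfVars (Option (Fin (N + 1))) Ω).comap θ := by
          rw [Ideal.span_le]
          rintro _ ⟨j, rfl⟩
          show θ (X j - C (w j)) ∈ idealOfVars (Option (Fin (N + 1))) Ω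
          rw [hθX]
          exact Ideal.mul_mem_left _ _ (show (X (some j) :
            MvPolynomial (Option (Fin (N + 1))) Ω) ∈ idealOfVars _ Ω from
              Ideal.subset_span ⟨some j, rfl⟩)
        refine (Ideal.pow_right_mono h2 K).trans ((Ideal.le_comap_pow θ K).trans ?_)
        exact Ideal.comap_mono le_sup_right
    exact hle ha
  · -- surjectivity
    set ω : MvPolynomial (Option (Fin (N + 1))) Ω →ₐ[Ω] MvPolynomial (Fin (N + 1)) Ω :=
      aeval (fun o => o.elim 0 fun j => C (w i0')⁻¹ * X j - C (η' j)) with hω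
    refine ⟨ω b, ?_⟩
    induction b using MvPolynomial.induction_on with
    | C a =>
      rw [hω, aeval_C, MvPolynomial.algebraMap_eq, hθ, aeval_C, MvPolynomial.algebraMap_eq,
        sub_self]
      exact zero_mem _
    | add p q hp hq =>
      rw [map_add, map_add]
      have h1 : p + q - (θ (ω p) + θ (ω q)) = (p - θ (ω p)) + (q - θ (ω q)) := by ring
      rw [h1]
      exact add_mem hp hq
    | mul_X p o hp =>
      rw [map_mul, map_mul]
      have h1 : p * X o - θ (ω p) * θ (ω (X o)) = (p - θ (ω p)) * X o +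
          θ (ω p) * (X o - θ (ω (X o))) := by ring
      rw [h1]
      refine add_mem (Ideal.mul_mem_right _ _ hp) (Ideal.mul_mem_left _ _ ?_)
      cases o with
      | none =>
        rw [hω, aeval_X]
        show X none - θ 0 ∈ J
        rw [map_zero, sub_zero]
        exact hX0
      | some j =>
        rw [hω, aeval_X]
        show X (some j) - θ (C (w i0')⁻¹ * X j - C (η' j)) ∈ J
        have h2 : θ (C (w i0')⁻¹ * X j - C (η' j)) = X (some j) := by
          rw [hθ, map_sub, map_mul, aeval_X, aeval_C, aeval_C, MvPolynomial.algebraMap_eq]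
          have h3 : (C (w i0')⁻¹ : MvPolynomial (Option (Fin (N + 1))) Ω) * C (w i0') = 1 := by
            rw [← C_mul, inv_mul_cancel₀ hw0, C_1]
          linear_combination (X (some j) + C (η' j)) * h3
        rw [h2, sub_self]
        exact zero_mem _

end chart

end Pool.Agent.KS6_82.CC
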