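import Mathlib
import Pool.Agent.KS6_82.CC.GlobY
import Pool.Agent.KS6_82.CC.Forms
import Pool.Agent.KS6_82.CC.Mult
import Pool.Graph.R_seed8.R847.SB.FinX

/-!
# The tower of charts of an orbit
-/

set_option autoImplicit false

namespace Pool.Agent.KS6_82.CC

open Filter Topology MvPolynomial Pool.Agent.R847.SN Pool.Agent.R847.SB

section gen

variable {T : Type} {Ω : Type} [NormedField Ω] {N : ℕ} {F : Filter T} {Λ : T → ℝ} {s : T → Ω}
  {z X' : T → Fin (N + 1) → Ω} {y : Fin (N + 1) → Ω} {i0 : Fin (N + 1)}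

lemma ord_inv_scale (hΛt : Tendsto Λ F atTop) (hΛ : ∀ᶠ m in F, Λ m = Real.log ‖s m‖)
    (hs : ∀ᶠ m in F, s m ≠ 0) : Ord F Λ 1 (fun m => (s m)⁻¹) := by
  apply Ord.of_bound hΛt 1
  intro ε hε
  filter_upwards [hΛ, hs, hΛt.eventually_ge_atTop 0] with m h1 h2 h3
  rw [norm_inv, one_mul]
  have h4 : ‖s m‖ = Real.exp (Λ m) := by
    rw [h1, Real.exp_log (norm_pos_iff.2 h2)]
  rw [h4, ← Real.exp_neg]
  apply Real.exp_le_exp.2
  nlinarith

lemma ord_scale (hΛt : Tendsto Λ F atTop) (hΛ : ∀ᶠ m in F, Λ m = Real.log ‖s m‖)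
    (hs : ∀ᶠ m in F, s m ≠ 0) : Ord F Λ (-1) (fun m => s m) := by
  apply Ord.of_bound hΛt 1
  intro ε hε
  filter_upwards [hΛ, hs, hΛt.eventually_ge_atTop 0] with m h1 h2 h3
  rw [one_mul]
  have h4 : ‖s m‖ = Real.exp (Λ m) := by
    rw [h1, Real.exp_log (norm_pos_iff.2 h2)]
  rw [h4]
  apply Real.exp_le_exp.2
  nlinarith

lemma quot_eq (hs : ∀ᶠ m in F, s m ≠ 0) (hx : ∀ᶠ m in F, ∀ i, X' m i = s m * z m i)
    (i : Fin (N + 1)) : ∀ᶠ m in F, X' m i / X' m i0 = z m i / z m i0 := by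
  filter_upwards [hs, hx] with m h1 h2
  rw [h2, h2, mul_div_mul_left _ _ h1]

lemma ch_of (hΛt : Tendsto Λ F atTop) (hΛ : ∀ᶠ m in F, Λ m = Real.log ‖s m‖)
    (hs : ∀ᶠ m in F, s m ≠ 0) (hx : ∀ᶠ m in F, ∀ i, X' m i = s m * z m i)
    (hz : ∀ i, Tendsto (fun m => z m i) F (𝓝 (y i))) (hi0 : y i0 ≠ 0) :
    Ch F Λ X' i0 (fun i => y i / y i0) := by
  have hz0 := (hz i0).eventually_ne hi0
  have ho1 : Ord F Λ 1 (fun m => (X' m i0)⁻¹) := by
    have h1 := (ord_inv_scale hΛt hΛ hs).mul (Ord.of_tendsto hΛt ((hz i0).inv₀ hi0))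
    rw [add_zero] at h1
    refine h1.congr ?_
    filter_upwards [hx] with m hm
    rw [hm, mul_inv]
  refine ⟨hΛt, div_self hi0, ?_, ho1, ?_, ?_⟩
  · filter_upwards [hs, hx, hz0] with m h1 h2 h3
    rw [h2]
    exact mul_ne_zero h1 h3
  · have h1 := (ord_scale hΛt hΛ hs).mul (Ord.of_tendsto hΛt (hz i0))
    rw [add_zero] at h1
    refine h1.congr ?_
    filter_upwards [hx] with m hm
    rw [hm]
  · rw [tendsto_pi_nhds]
    intro o
    cases o with
    | none =>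
      show Tendsto (fun m => (X' m i0)⁻¹) F (𝓝 0)
      rw [tendsto_zero_iff_norm_tendsto_zero]
      have h1 : Tendsto (fun m => Real.exp (-((1 - 1 / 2) * Λ m))) F (𝓝 0) := by
        apply Real.tendsto_exp_neg_atTop_nhds_zero.comp
        exact hΛt.const_mul_atTop (by norm_num)
      refine squeeze_zero' (Eventually.of_forall fun m => norm_nonneg _)
        (ho1 (1 / 2) (by norm_num)) h1
    | some i =>
      show Tendsto (fun m => X' m i / X' m i0 - y i / y i0) F (𝓝 0)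
      have h1 : Tendsto (fun m => z m i / z m i0 - y i / y i0) F
          (𝓝 (y i / y i0 - y i / y i0)) := ((hz i).div (hz i0) hi0).sub tendsto_const_nhds
      rw [sub_self] at h1
      refine h1.congr' ?_
      filter_upwards [quot_eq (i0 := i0) hs hx i] with m hm
      rw [hm]

lemma rate_of (hΛt : Tendsto Λ F atTop)
    (hs : ∀ᶠ m in F, s m ≠ 0) (hx : ∀ᶠ m in F, ∀ i, X' m i = s m * z m i)
    (hz : ∀ i, Tendsto (fun m => z m i) F (𝓝 (y i))) (hi0 : y i0 ≠ 0) {ρ : ℝ}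
    (hr : ∀ i, Ord F Λ ρ (fun m => z m i - y i)) (i : Fin (N + 1)) :
    Ord F Λ ρ (fun m => X' m i / X' m i0 - y i / y i0) := by
  have h1 : Ord F Λ ρ (fun m => y i0 * (z m i - y i) - y i * (z m i0 - y i0)) := by
    have h2 := (Ord.of_tendsto hΛt (tendsto_const_nhds (x := y i0) (f := F))).mul (hr i)
    have h3 := (Ord.of_tendsto hΛt (tendsto_const_nhds (x := y i) (f := F))).mul (hr i0)
    rw [zero_add] at h2 h3
    exact h2.sub hΛt h3
  have h2 : Tendsto (fun m => z m i0 * y i0) F (𝓝 (y i0 * y i0)) := (hz i0).mul_const _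
  apply Ord.of_mul_unit hΛt (mul_ne_zero hi0 hi0) h2
  refine h1.congr ?_
  filter_upwards [quot_eq (i0 := i0) hs hx i, (hz i0).eventually_ne hi0] with m hm h0
  rw [hm]
  field_simp
  ring

end gen

section tow

variable {k : Type} [Field k] {N d : ℕ} {f : Fin (N + 1) → MvPolynomial (Fin (N + 1)) k}
  {U : Ultrafilter ℕ} {x : ℕ → Fin (N + 1) → k} {W : AbsoluteValue (AlgebraicClosure k) ℝ}

/-- the top forms over the algebraic closure -/
noncomputable def tf (d : ℕ) (f : Fin (N + 1) → MvPolynomial (Fin (N + 1)) k) (E : Type) [Field E]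
    [Algebra k E] : Fin (N + 1) → MvPolynomial (Fin (N + 1)) E :=
  fun i => map (algebraMap k E) (homogeneousComponent d (f i))

/-- **Small linear forms along pairs of indices.** -/
theorem small_forms (L : Loc d f U x W) (hX : LocX L) (hY : LocY L) (hd : 1 ≤ d)
    (hdeg : ∀ i, (f i).totalDegree ≤ d) (hx : ∀ n i, x (n + 1) i = aeval (x n) (f i))
    (hU : (U : Filter ℕ) ≤ atTop) (l : ℕ) (hl : 1 ≤ l) (hPR : ∀ j, PR (L.y (j + l)) (L.y j))
    (e : ℕ → ℕ) (he : ∀ j, e (j + l) = e j) (hprod : ∏ i ∈ Finset.range l, e (i + 1) ≤ d ^ l)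
    (hmult : ∀ j, ∃ w : Fin (N + 1) → AlgebraicClosure k, PR w (L.y (j + 1)) ∧
      ∀ K i, w i ≠ 0 → Sp (AlgebraicClosure k) (e (j + 1))
        (fI (tf d f (AlgebraicClosure k)) w i K)) (s0 : ℝ) (hs0 : 0 ≤ s0) :
    ∃ c : ℕ, ∀ (Hy : Ultrafilter ℕ) (J : ℕ → ℕ), (∀ a, l ∣ J a) → ∀ (q n D : ℕ)
      (P : Fin n → MvPolynomial (Fin (N + 1)) k), (∀ e, (P e).totalDegree ≤ D) →
      ∃ B : Fin n → Fin n → AlgebraicClosure k, (Matrix.of B).det ≠ 0 ∧ ∃ w : Fin n → ℝ,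
        ((n : ℝ) - ((c * ∏ i ∈ Finset.range q, (d * e (i + 1)) : ℕ) : ℝ)) *
          ((d : ℝ) ^ q * s0) ≤ ∑ a, w a ∧
        ∀ᶠ m : ℕ in PF Hy U, ∀ a, W (∑ e, B a e * algebraMap k _
          (aeval (x (m.unpair.2 - (J m.unpair.1 + q))) (P e))) ≤
          Real.exp (((D : ℝ) - w a + 1 / 2) * L.Λ (J m.unpair.1 + q) m.unpair.2) := by
  classical
  obtain ⟨s, z, hsΛ, hsne, hp, hz, ρ, hρ, Cρ, hrate⟩ := hY.ex
  let iN : NormedField (AlgebraicClosure k) := W.toNormedField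
  have hnorm : ∀ a : AlgebraicClosure k, ‖a‖ = W a := fun a => rfl
  -- indices
  have hex : ∀ j, ∃ i, L.y (j % l) i ≠ 0 := fun j => Function.ne_iff.1 (L.hy0 _)
  choose i0' hi0' using fun r => Function.ne_iff.1 (L.hy0 r)
  set i0 : ℕ → Fin (N + 1) := fun j => i0' (j % l) with hi0
  have hPRm : ∀ j, PR (L.y j) (L.y (j % l)) := by
    intro j
    have h1 := PR_mul' L.y l hPR (j / l) (j % l)
    rwa [Nat.mod_add_div] at h1
  have hyi0 : ∀ j, L.y j (i0 j) ≠ 0 := by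
    intro j
    obtain ⟨τ, hτ, h⟩ := hPRm j
    rw [h]
    exact mul_ne_zero hτ (hi0' _)
  set η : ℕ → Fin (N + 1) → AlgebraicClosure k := fun j i => L.y j i / L.y j (i0 j) with hη
  set X' : ℕ → ℕ → Fin (N + 1) → AlgebraicClosure k := fun j n i =>
    algebraMap k _ (x (n - j) i) with hX'
  have hz' : ∀ j i, Tendsto (fun n => z j n i) U (𝓝 (L.y j i)) := by
    intro j i
    rw [tendsto_iff_norm_sub_tendsto_zero]
    rw [Metric.tendsto_nhds]
    intro ε hε
    filter_upwards [hz j i ε hε] with n hn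
    rw [Real.dist_eq, sub_zero, abs_of_nonneg (norm_nonneg _)]
    exact hn
  have hch : ∀ j, Ch U (L.Λ j) (X' j) (i0 j) (η j) := fun j =>
    ch_of (L.hΛ j) (Eventually.of_forall fun n => hsΛ j n) (hsne j) (hp j) (hz' j) (hyi0 j)
  have hpi : ∀ j, i0 (j + l) = i0 j := by
    intro j
    rw [hi0]
    simp only [Nat.add_mod_right]
  have hη1 : ∀ j, ∃ c : AlgebraicClosure k, c ≠ 0 ∧
      ∀ i, aeval (η (j + 1)) (homogeneousComponent d (f i)) = c * η j i := by
    intro j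
    refine ⟨L.y j (i0 j) / L.y (j + 1) (i0 (j + 1)) ^ d,
      div_ne_zero (hyi0 j) (pow_ne_zero _ (hyi0 _)), fun i => ?_⟩
    have h1 : η (j + 1) = fun i => (L.y (j + 1) (i0 (j + 1)))⁻¹ * L.y (j + 1) i := by
      funext i
      rw [hη]
      simp only
      rw [div_eq_inv_mul]
    rw [h1, aeval_scale _ d (homogeneousComponent_isHomogeneous d (f i)), L.hy]
    have h2 := hyi0 j
    have h3 := hyi0 (j + 1)
    rw [hη, inv_pow]
    simp only
    field_simp
  have hT : Tow (Ω := AlgebraicClosure k) d l f U L.Λ X' i0 η e := by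
    refine ⟨hl, hd, hch, fun j => ⟨hd, hdeg, hX.Λd j, ?_, hη1 j⟩, fun j K => ?_, hpi, fun j => ?_,
      he, hprod, ρ, hρ, ?_⟩
    · have h0 : ∀ᶠ n in U, j + 1 ≤ n := hU (eventually_ge_atTop (j + 1))
      filter_upwards [h0] with n hn i
      rw [hX']
      simp only
      rw [← map_aevalk, ← hx]
      congr 3
      omega
    · obtain ⟨c, hc, hηj⟩ := hη1 j
      obtain ⟨w, ⟨τ, hτ, hw⟩, hsp⟩ := hmult j
      have h3 := hyi0 (j + 1)
      have hwne : w (i0 (j + 1)) ≠ 0 := by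
        rw [hw]
        exact mul_ne_zero hτ h3
      refine sp_fib (w := w) (fun i => ?_) hwne hηj (hsp K _ hwne)
      rw [hη, hw i, hw (i0 (j + 1))]
      simp only
      field_simp
    · funext i
      rw [hη]
      simp only
      rw [hpi]
      obtain ⟨τ, hτ, h⟩ := hPR j
      rw [h, h, mul_div_mul_left _ _ hτ]
    · intro i
      refine rate_of (L.hΛ 0) (hsne 0) (hp 0) (hz' 0) (hyi0 0) (fun i => ?_) i
      apply Ord.of_bound (L.hΛ 0) |Cρ|
      intro ε hε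
      filter_upwards [hrate i, (L.hΛ 0).eventually_ge_atTop 0] with n h1 h2
      rw [hnorm]
      refine h1.trans (mul_le_mul (le_abs_self _) (Real.exp_le_exp.2 ?_) (Real.exp_pos _).le
        (abs_nonneg _))
      nlinarith
  obtain ⟨c, hc⟩ := hT.grow s0
  refine ⟨c, fun Hy J hJ q n D P hP => ?_⟩
  obtain ⟨B, hB, w, hw, hbd⟩ := exists_forms (hT.chJ Hy J hJ q) (b := c * ∏ i ∈ Finset.range q,
    (d * e (i + 1))) (s := (d : ℝ) ^ q * s0) (by positivity) (hc Hy J hJ q) n D P hP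
  refine ⟨B, hB, w, hw, ?_⟩
  filter_upwards [hbd (1 / 2) (by norm_num)] with m hm a
  have h1 := hm a
  rw [hnorm] at h1
  refine le_trans (le_of_eq ?_) h1
  congr 1
  refine Finset.sum_congr rfl fun e _ => ?_
  rw [map_aevalk]

end tow

end Pool.Agent.KS6_82.CC
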