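import Mathlib
import Pool.Agent.KS6_82.CC.Tw
import Pool.Agent.KS6_82.CC.Sch

/-!
# The equations of the predecessors repeat
-/

set_option autoImplicit false

namespace Pool.Agent.KS6_82.CC

open Filter Topology MvPolynomial Pool.Agent.R847.SN Pool.Agent.R847.SB

lemma prod_per {g : ℕ → ℕ} {l : ℕ} (h : ∀ j, g (j + l) = g j) (p : ℕ) :
    ∏ i ∈ Finset.range (l * p), g i = (∏ i ∈ Finset.range l, g i) ^ p := by
  induction p with
  | zero => simp
  | succ p ih =>
    rw [mul_add, mul_one, Finset.prod_range_add, ih, pow_succ]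
    congr 1
    refine Finset.prod_congr rfl fun i _ => ?_
    rw [add_comm]
    exact per_mul h p i

lemma exists_p (c b B : ℕ) (hB : b < B) : ∃ p : ℕ, 1 ≤ p ∧ 2 * (c * b ^ p) ≤ B ^ p := by
  have hB0 : (0 : ℝ) < B := by
    have : 0 < B := by omega
    exact_mod_cast this
  have h1 : (b : ℝ) / B < 1 := by
    rw [div_lt_one hB0]
    exact_mod_cast hB
  obtain ⟨p, hp⟩ := exists_pow_lt_of_lt_one (show (0 : ℝ) < 1 / (2 * c + 1) by positivity) h1
  rw [div_pow, div_lt_div_iff₀ (by positivity) (by positivity), one_mul] at hp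
  have h2 : b ^ p * (2 * c + 1) < B ^ p := by exact_mod_cast hp
  have h5 : b ^ p * (2 * c + 1) = 2 * (c * b ^ p) + b ^ p := by ring
  rw [h5] at h2
  refine ⟨p, ?_, by omega⟩
  by_contra h3
  have h4 : p = 0 := by omega
  subst h4
  rw [pow_zero, pow_zero] at h2
  omega

section ideals

variable {k : Type} [Field k] {N d : ℕ} {f : Fin (N + 1) → MvPolynomial (Fin (N + 1)) k}
  {U : Ultrafilter ℕ} {x : ℕ → Fin (N + 1) → k}

/-- the equations of the generic predecessors in a residue class -/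
def Pgen (Hy U : Ultrafilter ℕ) (x : ℕ → Fin (N + 1) → k) (l : ℕ) :
    Ideal (MvPolynomial (Fin (N + 1)) k) where
  carrier := {g | ∀ᶠ a in Hy, g ∈ Pid U x (a * l)}
  add_mem' := by
    intro a b ha hb
    filter_upwards [ha, hb] with n h1 h2
    exact add_mem h1 h2
  zero_mem' := Eventually.of_forall fun n => zero_mem _
  smul_mem' := by
    intro c g hg
    filter_upwards [hg] with n h1
    exact Ideal.mul_mem_left _ _ h1

lemma mem_Pgen (Hy : Ultrafilter ℕ) (l : ℕ) (g : MvPolynomial (Fin (N + 1)) k) :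
    g ∈ Pgen Hy U x l ↔ ∀ᶠ a in Hy, g ∈ Pid U x (a * l) := Iff.rfl

/-- powers of `g` with coefficients polynomials in one coordinate -/
lemma elimg (p q : Ideal (MvPolynomial (Fin (N + 1)) k)) (i : Fin (N + 1))
    (hi : ∀ r : Polynomial k, Polynomial.aeval (X i : MvPolynomial (Fin (N + 1)) k) r ∈ q → r = 0)
    (g : MvPolynomial (Fin (N + 1)) k) (hg : g ∈ q)
    (hcancel : ∀ h, g * h ∈ p → h ∈ p) (hle : p ≤ q) (n : ℕ) :
    ∀ r : ℕ → Polynomial k, ∑ b ∈ Finset.range n,
      Polynomial.aeval (X i : MvPolynomial (Fin (N + 1)) k) (r b) * g ^ b ∈ p →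
      ∀ b < n, r b = 0 := by
  induction n with
  | zero =>
    intro r _ b hb
    omega
  | succ n ih =>
    intro r hr b hb
    rw [Finset.sum_range_succ'] at hr
    rw [pow_zero, mul_one] at hr
    have h1 : ∑ b ∈ Finset.range n, Polynomial.aeval (X i : MvPolynomial (Fin (N + 1)) k)
        (r (b + 1)) * g ^ (b + 1) = g * ∑ b ∈ Finset.range n,
        Polynomial.aeval (X i : MvPolynomial (Fin (N + 1)) k) (r (b + 1)) * g ^ b := by
      rw [Finset.mul_sum]
      refine Finset.sum_congr rfl fun b _ => ?_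
      ring
    rw [h1] at hr
    have h0 : r 0 = 0 := by
      apply hi
      have h2 := hle hr
      exact (Ideal.add_mem_iff_right _ (Ideal.mul_mem_right _ _ hg)).1 h2
    rw [h0, map_zero, add_zero] at hr
    have h3 := ih (fun b => r (b + 1)) (hcancel _ hr)
    rcases Nat.eq_zero_or_pos b with rfl | hb'
    · exact h0
    · have h4 := h3 (b - 1) (by omega)
      rwa [Nat.sub_add_cancel hb'] at h4

/-- Two indices with the same equations. -/
theorem exists_eq (Hy : Ultrafilter ℕ) (hHy : (Hy : Filter ℕ) ≤ atTop) (l : ℕ) (hl : 1 ≤ l)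
    (hcoord : ∀ j, ∃ i, Coord U x j i)
    (hrel : ∀ (g : MvPolynomial (Fin (N + 1)) k) (i : Fin (N + 1)), ∃ (M : ℕ)
      (c : Fin M × Fin M → k), c ≠ 0 ∧
      ∑ p, C (c p) * (X i ^ (p.2 : ℕ) * g ^ (p.1 : ℕ)) ∈ Pgen Hy U x l) :
    ∃ c L : ℕ, 1 ≤ L ∧ Pid U x (c + L) = Pid U x c := by
  classical
  obtain ⟨s, hs⟩ := (isNoetherian_def.1 (inferInstance :
    IsNoetherian (MvPolynomial (Fin (N + 1)) k) (MvPolynomial (Fin (N + 1)) k))) (Pgen Hy U x l)
  have hev : ∀ᶠ a in Hy, ∀ g ∈ s, g ∈ Pid U x (a * l) := by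
    rw [Filter.eventually_all_finset]
    intro g hg
    have h1 : g ∈ Pgen Hy U x l := by
      rw [← hs]
      exact Submodule.subset_span hg
    exact h1
  have hle : ∀ᶠ a in Hy, Pgen Hy U x l ≤ Pid U x (a * l) := by
    filter_upwards [hev] with a ha
    rw [← hs]
    exact Submodule.span_le.2 ha
  have hcancel : ∀ g, g ∉ Pgen Hy U x l → ∀ h, g * h ∈ Pgen Hy U x l → h ∈ Pgen Hy U x l := by
    intro g hg h hgh
    rw [mem_Pgen] at hg hgh ⊢
    have h1 : ∀ᶠ a in Hy, ¬ g ∈ Pid U x (a * l) := Ultrafilter.eventually_not.2 hg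
    filter_upwards [h1, hgh] with a h2 h3
    exact Pid_prime _ _ _ h3 h2
  have heq : ∀ᶠ a in Hy, Pid U x (a * l) = Pgen Hy U x l := by
    filter_upwards [hle] with a ha
    refine le_antisymm (fun g hg => ?_) ha
    by_contra hgn
    obtain ⟨i, hi⟩ := hcoord (a * l)
    obtain ⟨M, c, hc, hR⟩ := hrel g i
    set r : ℕ → Polynomial k := fun b => if hb : b < M then
      ∑ a : Fin M, Polynomial.C (c (⟨b, hb⟩, a)) * Polynomial.X ^ (a : ℕ) else 0 with hr
    have hReq : ∑ p, C (c p) * (X i ^ (p.2 : ℕ) * g ^ (p.1 : ℕ)) = ∑ b ∈ Finset.range M,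
        Polynomial.aeval (X i : MvPolynomial (Fin (N + 1)) k) (r b) * g ^ b := by
      rw [Fintype.sum_prod_type, ← Fin.sum_univ_eq_sum_range
        (fun b => Polynomial.aeval (X i : MvPolynomial (Fin (N + 1)) k) (r b) * g ^ b)]
      refine Finset.sum_congr rfl fun b _ => ?_
      rw [hr]
      simp only [b.2, dif_pos, Fin.eta, map_sum, map_mul, Polynomial.aeval_C, map_pow,
        Polynomial.aeval_X]
      rw [Finset.sum_mul]
      refine Finset.sum_congr rfl fun a _ => ?_
      rw [mul_assoc]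
      rfl
    rw [hReq] at hR
    have hall := elimg (Pgen Hy U x l) (Pid U x (a * l)) i (fun r hr => hi.mem r hr) g hg
      (hcancel g hgn) ha M r hR
    apply hc
    funext t
    have h1 := hall t.1 t.1.2
    rw [hr] at h1
    simp only [t.1.2, dif_pos, Fin.eta] at h1
    have h2 := congrArg (fun p => Polynomial.coeff p (t.2 : ℕ)) h1
    simp only [Polynomial.finsetSum_coeff, Polynomial.coeff_C_mul, Polynomial.coeff_X_pow,
      Polynomial.coeff_zero] at h2
    rw [Finset.sum_eq_single t.2] at h2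
    · rw [if_pos rfl, mul_one] at h2
      exact h2
    · intro a _ ha
      rw [if_neg, mul_zero]
      intro h
      exact ha (Fin.ext h.symm)
    · intro h
      exact absurd (Finset.mem_univ _) h
  obtain ⟨a, ha⟩ := heq.exists
  obtain ⟨a', ha', ha''⟩ := (heq.and (hHy (eventually_gt_atTop a))).exists
  refine ⟨a * l, (a' - a) * l, ?_, ?_⟩
  · exact Nat.mul_pos (by omega) hl
  · rw [← add_mul, ha]
    have : a + (a' - a) = a' := by omega
    rw [this, ha']

/-- Returns from the repetition of the equations. -/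
theorem returns (hx : ∀ n i, x (n + 1) i = aeval (x n) (f i)) (hU : (U : Filter ℕ) ≤ atTop)
    (c L : ℕ) (hcL : Pid U x (c + L) = Pid U x c) :
    ∀ᶠ n in U, ∀ t, ∀ h : MvPolynomial (Fin (N + 1)) k,
      (∀ᶠ n' in U, aeval (x n') h = 0) → aeval (x (n + L * t)) h = 0 := by
  classical
  -- invariance
  have hinv : ∀ g ∈ Pid U x c, (bind₁ f)^[L] g ∈ Pid U x c := by
    intro g hg
    rw [← hcL]
    exact comps_mem hx hU c L g hg
  have hcomp : ∀ (t m : ℕ) (g : MvPolynomial (Fin (N + 1)) k),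
      aeval (x m) ((bind₁ f)^[t] g) = aeval (x (m + t)) g := by
    intro t
    induction t with
    | zero => intro m g; rfl
    | succ t ih =>
      intro m g
      rw [Function.iterate_succ_apply', aeval_bind₁]
      have h1 : (fun i => aeval (x m) (f i)) = x (m + 1) := by
        funext i
        exact (hx m i).symm
      rw [h1, ih]
      congr 2
      ring_nf
  obtain ⟨s, hs⟩ := (isNoetherian_def.1 (inferInstance :
    IsNoetherian (MvPolynomial (Fin (N + 1)) k) (MvPolynomial (Fin (N + 1)) k))) (Pid U x c)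
  have hev : ∀ᶠ n in U, ∀ g ∈ s, aeval (x (n - c)) g = 0 := by
    rw [Filter.eventually_all_finset]
    intro g hg
    have h1 : g ∈ Pid U x c := by
      rw [← hs]
      exact Submodule.subset_span hg
    exact h1
  have hge : ∀ᶠ n in U, c ≤ n := hU (eventually_ge_atTop c)
  filter_upwards [hev, hge] with n h1 h2
  have h3 : ∀ g ∈ Pid U x c, aeval (x (n - c)) g = 0 := by
    intro g hg
    have h4 : Pid U x c ≤ RingHom.ker (aeval (x (n - c)) : MvPolynomial (Fin (N + 1)) k →ₐ[k] k) := by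
      rw [← hs]
      apply Submodule.span_le.2
      intro g hg
      rw [SetLike.mem_coe, RingHom.mem_ker]
      exact h1 g hg
    exact (RingHom.mem_ker).1 (h4 hg)
  have h4 : ∀ t, ∀ g ∈ Pid U x c, aeval (x (n - c + L * t)) g = 0 := by
    intro t
    induction t with
    | zero => exact h3
    | succ t ih =>
      intro g hg
      have h5 := ih _ (hinv g hg)
      rw [hcomp] at h5
      have e1 : n - c + L * (t + 1) = n - c + L * t + L := by ring
      rw [e1, h5]
  intro t h hh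
  have h5 : h ∈ Pid U x 0 := by
    rw [mem_Pid]
    exact hh
  have h6 := comps_mem hx hU 0 c h h5
  rw [zero_add] at h6
  have h7 := h4 t _ h6
  rw [hcomp] at h7
  have e1 : n + L * t = n - c + L * t + c := by
    generalize L * t = w
    omega
  rw [e1, h7]

end ideals

section main

variable {k : Type} [Field k] [NumberField k] {N d : ℕ}
  {f : Fin (N + 1) → MvPolynomial (Fin (N + 1)) k}
  {U : Ultrafilter ℕ} {x : ℕ → Fin (N + 1) → k}

/-- the relations -/
theorem exists_rel (G : Glob d f U x) (hX : ∀ v, LocX (G.loc v)) (hY : ∀ v, LocY (G.loc v))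
    (hd : 2 ≤ d) (hdeg : ∀ i, (f i).totalDegree ≤ d) (v : G.big)
    (l : ℕ) (hl : 1 ≤ l) (hPR : ∀ j, PR ((G.loc v).y (j + l)) ((G.loc v).y j))
    (e : ℕ → ℕ) (he : ∀ j, e (j + l) = e j) (hprod : ∏ i ∈ Finset.range l, e (i + 1) < d ^ l)
    (hmult : ∀ j, ∃ w : Fin (N + 1) → AlgebraicClosure k, PR w ((G.loc v).y (j + 1)) ∧
      ∀ K i, w i ≠ 0 → Sp (AlgebraicClosure k) (e (j + 1))
        (fI (tf d f (AlgebraicClosure k)) w i K))
    (Hy : Ultrafilter ℕ) (hHy : (Hy : Filter ℕ) ≤ atTop)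
    (g : MvPolynomial (Fin (N + 1)) k) (i : Fin (N + 1)) : ∃ (M : ℕ)
      (c : Fin M × Fin M → k), c ≠ 0 ∧
      ∑ p, C (c p) * (X i ^ (p.2 : ℕ) * g ^ (p.1 : ℕ)) ∈ Pgen Hy U x l := by
  classical
  obtain ⟨A, hA, hcon⟩ := contraP G hX hd v
  set E := g.totalDegree with hE
  set s0 : ℝ := 2 * ((2 + E : ℕ) : ℝ) * A with hs0
  obtain ⟨C0, hC0⟩ := small_forms (G.loc v) (hX v) (hY v) (by omega) hdeg G.hx G.hU l hl hPR e he
    hprod.le hmult s0 (by positivity)
  set b := ∏ i ∈ Finset.range l, (d * e (i + 1)) with hb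
  have hbB : b < d ^ l * d ^ l := by
    rw [hb, Finset.prod_mul_distrib, Finset.prod_const, Finset.card_range]
    exact Nat.mul_lt_mul_of_pos_left hprod (pow_pos (by omega) _)
  obtain ⟨p, hp1, hp⟩ := exists_p C0 b (d ^ l * d ^ l) hbB
  set M := d ^ (l * p) with hM
  have hMM : (d ^ l * d ^ l) ^ p = M * M := by
    rw [hM, mul_pow, ← pow_mul]
  rw [hMM] at hp
  have hM2 : 2 ≤ M := by
    calc 2 ≤ d ^ 1 := by rw [pow_one]; exact hd
      _ ≤ d ^ (l * p) := Nat.pow_le_pow_right (by omega) (Nat.mul_pos hl hp1)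
  obtain ⟨n0, hn0⟩ : ∃ n0, M * M = n0 + 1 := ⟨M * M - 1, by
    have : 0 < M * M := by positivity
    omega⟩
  have hn01 : 1 ≤ n0 := by nlinarith
  -- the family of polynomials
  set ε : Fin (n0 + 1) ≃ Fin M × Fin M := (finCongr hn0.symm).trans finProdFinEquiv.symm with hε
  set P : Fin (n0 + 1) → MvPolynomial (Fin (N + 1)) k := fun t =>
    X i ^ ((ε t).2 : ℕ) * g ^ ((ε t).1 : ℕ) with hP
  set D := M * (1 + E) with hD
  have hPdeg : ∀ t, (P t).totalDegree ≤ D := by
    intro t
    refine (totalDegree_mul _ _).trans ?_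
    have h1 : (X i ^ ((ε t).2 : ℕ) : MvPolynomial (Fin (N + 1)) k).totalDegree ≤ M := by
      rw [totalDegree_X_pow]
      exact (ε t).2.2.le
    have h2 : (g ^ ((ε t).1 : ℕ)).totalDegree ≤ M * E := by
      refine (totalDegree_pow _ _).trans ?_
      exact Nat.mul_le_mul_right _ (ε t).1.2.le
    rw [hD, mul_add, mul_one]
    exact add_le_add h1 h2
  -- the levels
  set J : ℕ → ℕ := fun a => (a - p) * l with hJ
  have hJl : ∀ a, l ∣ J a := fun a => Dvd.intro_left _ rfl
  have hper : ∏ i ∈ Finset.range (l * p), (d * e (i + 1)) = b ^ p := by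
    rw [hb]
    exact prod_per (g := fun i => d * e (i + 1)) (fun j => by
      have := he (j + 1)
      show d * e (j + l + 1) = d * e (j + 1)
      rw [← this]
      congr 2
      omega) p
  obtain ⟨B, hB, w, hw, hbd⟩ := hC0 Hy J hJl (l * p) (n0 + 1) D P hPdeg
  rw [hper] at hw
  by_contra hno
  push Not at hno
  refine hcon Hy (fun a => J a + l * p) n0 D hn01 P hPdeg ?_ B hB w hbd ?_
  · -- independence
    intro a ha
    have h1 := hno M (fun p => a (ε.symm p)) (by
      obtain ⟨t, ht⟩ := Function.ne_iff.1 ha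
      intro h0
      have h2 := congrFun h0 (ε t)
      simp only [Equiv.symm_apply_apply, Pi.zero_apply] at h2
      exact ht h2)
    have h2 : ∑ q, C (a (ε.symm q)) * (X i ^ (q.2 : ℕ) * g ^ (q.1 : ℕ)) =
        ∑ t, C (a t) * P t := by
      rw [← Equiv.sum_comp ε]
      refine Finset.sum_congr rfl fun t _ => ?_
      rw [Equiv.symm_apply_apply]
    rw [h2, mem_Pgen] at h1
    rw [ev_PF]
    have h3 : ∀ᶠ a' in Hy, ¬ (∑ t, C (a t) * P t) ∈ Pid U x (a' * l) :=
      Ultrafilter.eventually_not.2 h1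
    filter_upwards [h3, hHy (eventually_ge_atTop p)] with a' h4 h5
    rw [mem_Pid] at h4
    have h6 : ∀ᶠ n in U, ¬ aeval (x (n - a' * l)) (∑ t, C (a t) * P t) = 0 :=
      Ultrafilter.eventually_not.2 h4
    filter_upwards [h6] with n h7 h8
    apply h7
    rw [Nat.unpair_pair] at h8
    have h9 : J a' + l * p = a' * l := by
      rw [hJ]
      simp only
      rw [mul_comm l p, ← add_mul]
      congr 1
      omega
    simp only [h9] at h8
    rw [map_sum, ← h8]
    refine Finset.sum_congr rfl fun t _ => ?_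
    rw [map_mul, aeval_C]
    rfl
  · -- the exponents
    refine le_trans ?_ hw
    have e1 : ((n0 + 1 : ℕ) : ℝ) = (M : ℝ) * M := by
      rw [← hn0]
      push_cast
      ring
    have e2 : ((n0 : ℝ) + 1) = (M : ℝ) * M := by
      rw [← e1]
      push_cast
      ring
    have e3 : 2 * ((C0 * b ^ p : ℕ) : ℝ) ≤ (M : ℝ) * M := by exact_mod_cast hp
    have e4 : (d : ℝ) ^ (l * p) = M := by
      rw [hM]
      push_cast
      ring
    have e5 : (D : ℝ) + 1 ≤ M * ((2 + E : ℕ) : ℝ) := by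
      have : D + 1 ≤ M * (2 + E) := by
        rw [hD]
        nlinarith
      exact_mod_cast this
    rw [e1, e2, e4, hs0]
    have hM0 : (0 : ℝ) ≤ M := Nat.cast_nonneg _
    have hE0 : (0 : ℝ) ≤ ((2 + E : ℕ) : ℝ) := Nat.cast_nonneg _
    have h1 : (M : ℝ) * M * ((D : ℝ) + 1) * A ≤ (M : ℝ) * M * (M * ((2 + E : ℕ) : ℝ)) * A := by
      apply mul_le_mul_of_nonneg_right _ hA.le
      exact mul_le_mul_of_nonneg_left e5 (by positivity)
    have h2 : (M : ℝ) * M / 2 * ((M : ℝ) * (2 * ((2 + E : ℕ) : ℝ) * A)) ≤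
        ((M : ℝ) * M - ((C0 * b ^ p : ℕ) : ℝ)) * ((M : ℝ) * (2 * ((2 + E : ℕ) : ℝ) * A)) := by
      apply mul_le_mul_of_nonneg_right _ (by positivity)
      linarith
    refine h1.trans (le_trans (le_of_eq ?_) h2)
    ring

/-- Almost all return points have a fixed arithmetic progression of returns. -/
theorem fin_crit (G : Glob d f U x) (hX : ∀ v, LocX (G.loc v)) (hY : ∀ v, LocY (G.loc v))
    (hd : 2 ≤ d) (hdeg : ∀ i, (f i).totalDegree ≤ d) (v : G.big)
    (l : ℕ) (hl : 1 ≤ l) (hPR : ∀ j, PR ((G.loc v).y (j + l)) ((G.loc v).y j))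
    (e : ℕ → ℕ) (he : ∀ j, e (j + l) = e j) (hprod : ∏ i ∈ Finset.range l, e (i + 1) < d ^ l)
    (hmult : ∀ j, ∃ w : Fin (N + 1) → AlgebraicClosure k, PR w ((G.loc v).y (j + 1)) ∧
      ∀ K i, w i ≠ 0 → Sp (AlgebraicClosure k) (e (j + 1))
        (fI (tf d f (AlgebraicClosure k)) w i K)) :
    ∃ L ≥ 1, ∀ᶠ n in U, ∀ t, ∀ h : MvPolynomial (Fin (N + 1)) k,
      (∀ᶠ n' in U, aeval (x n') h = 0) → aeval (x (n + L * t)) h = 0 := by
  have hHy : ((hyperfilter ℕ : Ultrafilter ℕ) : Filter ℕ) ≤ atTop := by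
    rw [← Nat.cofinite_eq_atTop]
    exact hyperfilter_le_cofinite
  have hcoord : ∀ j, ∃ i, Coord U x j i := by
    intro j
    obtain ⟨i, hi⟩ := Function.ne_iff.1 ((G.loc v).hy0 j)
    exact ⟨i, (G.loc v).coord j i hi⟩
  obtain ⟨c, L, hL, hcL⟩ := exists_eq (hyperfilter ℕ) hHy l hl hcoord
    (exists_rel G hX hY hd hdeg v l hl hPR e he hprod hmult (hyperfilter ℕ) hHy)
  exact ⟨L, hL, returns G.hx G.hU c L hcL⟩

end main

end Pool.Agent.KS6_82.CC
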