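import Mathlib

/-!
# A growth lemma
-/

set_option autoImplicit false

namespace Pool.Agent.KS6_82.CC

/-- one step of the improvement of the exponent -/
lemma growth_step (H : ℕ → ℕ) (hmono : Monotone H) (A d : ℕ) (hA : 1 ≤ A) (hAd : A < d) (K : ℕ)
    (hK : ∀ q, A ^ q * H (d ^ q) ≤ K * (d ^ q * (H (2 * A ^ q) + 1))) (θ : ℝ)
    (hθ : (d : ℝ) ^ θ = A) (hθ0 : 0 ≤ θ) (x : ℝ) (hx : 0 ≤ x)
    (h : ∃ C : ℝ, 0 ≤ C ∧ ∀ D : ℕ, 1 ≤ D → (H D : ℝ) ≤ C * (D : ℝ) ^ (1 + x)) :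
    ∃ C : ℝ, 0 ≤ C ∧ ∀ D : ℕ, 1 ≤ D → (H D : ℝ) ≤ C * (D : ℝ) ^ (1 + θ * x) := by
  obtain ⟨C, hC0, hC⟩ := h
  have hA0 : (1 : ℝ) ≤ A := by exact_mod_cast hA
  have hd1 : 1 < d := by omega
  have hd0 : (1 : ℝ) < d := by exact_mod_cast hd1
  have hdpos : (0 : ℝ) < d := by linarith
  set K' : ℝ := K * (C * 2 ^ (1 + x) + 1) with hK'
  have hK'0 : 0 ≤ K' := by positivity
  have hpow : ∀ q : ℕ, (H (d ^ q) : ℝ) ≤ K' * ((d : ℝ) ^ q) ^ (1 + θ * x) := by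
    intro q
    have h1 : (A : ℝ) ^ q * H (d ^ q) ≤ K * ((d : ℝ) ^ q * (H (2 * A ^ q) + 1)) := by
      exact_mod_cast hK q
    have hAq : (1 : ℝ) ≤ (A : ℝ) ^ q := one_le_pow₀ hA0
    have hAqpos : (0 : ℝ) < (A : ℝ) ^ q := by linarith
    have hdq : (0 : ℝ) < (d : ℝ) ^ q := by positivity
    have h2 : (H (2 * A ^ q) : ℝ) ≤ C * 2 ^ (1 + x) * ((A : ℝ) ^ q) ^ (1 + x) := by
      have h3 := hC (2 * A ^ q) (by
        have : 0 < A ^ q := pow_pos (by omega) q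
        omega)
      push_cast at h3
      rw [Real.mul_rpow (by norm_num) hAqpos.le, ← mul_assoc] at h3
      exact h3
    have h3 : (1 : ℝ) ≤ ((A : ℝ) ^ q) ^ (1 + x) := Real.one_le_rpow hAq (by linarith)
    have h4 : (H (2 * A ^ q) : ℝ) + 1 ≤ (C * 2 ^ (1 + x) + 1) * ((A : ℝ) ^ q) ^ (1 + x) := by
      rw [add_mul, one_mul]
      linarith
    have h5 : (A : ℝ) ^ q * H (d ^ q) ≤ (A : ℝ) ^ q * (K' * ((d : ℝ) ^ q * ((A : ℝ) ^ q) ^ x)) := by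
      refine h1.trans ?_
      have h6 : ((A : ℝ) ^ q) ^ (1 + x) = (A : ℝ) ^ q * ((A : ℝ) ^ q) ^ x := by
        rw [Real.rpow_add hAqpos, Real.rpow_one]
      have h7 : (K : ℝ) * ((d : ℝ) ^ q * (H (2 * A ^ q) + 1)) ≤
          K * ((d : ℝ) ^ q * ((C * 2 ^ (1 + x) + 1) * ((A : ℝ) ^ q) ^ (1 + x))) := by
        apply mul_le_mul_of_nonneg_left _ (Nat.cast_nonneg _)
        exact mul_le_mul_of_nonneg_left h4 hdq.le
      refine h7.trans (le_of_eq ?_)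
      rw [h6, hK']
      ring
    have h6 := le_of_mul_le_mul_left h5 hAqpos
    refine h6.trans (le_of_eq ?_)
    have h7 : (A : ℝ) ^ q = ((d : ℝ) ^ q) ^ θ := by
      rw [← hθ, ← Real.rpow_natCast, ← Real.rpow_mul hdpos.le, ← Real.rpow_natCast,
        ← Real.rpow_mul hdpos.le, mul_comm]
    rw [h7, ← Real.rpow_mul hdq.le, Real.rpow_add hdq, Real.rpow_one]
  refine ⟨K' * (d : ℝ) ^ (1 + θ * x), by positivity, fun D hD => ?_⟩
  obtain ⟨n, hn1, hn2⟩ := exists_nat_pow_near hD hd1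
  have hD0 : (1 : ℝ) ≤ D := by exact_mod_cast hD
  have h1 : (H D : ℝ) ≤ H (d ^ (n + 1)) := by exact_mod_cast hmono hn2.le
  refine h1.trans ((hpow (n + 1)).trans ?_)
  rw [mul_assoc K', ← Real.mul_rpow hdpos.le (by linarith)]
  apply mul_le_mul_of_nonneg_left _ hK'0
  apply Real.rpow_le_rpow (by positivity) _ (by positivity)
  rw [pow_succ, mul_comm]
  apply mul_le_mul_of_nonneg_left _ hdpos.le
  exact_mod_cast hn1

/-- **The growth lemma.** -/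
theorem growth (H : ℕ → ℕ) (hmono : Monotone H) (n : ℕ) (hH : ∀ M, H M ≤ (M + 1) ^ n)
    (A d : ℕ) (hA : 1 ≤ A) (hAd : A < d) (K : ℕ)
    (hK : ∀ q, A ^ q * H (d ^ q) ≤ K * (d ^ q * (H (2 * A ^ q) + 1))) (E : ℕ) (hE : 1 ≤ E) :
    ∃ M, 1 ≤ M ∧ H (M * E) < M * M := by
  have hA0 : (1 : ℝ) ≤ A := by exact_mod_cast hA
  have hd1 : 1 < d := by omega
  have hd0 : (1 : ℝ) < d := by exact_mod_cast hd1
  have hdpos : (0 : ℝ) < d := by linarith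
  set θ : ℝ := Real.log A / Real.log d with hθd
  have hlogd : 0 < Real.log d := Real.log_pos hd0
  have hθ0 : 0 ≤ θ := div_nonneg (Real.log_nonneg hA0) hlogd.le
  have hθ1 : θ < 1 := by
    rw [hθd, div_lt_one hlogd]
    exact Real.log_lt_log (by linarith) (by exact_mod_cast hAd)
  have hθ : (d : ℝ) ^ θ = A := by
    rw [Real.rpow_def_of_pos hdpos, hθd, mul_div_cancel₀ _ hlogd.ne', Real.exp_log (by linarith)]
  have hbase : ∃ C : ℝ, 0 ≤ C ∧ ∀ D : ℕ, 1 ≤ D → (H D : ℝ) ≤ C * (D : ℝ) ^ (1 + (n : ℝ)) := by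
    refine ⟨2 ^ n, by positivity, fun D hD => ?_⟩
    have hD0 : (1 : ℝ) ≤ D := by exact_mod_cast hD
    have h1 : (H D : ℝ) ≤ ((D : ℝ) + 1) ^ n := by exact_mod_cast hH D
    have h2 : ((D : ℝ) + 1) ^ n ≤ (2 * D) ^ n := pow_le_pow_left₀ (by linarith) (by linarith) n
    refine h1.trans (h2.trans ?_)
    rw [mul_pow]
    apply mul_le_mul_of_nonneg_left _ (by positivity)
    rw [← Real.rpow_natCast]
    exact Real.rpow_le_rpow_of_exponent_le hD0 (by linarith)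
  have hall : ∀ j : ℕ, ∃ C : ℝ, 0 ≤ C ∧ ∀ D : ℕ, 1 ≤ D →
      (H D : ℝ) ≤ C * (D : ℝ) ^ (1 + θ ^ j * (n : ℝ)) := by
    intro j
    induction j with
    | zero => simpa using hbase
    | succ j ih =>
      have h1 := growth_step H hmono A d hA hAd K hK θ hθ hθ0 (θ ^ j * (n : ℝ)) (by positivity) ih
      have e1 : θ ^ (j + 1) * (n : ℝ) = θ * (θ ^ j * (n : ℝ)) := by ring
      rw [e1]
      exact h1
  obtain ⟨j, hj⟩ := exists_pow_lt_of_lt_one (show (0 : ℝ) < 1 / (2 * (n + 1)) by positivity) hθ1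
  obtain ⟨C, hC0, hC⟩ := hall j
  have hx : θ ^ j * (n : ℝ) ≤ 1 / 2 := by
    rw [lt_div_iff₀ (by positivity)] at hj
    have h1 : 0 ≤ θ ^ j := by positivity
    have hn : (0 : ℝ) ≤ n := Nat.cast_nonneg n
    nlinarith
  have hE0 : (1 : ℝ) ≤ E := by exact_mod_cast hE
  obtain ⟨M, hM⟩ := exists_nat_gt (max ((C * (E : ℝ) ^ ((3 : ℝ) / 2)) ^ 2) 1)
  have hM1 : (1 : ℝ) < M := lt_of_le_of_lt (le_max_right _ _) hM
  have hM0 : (0 : ℝ) < M := by linarith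
  have hM2 : (C * (E : ℝ) ^ ((3 : ℝ) / 2)) ^ 2 < M := lt_of_le_of_lt (le_max_left _ _) hM
  have hM1' : 1 ≤ M := by
    have : (1 : ℝ) ≤ M := hM1.le
    exact_mod_cast this
  refine ⟨M, hM1', ?_⟩
  have h1 := hC (M * E) (Nat.mul_pos (by omega) (by omega))
  have hME : (1 : ℝ) ≤ (M : ℝ) * E := by nlinarith
  have h2 : ((M * E : ℕ) : ℝ) ^ (1 + θ ^ j * (n : ℝ)) ≤ ((M : ℝ) * E) ^ ((3 : ℝ) / 2) := by
    push_cast
    exact Real.rpow_le_rpow_of_exponent_le hME (by linarith)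
  have h3 : (H (M * E) : ℝ) ≤ C * ((M : ℝ) * E) ^ ((3 : ℝ) / 2) :=
    h1.trans (mul_le_mul_of_nonneg_left h2 hC0)
  rw [Real.mul_rpow hM0.le (by linarith)] at h3
  have h4 : (M : ℝ) ^ ((3 : ℝ) / 2) = M * Real.sqrt M := by
    rw [Real.sqrt_eq_rpow]
    have : (3 : ℝ) / 2 = 1 + 1 / 2 := by norm_num
    rw [this, Real.rpow_add hM0, Real.rpow_one]
  have h5 : C * (E : ℝ) ^ ((3 : ℝ) / 2) < Real.sqrt M := by
    apply Real.lt_sqrt_of_sq_lt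
    exact hM2
  have h6 : (H (M * E) : ℝ) < M * M := by
    refine h3.trans_lt ?_
    rw [h4]
    have hs : 0 < Real.sqrt M := Real.sqrt_pos.2 hM0
    have hss : Real.sqrt M * Real.sqrt M = M := Real.mul_self_sqrt hM0.le
    calc C * (M * Real.sqrt M * (E : ℝ) ^ ((3 : ℝ) / 2)) =
        (C * (E : ℝ) ^ ((3 : ℝ) / 2)) * (M * Real.sqrt M) := by ring
      _ < Real.sqrt M * (M * Real.sqrt M) := mul_lt_mul_of_pos_right h5 (by positivity)
      _ = M * (Real.sqrt M * Real.sqrt M) := by ring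
      _ = M * M := by rw [hss]
  exact_mod_cast h6

end Pool.Agent.KS6_82.CC
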