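import Mathlib
import Pool.Agent.KS6_82.CC.Mult

/-!
# Hilbert functions and local multiplicities at infinity
-/

set_option autoImplicit false

namespace Pool.Agent.KS6_82.CC

open MvPolynomial Pool.Agent.R847.SN

section hf

variable {k : Type} [Field k] {N : ℕ} (p : Ideal (MvPolynomial (Fin (N + 1)) k))

/-- classes of polynomials of bounded degree -/
noncomputable def Wd (M : ℕ) : Submodule k (MvPolynomial (Fin (N + 1)) k ⧸ p) :=
  (restrictTotalDegree (Fin (N + 1)) k M).map (Ideal.Quotient.mkₐ k p).toLinearMap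

/-- the Hilbert function -/
noncomputable def Hf (M : ℕ) : ℕ := Module.finrank k (Wd p M)

lemma mem_Wd (M : ℕ) (w : MvPolynomial (Fin (N + 1)) k ⧸ p) :
    w ∈ Wd p M ↔ ∃ g : MvPolynomial (Fin (N + 1)) k, g.totalDegree ≤ M ∧
      Ideal.Quotient.mk p g = w := by
  unfold Wd
  rw [Submodule.mem_map]
  constructor
  · rintro ⟨g, hg, rfl⟩
    exact ⟨g, (mem_restrictTotalDegree _ _ _).1 hg, rfl⟩
  · rintro ⟨g, hg, rfl⟩
    exact ⟨g, (mem_restrictTotalDegree _ _ _).2 hg, rfl⟩

instance (M : ℕ) : FiniteDimensional k (Wd p M) := by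
  unfold Wd
  infer_instance

lemma Wd_mono {M M' : ℕ} (h : M ≤ M') : Wd p M ≤ Wd p M' := by
  intro w hw
  rw [mem_Wd] at hw ⊢
  obtain ⟨g, hg, rfl⟩ := hw
  exact ⟨g, hg.trans h, rfl⟩

lemma Hf_mono {M M' : ℕ} (h : M ≤ M') : Hf p M ≤ Hf p M' := Submodule.finrank_mono (Wd_mono p h)

/-- the trivial bound of the Hilbert function -/
lemma Hf_le (M : ℕ) : Hf p M ≤ (M + 1) ^ (N + 1) := by
  classical
  set q : (Fin (N + 1) → Fin (M + 1)) → MvPolynomial (Fin (N + 1)) k ⧸ p := fun v =>
    Ideal.Quotient.mk p (monomial (Finsupp.equivFunOnFinite.symm fun i => (v i : ℕ)) 1) with hq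
  have h1 : Wd p M ≤ Submodule.span k (Set.range q) := by
    intro w hw
    obtain ⟨g, hg, rfl⟩ := (mem_Wd p M w).1 hw
    have h2 : Ideal.Quotient.mk p g = ∑ κ ∈ g.support, coeff κ g •
        Ideal.Quotient.mk p (monomial κ (1 : k)) := by
      conv_lhs => rw [g.as_sum]
      rw [map_sum]
      refine Finset.sum_congr rfl fun κ _ => ?_
      have h3 : monomial κ (coeff κ g) = coeff κ g • monomial κ (1 : k) := by
        rw [smul_monomial, smul_eq_mul, mul_one]
      rw [h3]
      rfl
    rw [h2]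
    refine Submodule.sum_mem _ fun κ hκ => Submodule.smul_mem _ _ (Submodule.subset_span ?_)
    have h3 : ∀ i, κ i < M + 1 := by
      intro i
      have h4 := le_totalDegree hκ
      have h5 : κ i ≤ κ.sum fun _ e => e := by
        rw [Finsupp.sum_fintype _ _ (by simp)]
        exact Finset.single_le_sum (f := fun i => κ i) (fun _ _ => Nat.zero_le _)
          (Finset.mem_univ i)
      omega
    refine ⟨fun i => ⟨κ i, h3 i⟩, ?_⟩
    have e : (Finsupp.equivFunOnFinite.symm fun i => κ i) = κ := by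
      ext i
      rfl
    rw [hq]
    simp only
    rw [e]
  have hfd : FiniteDimensional k (Submodule.span k (Set.range q)) :=
    FiniteDimensional.span_of_finite k (Set.finite_range q)
  have h2 : Hf p M ≤ Set.finrank k (Set.range q) := Submodule.finrank_mono h1
  refine h2.trans ((finrank_range_le_card q).trans (le_of_eq ?_))
  simp

/-- elements spanning modulo a subspace -/
lemma exists_compl_basis {V : Type} [AddCommGroup V] [Module k V] [FiniteDimensional k V]
    (W : Submodule k V) (n : ℕ) (hn : Module.finrank k V - Module.finrank k W = n) :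
    ∃ b : Fin n → V, ∀ v, ∃ c : Fin n → k, v - ∑ i, c i • b i ∈ W := by
  have h1 := Submodule.finrank_quotient_add_finrank W
  have h2 : Module.finrank k (V ⧸ W) = n := by omega
  set b := (Module.finBasis k (V ⧸ W)).reindex (finCongr h2) with hb
  choose b' hb' using fun i => Submodule.mkQ_surjective W (b i)
  refine ⟨b', fun v => ⟨fun i => b.repr (W.mkQ v) i, ?_⟩⟩
  rw [← Submodule.Quotient.mk_eq_zero W]
  show W.mkQ _ = 0
  rw [map_sub, map_sum]
  simp only [map_smul, hb', b.sum_repr, sub_self]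

/-- polynomials of degree at most `M` modulo polynomials of smaller degree -/
lemma exists_step (M : ℕ) : ∃ B : Fin (Hf p M - Hf p (M - 1)) → MvPolynomial (Fin (N + 1)) k,
    (∀ i, (B i).totalDegree ≤ M) ∧ ∀ g : MvPolynomial (Fin (N + 1)) k, g.totalDegree ≤ M →
      ∃ (c : Fin (Hf p M - Hf p (M - 1)) → k) (g' : MvPolynomial (Fin (N + 1)) k),
        g'.totalDegree ≤ M - 1 ∧ g - ∑ i, C (c i) * B i - g' ∈ p := by
  classical
  have hle : Wd p (M - 1) ≤ Wd p M := Wd_mono p (Nat.sub_le _ _)
  have h1 : Module.finrank k ((Wd p (M - 1)).comap (Wd p M).subtype) = Hf p (M - 1) :=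
    (Submodule.comapSubtypeEquivOfLe hle).finrank_eq
  obtain ⟨b, hb⟩ := exists_compl_basis (k := k) ((Wd p (M - 1)).comap (Wd p M).subtype)
    (Hf p M - Hf p (M - 1)) (by rw [h1]; rfl)
  have hlift : ∀ i, ∃ g : MvPolynomial (Fin (N + 1)) k, g.totalDegree ≤ M ∧
      Ideal.Quotient.mk p g = b i :=
    fun i => (mem_Wd p M _).1 (b i).2
  choose B hB hBb using hlift
  refine ⟨B, hB, fun g hg => ?_⟩
  obtain ⟨c, hc⟩ := hb ⟨Ideal.Quotient.mk p g, (mem_Wd p M _).2 ⟨g, hg, rfl⟩⟩
  have hu' : Ideal.Quotient.mk p g - ∑ i, c i • Ideal.Quotient.mk p (B i) ∈ Wd p (M - 1) := by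
    have h3 : (((⟨Ideal.Quotient.mk p g, (mem_Wd p M _).2 ⟨g, hg, rfl⟩⟩ : Wd p M) -
        ∑ i, c i • b i : Wd p M) : MvPolynomial (Fin (N + 1)) k ⧸ p) ∈ Wd p (M - 1) := hc
    simp only [AddSubgroupClass.coe_sub, Submodule.coe_sum, Submodule.coe_smul] at h3
    simp only [hBb]
    exact h3
  obtain ⟨g', hg', hg'u⟩ := (mem_Wd p _ _).1 hu'
  refine ⟨c, g', hg', ?_⟩
  rw [← Ideal.Quotient.eq_zero_iff_mem, map_sub, map_sub, hg'u, map_sum]
  have h7 : ∑ i, Ideal.Quotient.mk p (C (c i) * B i) =
      ∑ i, c i • Ideal.Quotient.mk p (B i) := by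
    refine Finset.sum_congr rfl fun i _ => ?_
    rw [C_mul']
    rfl
  rw [h7, sub_self]

/-- a small increment -/
lemma exists_small (B : ℕ) (hB : 1 ≤ B) : ∃ M, B ≤ M ∧ B * (Hf p M - Hf p (M - 1)) ≤ Hf p (2 * B) := by
  by_contra hno
  push Not at hno
  have h1 : ∀ j, B * (Hf p (B + j) - Hf p (B - 1)) ≥ (j + 1) * (Hf p (2 * B) + 1) := by
    intro j
    induction j with
    | zero =>
      have := hno B le_rfl
      rw [add_zero]
      omega
    | succ j ih =>
      have h2 := hno (B + (j + 1)) (by omega)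
      have h3 : B + (j + 1) - 1 = B + j := by omega
      rw [h3] at h2
      have h4 : Hf p (B + j) ≤ Hf p (B + (j + 1)) := Hf_mono p (by omega)
      have h5 : Hf p (B - 1) ≤ Hf p (B + j) := Hf_mono p (by omega)
      have h6 : Hf p (B + (j + 1)) - Hf p (B - 1) = (Hf p (B + (j + 1)) - Hf p (B + j)) +
          (Hf p (B + j) - Hf p (B - 1)) := by omega
      rw [h6, mul_add]
      have h7 : (j + 1 + 1) * (Hf p (2 * B) + 1) = (Hf p (2 * B) + 1) +
          (j + 1) * (Hf p (2 * B) + 1) := by ring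
      omega
  have h2 := h1 (B - 1)
  have h3 : B - 1 + 1 = B := by omega
  rw [h3] at h2
  have h4 := Nat.le_of_mul_le_mul_left h2 (by omega : 0 < B)
  have h5 : Hf p (B + (B - 1)) ≤ Hf p (2 * B) := Hf_mono p (by omega)
  omega

end hf

section chart

variable {k : Type} [Field k] {Ω : Type} [NormedField Ω] [Algebra k Ω] {N : ℕ}

lemma Hc_add (η : Fin (N + 1) → Ω) (M : ℕ) (g h : MvPolynomial (Fin (N + 1)) k) :
    Hc η M (g + h) = Hc η M g + Hc η M h := by
  unfold Hc H
  rw [← Finset.sum_add_distrib]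
  refine Finset.sum_congr rfl fun j _ => ?_
  rw [map_add, map_add, mul_add]

lemma Hc_C_mul (η : Fin (N + 1) → Ω) (M : ℕ) (c : k) (g : MvPolynomial (Fin (N + 1)) k) :
    Hc η M (C c * g) = algebraMap k Ω c • Hc η M g := by
  unfold Hc H
  rw [Finset.smul_sum]
  refine Finset.sum_congr rfl fun j _ => ?_
  rw [C_mul', map_smul, map_smul, Algebra.smul_def, Algebra.smul_def,
    MvPolynomial.algebraMap_apply, MvPolynomial.algebraMap_apply]
  simp only [Algebra.algebraMap_self, RingHom.id_apply]
  ring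

lemma Hc_neg (η : Fin (N + 1) → Ω) (M : ℕ) (g : MvPolynomial (Fin (N + 1)) k) :
    Hc η M (-g) = -Hc η M g := by
  have h1 := Hc_add η M g (-g)
  rw [add_neg_cancel] at h1
  have h2 := Hc_C_mul η M 0 g
  rw [C_0, zero_mul, map_zero, zero_smul] at h2
  rw [h2] at h1
  exact (neg_eq_of_add_eq_zero_right h1.symm).symm

lemma Hc_sum {ι : Type} (s : Finset ι) (η : Fin (N + 1) → Ω) (M : ℕ)
    (g : ι → MvPolynomial (Fin (N + 1)) k) :
    Hc η M (∑ i ∈ s, g i) = ∑ i ∈ s, Hc η M (g i) := by
  classical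
  induction s using Finset.induction_on with
  | empty =>
    have h2 := Hc_C_mul η M 0 (0 : MvPolynomial (Fin (N + 1)) k)
    rw [mul_zero, map_zero, zero_smul] at h2
    simpa using h2
  | insert a s ha ih => rw [Finset.sum_insert ha, Finset.sum_insert ha, Hc_add, ih]

/-- **Local multiplicities and increments of the Hilbert function.** -/
theorem sp_hilb (p : Ideal (MvPolynomial (Fin (N + 1)) k)) (η : Fin (N + 1) → Ω)
    (i0 : Fin (N + 1)) (hη : η i0 = 1) (𝔷 : Ideal (MvPolynomial (Option (Fin (N + 1))) Ω))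
    (hX0 : X (some i0) ∈ 𝔷) (M : ℕ) (hM : 1 ≤ M)
    (hz : ∀ g ∈ p, g.totalDegree ≤ M → Hc η M g ∈ 𝔷) :
    Sp Ω (Hf p M - Hf p (M - 1))
      (𝔷 ⊔ Ideal.span {X none} ⊔ (idealOfVars (Option (Fin (N + 1))) Ω) ^ (M + 1)) := by
  classical
  obtain ⟨B, hB, hspan⟩ := exists_step p M
  generalize Hf p M - Hf p (M - 1) = n at B hB hspan ⊢
  set I := 𝔷 ⊔ Ideal.span {X none} ⊔ (idealOfVars (Option (Fin (N + 1))) Ω) ^ (M + 1) with hI
  set q : Fin n → MvPolynomial (Option (Fin (N + 1))) Ω := fun i => Hc η M (B i) with hq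
  set S : Submodule Ω (MvPolynomial (Option (Fin (N + 1))) Ω) :=
    Submodule.span Ω (Set.range q) ⊔ I.restrictScalars Ω with hS
  have hIS : ∀ a ∈ I, a ∈ S := fun a ha => Submodule.mem_sup_right ha
  have htI : Ideal.span {X none} ≤ I := le_sup_of_le_left le_sup_right
  have hzI : 𝔷 ≤ I := le_sup_of_le_left le_sup_left
  -- modulo the ideal
  have hmod : ∀ a b, a - b ∈ I → b ∈ S → a ∈ S := by
    intro a b hab hb
    have : a = (a - b) + b := by ring
    rw [this]
    exact add_mem (hIS _ hab) hb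
  -- polynomials over the ground field
  have h1 : ∀ g : MvPolynomial (Fin (N + 1)) k, g.totalDegree ≤ M → Hc η M g ∈ S := by
    intro g hg
    obtain ⟨c, g', hg', hp⟩ := hspan g hg
    have e1 : g = (g - ∑ i, C (c i) * B i - g') + ∑ i, C (c i) * B i + g' := by ring
    rw [e1, Hc_add, Hc_add, Hc_sum]
    refine add_mem (add_mem (hIS _ (hzI (hz _ hp ?_))) (Submodule.sum_mem _ fun i _ => ?_)) ?_
    · refine (totalDegree_sub _ _).trans (max_le ((totalDegree_sub _ _).trans (max_le hg ?_))
        (by omega))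
      apply totalDegree_finsetSum_le
      intro i _
      refine (totalDegree_mul _ _).trans ?_
      rw [totalDegree_C, zero_add]
      exact hB i
    · rw [Hc_C_mul]
      exact Submodule.smul_mem _ _ (Submodule.mem_sup_left (Submodule.subset_span ⟨i, rfl⟩))
    · apply hIS
      apply htI
      have h2 := Hc_top (d := M) η g'
      rwa [homogeneousComponent_eq_zero _ _ (by omega), map_zero, sub_zero] at h2
  -- the affine coordinates
  set θ : MvPolynomial (Fin (N + 1)) Ω →ₐ[Ω] MvPolynomial (Option (Fin (N + 1))) Ω :=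
    aeval (fun j => X (some j) + C (η j)) with hθ
  have hθmon : ∀ κ : Fin (N + 1) →₀ ℕ, θ (monomial κ 1) =
      ∏ i, (X (some i) + C (η i)) ^ κ i := by
    intro κ
    rw [hθ, aeval_monomial, map_one, one_mul, Finsupp.prod_fintype _ _ (by simp)]
  have h3 : ∀ κ : Fin (N + 1) →₀ ℕ, κ.degree ≤ M → θ (monomial κ 1) ∈ S := by
    intro κ hκ
    set g : MvPolynomial (Fin (N + 1)) k := monomial (κ + Finsupp.single i0 (M - κ.degree)) 1
      with hg
    have hghom : g.IsHomogeneous M := by
      apply isHomogeneous_monomial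
      rw [map_add, Finsupp.degree_single]
      omega
    have h4 := Hc_top (d := M) η g
    rw [homogeneousComponent_of_mem ((mem_homogeneousSubmodule _ _).2 hghom), if_pos rfl] at h4
    have h5 : aeval (fun i => X (some i) + C (η i)) g = θ (monomial κ 1) *
        (X (some i0) + C (η i0)) ^ (M - κ.degree) := by
      rw [hθmon, hg, aeval_monomial, map_one, one_mul, Finsupp.prod_fintype _ _ (by simp)]
      simp only [Finsupp.add_apply, pow_add, Finset.prod_mul_distrib]
      congr 1
      rw [Finset.prod_eq_single i0]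
      · rw [Finsupp.single_eq_same]
      · intro i _ hi
        rw [Finsupp.single_eq_of_ne hi, pow_zero]
      · intro h
        exact absurd (Finset.mem_univ _) h
    rw [h5] at h4
    have h6 : (X (some i0) + C (η i0)) ^ (M - κ.degree) - 1 ∈ 𝔷 := by
      have h7 := sub_dvd_pow_sub_pow (X (some i0) + C (η i0) :
        MvPolynomial (Option (Fin (N + 1))) Ω) 1 (M - κ.degree)
      rw [one_pow, hη, C_1, add_sub_cancel_right] at h7
      rw [hη, C_1]
      exact Ideal.mem_of_dvd _ h7 hX0
    apply hmod _ (Hc η M g) _ (h1 g hghom.totalDegree_le)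
    have h8 : θ (monomial κ 1) - Hc η M g = -(Hc η M g - θ (monomial κ 1) *
        (X (some i0) + C (η i0)) ^ (M - κ.degree)) -
        θ (monomial κ 1) * ((X (some i0) + C (η i0)) ^ (M - κ.degree) - 1) := by ring
    rw [h8]
    exact sub_mem (neg_mem (htI h4)) (hzI (Ideal.mul_mem_left _ _ h6))
  have h4 : ∀ b : MvPolynomial (Fin (N + 1)) Ω, b.totalDegree ≤ M → θ b ∈ S := by
    intro b hb
    rw [b.as_sum, map_sum]
    refine Submodule.sum_mem _ fun κ hκ => ?_
    have e1 : monomial κ (coeff κ b) = coeff κ b • monomial κ (1 : Ω) := by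
      rw [smul_monomial, smul_eq_mul, mul_one]
    rw [e1, map_smul]
    apply Submodule.smul_mem
    apply h3
    have h5 := le_totalDegree hκ
    rw [Finsupp.degree_eq_sum]
    rw [Finsupp.sum_fintype _ _ (by simp)] at h5
    exact h5.trans hb
  -- surjectivity
  set ω : MvPolynomial (Option (Fin (N + 1))) Ω →ₐ[Ω] MvPolynomial (Fin (N + 1)) Ω :=
    aeval (fun o => o.elim 0 fun j => X j - C (η j)) with hω
  have hsurj : ∀ b, b - θ (ω b) ∈ (Ideal.span {X none} :
      Ideal (MvPolynomial (Option (Fin (N + 1))) Ω)) := by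
    intro b
    induction b using MvPolynomial.induction_on with
    | C a =>
      rw [hω, aeval_C, MvPolynomial.algebraMap_eq, hθ, aeval_C, MvPolynomial.algebraMap_eq,
        sub_self]
      exact zero_mem _
    | add p q hp hq =>
      rw [map_add, map_add]
      have h1 : p + q - (θ (ω p) + θ (ω q)) = (p - θ (ω p)) + (q - θ (ω q)) := by ring
      rw [h1]
      exact add_mem hp hq
    | mul_X p o hp =>
      rw [map_mul, map_mul]
      have h1 : p * X o - θ (ω p) * θ (ω (X o)) = (p - θ (ω p)) * X o +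
          θ (ω p) * (X o - θ (ω (X o))) := by ring
      rw [h1]
      refine add_mem (Ideal.mul_mem_right _ _ hp) (Ideal.mul_mem_left _ _ ?_)
      cases o with
      | none =>
        rw [hω, aeval_X]
        show X none - θ 0 ∈ _
        rw [map_zero, sub_zero]
        exact Ideal.mem_span_singleton_self _
      | some j =>
        rw [hω, aeval_X]
        show X (some j) - θ (X j - C (η j)) ∈ _
        have h2 : θ (X j - C (η j)) = X (some j) := by
          rw [hθ, map_sub, aeval_X, aeval_C, MvPolynomial.algebraMap_eq]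
          ring
        rw [h2, sub_self]
        exact zero_mem _
  have hωdeg : ∀ κ : Option (Fin (N + 1)) →₀ ℕ, (ω (monomial κ 1)).totalDegree ≤ κ.degree := by
    intro κ
    rw [hω, aeval_monomial, map_one, one_mul, Finsupp.prod_fintype _ _ (by simp),
      Finsupp.degree_eq_sum]
    refine (totalDegree_finsetProd _ _).trans (Finset.sum_le_sum fun o _ => ?_)
    refine (totalDegree_pow _ _).trans ?_
    have h5 : (o.elim 0 fun j => X j - C (η j) : MvPolynomial (Fin (N + 1)) Ω).totalDegree ≤ 1 := by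
      cases o with
      | none =>
        show (0 : MvPolynomial (Fin (N + 1)) Ω).totalDegree ≤ 1
        rw [totalDegree_zero]
        exact Nat.zero_le _
      | some j =>
        show (X j - C (η j)).totalDegree ≤ 1
        refine (totalDegree_sub _ _).trans ?_
        rw [totalDegree_X, totalDegree_C]
        simp
    calc κ o * (o.elim 0 fun j => X j - C (η j) : MvPolynomial (Fin (N + 1)) Ω).totalDegree ≤
        κ o * 1 := Nat.mul_le_mul_left _ h5
      _ = κ o := mul_one _
  -- the conclusion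
  have htop : ∀ a, a ∈ S := by
    intro a
    rw [a.as_sum]
    refine Submodule.sum_mem _ fun κ _ => ?_
    have e1 : monomial κ (coeff κ a) = coeff κ a • monomial κ (1 : Ω) := by
      rw [smul_monomial, smul_eq_mul, mul_one]
    rw [e1]
    apply Submodule.smul_mem
    rcases Nat.lt_or_ge M κ.degree with h5 | h5
    · apply hIS
      apply Ideal.mem_sup_right
      rw [mem_pow_idealOfVars_iff']
      intro κ' hκ'
      rw [coeff_monomial, if_neg]
      rintro rfl
      omega
    · exact hmod _ _ (htI (hsurj _)) (h4 _ ((hωdeg κ).trans h5))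
  refine ⟨q, fun a => ?_⟩
  obtain ⟨u, hu, v, hv, huv⟩ := Submodule.mem_sup.1 (htop a)
  obtain ⟨r, hr⟩ := (Submodule.mem_span_range_iff_exists_fun Ω).1 hu
  refine ⟨r, ?_⟩
  rw [hr, ← huv, add_sub_cancel_left]
  exact hv

end chart

end Pool.Agent.KS6_82.CC
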