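import Mathlib

/-!
# Iterates of polynomial maps and their leading forms
-/

set_option autoImplicit false

namespace Pool.Agent.KS6_82.CC

open MvPolynomial

variable {k : Type} [Field k] {ι : Type}

/-- the polynomials of the iterate -/
noncomputable def it (f : ι → MvPolynomial ι k) (L : ℕ) (i : ι) : MvPolynomial ι k :=
  (bind₁ f)^[L] (X i)

lemma it_eval {A : Type} [CommRing A] [Algebra k A] (f : ι → MvPolynomial ι k) (L : ℕ)
    (z : ι → A) (i : ι) : aeval z (it f L i) = (fun (w : ι → A) i => aeval w (f i))^[L] z i := by
  unfold it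
  induction L generalizing z with
  | zero => simp
  | succ L ih =>
    rw [Function.iterate_succ_apply', Function.iterate_succ_apply, aeval_bind₁]
    exact ih _

variable [Fintype ι] {d : ℕ} {f : ι → MvPolynomial ι k}

lemma bind_deg (hdeg : ∀ i, (f i).totalDegree ≤ d) (g : MvPolynomial ι k) :
    (bind₁ f g).totalDegree ≤ g.totalDegree * d := by
  classical
  rw [bind₁, aeval_def, eval₂_eq']
  apply totalDegree_finsetSum_le
  intro κ hκ
  refine (totalDegree_mul _ _).trans ?_
  rw [MvPolynomial.algebraMap_eq, totalDegree_C, zero_add]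
  refine (totalDegree_finsetProd _ _).trans ?_
  have h1 : ∀ i, (f i ^ κ i).totalDegree ≤ κ i * d := fun i =>
    (totalDegree_pow _ _).trans (Nat.mul_le_mul_left _ (hdeg i))
  refine (Finset.sum_le_sum fun i _ => h1 i).trans ?_
  rw [← Finset.sum_mul]
  apply Nat.mul_le_mul_right
  have h2 := le_totalDegree hκ
  rwa [Finsupp.sum_fintype _ _ (by simp)] at h2

lemma it_deg (hdeg : ∀ i, (f i).totalDegree ≤ d) (L : ℕ) (i : ι) :
    (it f L i).totalDegree ≤ d ^ L := by
  unfold it
  induction L with
  | zero => simp
  | succ L ih =>
    rw [Function.iterate_succ_apply', pow_succ]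
    exact (bind_deg hdeg _).trans (Nat.mul_le_mul_right _ ih)

omit [Fintype ι] in
/-- leading forms of products -/
lemma top_mul (a b : ℕ) (p q : MvPolynomial ι k) (hp : p.totalDegree ≤ a)
    (hq : q.totalDegree ≤ b) : homogeneousComponent (a + b) (p * q) =
      homogeneousComponent a p * homogeneousComponent b q := by
  classical
  have h1 : ∀ (c : ℕ) (r : MvPolynomial ι k), r.totalDegree ≤ c →
      r = ∑ j ∈ Finset.range (c + 1), homogeneousComponent j r := by
    intro c r hr
    conv_lhs => rw [← sum_homogeneousComponent r]
    apply Finset.sum_subset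
    · intro j hj
      rw [Finset.mem_range] at hj ⊢
      omega
    · intro j _ hj
      rw [Finset.mem_range] at hj
      exact homogeneousComponent_eq_zero _ _ (by omega)
  have h2 : ∀ j l, homogeneousComponent (a + b) (homogeneousComponent j p *
      homogeneousComponent l q) = if a + b = j + l then homogeneousComponent j p *
      homogeneousComponent l q else 0 := by
    intro j l
    apply homogeneousComponent_of_mem
    rw [mem_homogeneousSubmodule]
    exact (homogeneousComponent_isHomogeneous j p).mul (homogeneousComponent_isHomogeneous l q)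
  conv_lhs => rw [h1 a p hp, h1 b q hq, Finset.sum_mul_sum, map_sum]
  rw [Finset.sum_eq_single a]
  · rw [map_sum, Finset.sum_eq_single b]
    · rw [h2, if_pos rfl]
    · intro l hl hne
      rw [h2, if_neg (by omega)]
    · intro h
      exact absurd (Finset.mem_range.2 (Nat.lt_succ_self _)) h
  · intro j hj hne
    rw [map_sum]
    apply Finset.sum_eq_zero
    intro l hl
    rw [Finset.mem_range] at hj hl
    rw [h2, if_neg (by omega)]
  · intro h
    exact absurd (Finset.mem_range.2 (Nat.lt_succ_self _)) h

omit [Fintype ι] in
lemma top_pow (a : ℕ) (p : MvPolynomial ι k) (hp : p.totalDegree ≤ a) (n : ℕ) :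
    homogeneousComponent (n * a) (p ^ n) = homogeneousComponent a p ^ n := by
  induction n with
  | zero =>
    rw [zero_mul, pow_zero, pow_zero, homogeneousComponent_zero]
    simp
  | succ n ih =>
    rw [pow_succ, pow_succ, add_mul, one_mul, top_mul _ _ _ _ ?_ hp, ih]
    exact (totalDegree_pow _ _).trans (Nat.mul_le_mul_left _ hp)

omit [Fintype ι] in
lemma top_prod {κ : Type} (s : Finset κ) (a : κ → ℕ) (p : κ → MvPolynomial ι k)
    (hp : ∀ i, (p i).totalDegree ≤ a i) :
    homogeneousComponent (∑ i ∈ s, a i) (∏ i ∈ s, p i) =
      ∏ i ∈ s, homogeneousComponent (a i) (p i) := by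
  classical
  induction s using Finset.induction_on with
  | empty =>
    rw [Finset.sum_empty, Finset.prod_empty, Finset.prod_empty, homogeneousComponent_zero]
    simp
  | insert b s hb ih =>
    rw [Finset.sum_insert hb, Finset.prod_insert hb, Finset.prod_insert hb,
      top_mul _ _ _ _ (hp b) ?_, ih]
    exact (totalDegree_finsetProd _ _).trans (Finset.sum_le_sum fun i _ => hp i)

/-- the leading form of a composition -/
lemma bind_top (hd : 1 ≤ d) (hdeg : ∀ i, (f i).totalDegree ≤ d) (m : ℕ) (g : MvPolynomial ι k)
    (hg : g.totalDegree ≤ m) : homogeneousComponent (m * d) (bind₁ f g) =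
      bind₁ (fun i => homogeneousComponent d (f i)) (homogeneousComponent m g) := by
  classical
  have hmon : ∀ (κ : ι →₀ ℕ) (c : k), κ.degree ≤ m →
      homogeneousComponent (m * d) (bind₁ f (monomial κ c)) =
      bind₁ (fun i => homogeneousComponent d (f i)) (homogeneousComponent m (monomial κ c)) := by
    intro κ c hκ
    have hhom : (monomial κ c : MvPolynomial ι k) ∈ homogeneousSubmodule ι k κ.degree := by
      rw [mem_homogeneousSubmodule]
      exact isHomogeneous_monomial _ rfl
    rw [homogeneousComponent_of_mem hhom]
    rcases Nat.lt_or_ge κ.degree m with h | h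
    · rw [if_neg (by omega), map_zero]
      apply homogeneousComponent_eq_zero
      refine lt_of_le_of_lt (bind_deg hdeg _) ?_
      have h1 : (monomial κ c : MvPolynomial ι k).totalDegree ≤ κ.degree := by
        rw [mem_homogeneousSubmodule] at hhom
        exact hhom.totalDegree_le
      calc (monomial κ c : MvPolynomial ι k).totalDegree * d ≤ κ.degree * d :=
            Nat.mul_le_mul_right _ h1
        _ < m * d := Nat.mul_lt_mul_of_pos_right h (by omega)
    · have hκm : κ.degree = m := le_antisymm hκ h
      rw [if_pos hκm.symm, bind₁_monomial, bind₁_monomial]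
      have hs : ∀ F : ι → MvPolynomial ι k, ∏ i ∈ κ.support, F i ^ κ i = ∏ i, F i ^ κ i := by
        intro F
        apply Finset.prod_subset (Finset.subset_univ _)
        intro i _ hi
        rw [Finsupp.notMem_support_iff.1 hi, pow_zero]
      rw [hs, hs, homogeneousComponent_C_mul]
      congr 1
      have h1 : m * d = ∑ i, κ i * d := by
        rw [← hκm, Finsupp.degree_eq_sum, Finset.sum_mul]
      rw [h1, top_prod Finset.univ (fun i => κ i * d) (fun i => f i ^ κ i) fun i =>
        (totalDegree_pow _ _).trans (Nat.mul_le_mul_left _ (hdeg i))]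
      exact Finset.prod_congr rfl fun i _ => top_pow d (f i) (hdeg i) (κ i)
  conv_lhs => rw [g.as_sum, map_sum, map_sum]
  conv_rhs => rw [g.as_sum, map_sum, map_sum]
  refine Finset.sum_congr rfl fun κ hκ => hmon κ _ ?_
  have h2 := le_totalDegree hκ
  rw [Finsupp.degree_eq_sum]
  rw [Finsupp.sum_fintype _ _ (by simp)] at h2
  exact h2.trans hg

/-- the leading forms of the iterates -/
theorem top_it (hd : 1 ≤ d) (hdeg : ∀ i, (f i).totalDegree ≤ d) (L : ℕ) (i : ι) :
    homogeneousComponent (d ^ L) (it f L i) = it (fun i => homogeneousComponent d (f i)) L i := by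
  induction L with
  | zero =>
    unfold it
    rw [pow_zero]
    simp only [Function.iterate_zero, id_eq]
    rw [homogeneousComponent_of_mem ((mem_homogeneousSubmodule _ _).2 (isHomogeneous_X k i)),
      if_pos rfl]
  | succ L ih =>
    have h1 : it f (L + 1) i = bind₁ f (it f L i) := Function.iterate_succ_apply' _ _ _
    have h2 : it (fun i => homogeneousComponent d (f i)) (L + 1) i =
        bind₁ (fun i => homogeneousComponent d (f i))
          (it (fun i => homogeneousComponent d (f i)) L i) := Function.iterate_succ_apply' _ _ _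
    rw [h1, h2, ← ih, pow_succ]
    exact bind_top hd hdeg _ _ (it_deg hdeg L i)

end Pool.Agent.KS6_82.CC
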