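import Mathlib
import Pool.Agent.KS6_82.CC.Chain
import Pool.Agent.KS6_82.CC.Mult

/-!
# The nilpotency condition in homogeneous coordinates and in the chart
-/

set_option autoImplicit false

namespace Pool.Agent.KS6_82.CC

open MvPolynomial Pool.Agent.R847.SN

/-- the ideal of a point -/
noncomputable def pI {E : Type} [Field E] {N : ℕ} (z : Fin (N + 1) → E) :
    Ideal (MvPolynomial (Fin (N + 1)) E) :=
  Ideal.span (Set.range fun j => X j - C (z j))

lemma pI_map {E E' : Type} [Field E] [Field E'] {N : ℕ} (σ : E →+* E') (z : Fin (N + 1) → E) :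
    (pI z).map (map σ) = pI (fun i => σ (z i)) := by
  unfold pI
  rw [Ideal.map_span, ← Set.range_comp]
  congr 1
  congr 1
  funext j
  simp

/-- from the complex numbers to a subfield -/
theorem nil_descend {Ω : Type} [Field Ω] [Algebra Ω ℂ] {N : ℕ}
    (F : Fin (N + 1) → MvPolynomial (Fin (N + 1)) Ω) (w : Fin (N + 1) → Ω) (i : Fin (N + 1))
    (A K : ℕ)
    (h : pI (fun i => algebraMap Ω ℂ (w i)) ^ A ≤
      fI (fun i => map (algebraMap Ω ℂ) (F i)) (fun i => algebraMap Ω ℂ (w i)) i K) :
    pI w ^ A ≤ fI F w i K := by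
  intro a ha
  obtain ⟨φ, hφ⟩ : ∃ φ : Module.Dual Ω ℂ, φ 1 ≠ 0 := by
    by_contra hno
    push Not at hno
    exact one_ne_zero ((Module.forall_dual_apply_eq_zero_iff Ω (1 : ℂ)).1 hno)
  have h1 : map (algebraMap Ω ℂ) a ∈ (fI F w i K).map (map (algebraMap Ω ℂ)) := by
    rw [fI_map]
    apply h
    rw [← pI_map, ← Ideal.map_pow]
    exact Ideal.mem_map_of_mem _ ha
  have h2 := cmp_mem _ φ _ h1
  have h3 : cmp φ (map (algebraMap Ω ℂ) a) = C (φ 1) * a := by
    have h4 := cmp_mul φ (1 : MvPolynomial (Fin (N + 1)) ℂ) a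
    rw [one_mul] at h4
    rw [h4]
    congr 1
    ext κ
    rw [coeff_cmp, coeff_one, coeff_C]
    split_ifs
    · rfl
    · exact map_zero _
  rw [h3] at h2
  have h5 : a = C (φ 1)⁻¹ * (C (φ 1) * a) := by
    rw [← mul_assoc, ← C_mul, inv_mul_cancel₀ hφ, C_1, one_mul]
  rw [h5]
  exact Ideal.mul_mem_left _ _ h2

section chart

variable {k : Type} [Field k] {Ω : Type} [NormedField Ω] [Algebra k Ω] {N d : ℕ}
  {f : Fin (N + 1) → MvPolynomial (Fin (N + 1)) k}

/-- from homogeneous coordinates to the chart -/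
theorem nil_fib {i0 : Fin (N + 1)} {η w : Fin (N + 1) → Ω}
    (hw : ∀ i, w i = w i0 * η i) (hw0 : w i0 ≠ 0) {c : Ω}
    (hη : ∀ i, aeval η (homogeneousComponent d (f i)) = c * η i) {A : ℕ}
    (h : pI w ^ A ≤
      fI (fun i => map (algebraMap k Ω) (homogeneousComponent d (f i))) w i0 (A + 1)) :
    (idealOfVars (Option (Fin (N + 1))) Ω) ^ A ≤ fib d f i0 i0 η η ⊔
      (idealOfVars (Option (Fin (N + 1))) Ω) ^ (A + 1) := by
  classical
  set J := fib d f i0 i0 η η ⊔ (idealOfVars (Option (Fin (N + 1))) Ω) ^ (A + 1) with hJ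
  set T : Fin (N + 1) → MvPolynomial (Option (Fin (N + 1))) Ω := fun b =>
    aeval (fun i => X (some i) + C (η i)) (homogeneousComponent d (f b)) with hT
  set θ : MvPolynomial (Fin (N + 1)) Ω →ₐ[Ω] MvPolynomial (Option (Fin (N + 1))) Ω :=
    aeval (fun j => C (w i0) * (X (some j) + C (η j))) with hθ
  have hone : η i0 = 1 := by
    have := hw i0
    exact (mul_left_cancel₀ hw0 (by rw [mul_one]; exact this)).symm
  have hθX : ∀ j, θ (X j - C (w j)) = C (w i0) * X (some j) := by
    intro j
    rw [hθ, map_sub, aeval_X, aeval_C, MvPolynomial.algebraMap_eq, hw j, C_mul]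
    ring
  have hθF : ∀ b, θ (map (algebraMap k Ω) (homogeneousComponent d (f b))) =
      C (w i0) ^ d * T b := by
    intro b
    rw [hθ, aeval_map_algebraMap,
      aeval_scale _ d (homogeneousComponent_isHomogeneous d (f b))]
  have hev : ∀ b, eval w (map (algebraMap k Ω) (homogeneousComponent d (f b))) =
      w i0 ^ d * (c * η b) := by
    intro b
    rw [← hη, ← aeval_scale _ d (homogeneousComponent_isHomogeneous d (f b)), aeval_def,
      eval₂_eq_eval_map]
    congr 2
    funext i
    exact hw i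
  have hXi : (X (some i0) : MvPolynomial (Option (Fin (N + 1))) Ω) ∈ J :=
    Ideal.mem_sup_left (Ideal.mem_sup_right (Ideal.mem_span_singleton_self _))
  have hnum : ∀ b, num d f i0 η η (some b) ∈ J := fun b =>
    Ideal.mem_sup_left (Ideal.mem_sup_left (Ideal.mem_sup_right (Ideal.subset_span ⟨b, rfl⟩)))
  have hTH : ∀ b, Hc η d (f b) - T b ∈ J := fun b =>
    Ideal.mem_sup_left (Ideal.mem_sup_left (Ideal.mem_sup_left (Hc_top η (f b))))
  have hTT : ∀ a b, C (η a) * T b - C (η b) * T a ∈ J := by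
    intro a b
    have h1 : C (η a) * T b - C (η b) * T a = C (η a) * num d f i0 η η (some b) -
        C (η b) * num d f i0 η η (some a) - C (η a) * (Hc η d (f b) - T b) +
        C (η b) * (Hc η d (f a) - T a) := by
      show _ = C (η a) * (Hc η d (f b) - C (η b) * Hc η d (f i0)) -
        C (η b) * (Hc η d (f a) - C (η a) * Hc η d (f i0)) - C (η a) * (Hc η d (f b) - T b) +
        C (η b) * (Hc η d (f a) - T a)
      ring
    rw [h1]
    exact add_mem (sub_mem (sub_mem (Ideal.mul_mem_left _ _ (hnum b))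
      (Ideal.mul_mem_left _ _ (hnum a))) (Ideal.mul_mem_left _ _ (hTH b)))
      (Ideal.mul_mem_left _ _ (hTH a))
  have hpm : pI w ≤ (idealOfVars (Option (Fin (N + 1))) Ω).comap θ := by
    unfold pI
    rw [Ideal.span_le]
    rintro _ ⟨j, rfl⟩
    show θ (X j - C (w j)) ∈ idealOfVars (Option (Fin (N + 1))) Ω
    rw [hθX]
    exact Ideal.mul_mem_left _ _ (show (X (some j) :
      MvPolynomial (Option (Fin (N + 1))) Ω) ∈ idealOfVars _ Ω from
        Ideal.subset_span ⟨some j, rfl⟩)
  have hle : fI (fun i => map (algebraMap k Ω) (homogeneousComponent d (f i))) w i0 (A + 1) ≤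
      J.comap θ := by
    unfold fI
    refine sup_le (sup_le ?_ ?_) ?_
    · rw [Ideal.span_singleton_le_iff_mem, Ideal.mem_comap, hθX]
      exact Ideal.mul_mem_left _ _ hXi
    · rw [Ideal.span_le]
      rintro _ ⟨⟨a, b⟩, rfl⟩
      show θ (C (eval w (map (algebraMap k Ω) (homogeneousComponent d (f a)))) *
        map (algebraMap k Ω) (homogeneousComponent d (f b)) -
        C (eval w (map (algebraMap k Ω) (homogeneousComponent d (f b)))) *
        map (algebraMap k Ω) (homogeneousComponent d (f a))) ∈ J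
      rw [map_sub, map_mul, map_mul, hθF, hθF, hev, hev]
      have hC : ∀ t : Ω, θ (C t) = C t := fun t => by
        rw [hθ, aeval_C, MvPolynomial.algebraMap_eq]
      rw [hC, hC]
      have h1 : C (w i0 ^ d * (c * η a)) * (C (w i0) ^ d * T b) -
          C (w i0 ^ d * (c * η b)) * (C (w i0) ^ d * T a) =
          C (w i0) ^ d * C (w i0) ^ d * C c * (C (η a) * T b - C (η b) * T a) := by
        simp only [C_mul, C_pow]
        ring
      rw [h1]
      exact Ideal.mul_mem_left _ _ (hTT a b)
    · refine (Ideal.pow_right_mono hpm (A + 1)).trans ((Ideal.le_comap_pow θ (A + 1)).trans ?_)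
      exact Ideal.comap_mono le_sup_right
  have hm : idealOfVars (Option (Fin (N + 1))) Ω ≤ (pI w).map θ ⊔ Ideal.span {X none} := by
    rw [idealOfVars, Ideal.span_le]
    rintro _ ⟨o, rfl⟩
    cases o with
    | none => exact Ideal.mem_sup_right (Ideal.mem_span_singleton_self _)
    | some j =>
      apply Ideal.mem_sup_left
      have h1 : θ (X j - C (w j)) ∈ (pI w).map θ :=
        Ideal.mem_map_of_mem θ (Ideal.subset_span ⟨j, rfl⟩)
      have h2 : (X (some j) : MvPolynomial (Option (Fin (N + 1))) Ω) =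
          C (w i0)⁻¹ * θ (X j - C (w j)) := by
        rw [hθX, ← mul_assoc, ← C_mul, inv_mul_cancel₀ hw0, C_1, one_mul]
      rw [h2]
      exact Ideal.mul_mem_left _ _ h1
  refine (Ideal.pow_right_mono hm A).trans ((sup_pow_le _ _ A).trans (sup_le ?_ ?_))
  · rw [← Ideal.map_pow]
    exact Ideal.map_le_iff_le_comap.2 (h.trans hle)
  · exact le_sup_of_le_left (le_sup_of_le_left le_sup_left)

end chart

end Pool.Agent.KS6_82.CC
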