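import Mathlib
import Pool.Agent.KS6_82.CC.Chain
import Pool.Agent.KS6_82.CC.Lev

/-!
# Towers with a constant chart
-/

set_option autoImplicit false

namespace Pool.Agent.KS6_82.CC

open Filter Topology MvPolynomial Pool.Agent.R847.SN

variable {k : Type} [Field k] {Ω : Type} [NormedField Ω] [Algebra k Ω] {N : ℕ}

/-- a tower of charts at a fixed point, with a bound for the nilpotency of the fibre -/
structure Towb (D A : ℕ) (g : Fin (N + 1) → MvPolynomial (Fin (N + 1)) k) (U : Ultrafilter ℕ)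
    (Λ : ℕ → ℕ → ℝ) (x : ℕ → ℕ → Fin (N + 1) → Ω) (i0 : Fin (N + 1))
    (η : Fin (N + 1) → Ω) : Prop where
  ch : ∀ j, Ch U (Λ j) (x j) i0 η
  rel : ∀ j, Rel D g (U : Filter ℕ) (Λ j) (Λ (j + 1)) (x j) (x (j + 1)) η η
  hA : (idealOfVars (Option (Fin (N + 1))) Ω) ^ A ≤ fib D g i0 i0 η η ⊔
    (idealOfVars (Option (Fin (N + 1))) Ω) ^ (A + 1)
  hAD : A ≤ D
  rate0 : ∃ ρ : ℝ, 0 < ρ ∧ ∀ i, Ord U (Λ 0) ρ (fun n => x 0 n i / x 0 n i0 - η i)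

variable {D A : ℕ} {g : Fin (N + 1) → MvPolynomial (Fin (N + 1)) k} {U : Ultrafilter ℕ}
  {Λ : ℕ → ℕ → ℝ} {x : ℕ → ℕ → Fin (N + 1) → Ω} {i0 : Fin (N + 1)} {η : Fin (N + 1) → Ω}

/-- the rate at all levels -/
theorem Towb.rate (T : Towb D A g U Λ x i0 η) : ∃ δ : ℝ, 0 < δ ∧ ∀ j o,
    Ord U (Λ j) δ (fun n => pt (x j) i0 η n o) := by
  obtain ⟨ρ, hρ, hρ0⟩ := T.rate0
  have hA1 : 1 ≤ A := (T.rel 0).one_le' (T.ch 0) T.hA
  have hA0 : (0 : ℝ) < A := by exact_mod_cast hA1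
  have hA1' : (1 : ℝ) ≤ A := by exact_mod_cast hA1
  have hAD : (A : ℝ) ≤ D := by exact_mod_cast T.hAD
  set δ : ℝ := min ρ (1 / A) with hδ
  have hδ0 : 0 < δ := lt_min hρ (by positivity)
  have hδ1 : δ * A ≤ 1 := by
    have h1 : δ ≤ 1 / A := min_le_right _ _
    rwa [le_div_iff₀ hA0] at h1
  have hδ2 : δ ≤ 1 := by nlinarith
  have hδ3 : δ ≤ min 1 (D * δ) / A := by
    rw [le_div_iff₀ hA0]
    apply le_min hδ1
    nlinarith
  have main : ∀ j i, Ord U (Λ j) δ (fun n => x j n i / x j n i0 - η i) := by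
    intro j
    induction j with
    | zero =>
      intro i
      exact Ord.mono (T.ch 0).hΛ (hρ0 i) (min_le_left _ _)
    | succ j ih =>
      intro i
      exact Ord.mono (T.ch (j + 1)).hΛ
        ((T.rel j).rate' (T.ch j) (T.ch (j + 1)) T.hA ih (some i)) hδ3
  refine ⟨δ, hδ0, fun j o => ?_⟩
  cases o with
  | none => exact Ord.mono (T.ch j).hΛ (T.ch j).o1 hδ2
  | some i => exact main j i

/-- the chart at a family of levels -/
lemma Towb.chJ (T : Towb D A g U Λ x i0 η) (Hy : Ultrafilter ℕ) (J : ℕ → ℕ) (q : ℕ) :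
    Ch (PF Hy U) (fun m : ℕ => Λ (J m.unpair.1 + q) m.unpair.2)
      (fun m => x (J m.unpair.1 + q) m.unpair.2) i0 η :=
  ch_lv Hy U (fun a => J a + q) Λ x i0 η fun a => T.ch (J a + q)

lemma Towb.relJ (T : Towb D A g U Λ x i0 η) (Hy : Ultrafilter ℕ) (J : ℕ → ℕ) (q : ℕ) :
    Rel D g (PF Hy U : Filter ℕ) (fun m : ℕ => Λ (J m.unpair.1 + q) m.unpair.2)
      (fun m : ℕ => Λ (J m.unpair.1 + (q + 1)) m.unpair.2)
      (fun m => x (J m.unpair.1 + q) m.unpair.2)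
      (fun m => x (J m.unpair.1 + (q + 1)) m.unpair.2) η η :=
  rel_lv Hy U (fun a => J a + q) Λ x η η fun a => T.rel (J a + q)

/-- **The growth of the colengths.** -/
theorem Towb.grow (T : Towb D A g U Λ x i0 η) (s0 : ℝ) : ∃ c : ℕ, ∀ (Hy : Ultrafilter ℕ)
    (J : ℕ → ℕ) (q : ℕ) (𝔷 : Ideal (MvPolynomial (Option (Fin (N + 1))) Ω)) (e : ℕ),
    𝔷 ≤ Idl (T.chJ Hy J q).hΛ (T.chJ Hy J q).lim ((D : ℝ) ^ q * s0) →
    Sp Ω e (𝔷 ⊔ Ideal.span {X none} ⊔ (idealOfVars (Option (Fin (N + 1))) Ω) ^ (A ^ q)) →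
    Sp Ω (c * (D ^ q * e)) (Idl (T.chJ Hy J q).hΛ (T.chJ Hy J q).lim ((D : ℝ) ^ q * s0)) := by
  obtain ⟨δ, hδ, hr⟩ := T.rate
  have hpow : ∀ s : ℝ, ∃ K : ℕ, ∀ (Hy : Ultrafilter ℕ) (J : ℕ → ℕ) (q : ℕ),
      (idealOfVars (Option (Fin (N + 1))) Ω) ^ K ≤
        Idl (T.chJ Hy J q).hΛ (T.chJ Hy J q).lim s := by
    intro s
    obtain ⟨K, hK⟩ := exists_nat_ge (s / δ)
    refine ⟨K, fun Hy J q => idealOfVars_pow_le _ _ (δ := δ) ?_ fun o => ?_⟩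
    · rwa [div_le_iff₀ hδ] at hK
    · exact ord_lv Hy U (fun a => J a + q) Λ δ (fun j n => pt (x j) i0 η n o)
        fun a => hr (J a + q) o
  obtain ⟨K0, hK0⟩ := hpow s0
  obtain ⟨c, hc⟩ := sp_pow (Ω := Ω) (σ := Option (Fin (N + 1))) K0
  refine ⟨c, fun Hy J q 𝔷 e hz he => ?_⟩
  have hst : ∀ q : ℕ, St (Idl (T.chJ Hy J 0).hΛ (T.chJ Hy J 0).lim s0)
      (Idl (T.chJ Hy J q).hΛ (T.chJ Hy J q).lim ((D : ℝ) ^ q * s0)) (D ^ q) (A ^ q) := by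
    intro q
    induction q with
    | zero =>
      rw [pow_zero, pow_zero, pow_zero, one_mul]
      exact St.refl _
    | succ q ih =>
      obtain ⟨K, hK⟩ := hpow ((D : ℝ) * ((D : ℝ) ^ q * s0))
      have h1 := (T.relJ Hy J q).st (T.chJ Hy J q) (T.chJ Hy J (q + 1)) (hK Hy J (q + 1)) T.hA ih
      have e1 : (D : ℝ) ^ (q + 1) * s0 = (D : ℝ) * ((D : ℝ) ^ q * s0) := by ring
      have e2 : D ^ (q + 1) = D * D ^ q := pow_succ' _ _
      have e3 : A ^ (q + 1) = A * A ^ q := pow_succ' _ _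
      rw [e1, e2, e3]
      exact h1
  obtain ⟨K, hK⟩ := hpow ((D : ℝ) ^ q * s0)
  exact (hst q).sp (hK Hy J q) hz (hc.mono (hK0 Hy J 0)) he

section nilp

variable {d : ℕ} {f : Fin (N + 1) → MvPolynomial (Fin (N + 1)) k}

end nilp

end Pool.Agent.KS6_82.CC
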