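import Mathlib
import Pool.Agent.KS6_82.CC.Tw
import Pool.Agent.KS6_82.CC.Twb
import Pool.Agent.KS6_82.CC.Nil
import Pool.Agent.KS6_82.CC.Iter
import Pool.Agent.KS6_82.CC.Hil

/-!
# The tower of charts of an orbit at a periodic point
-/

set_option autoImplicit false

namespace Pool.Agent.KS6_82.CC

open Filter Topology MvPolynomial Pool.Agent.R847.SN Pool.Agent.R847.SB

section alg

variable {k : Type} [Field k] {N d : ℕ} {E : Type} [Field E] [Algebra k E]

/-- the map at infinity of the iterate -/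
lemma aeval_top_it (hd : 1 ≤ d) (f : Fin (N + 1) → MvPolynomial (Fin (N + 1)) k)
    (hdeg : ∀ i, (f i).totalDegree ≤ d) (L : ℕ) (i : Fin (N + 1)) (z : Fin (N + 1) → E) :
    aeval z (homogeneousComponent (d ^ L) (it f L i)) = (Fs d f)^[L] z i := by
  rw [top_it hd hdeg, it_eval]
  rfl

/-- The points of a backward orbit at the multiples of a period. -/
lemma cyc_mul (f : Fin (N + 1) → MvPolynomial (Fin (N + 1)) k) (y : ℕ → Fin (N + 1) → E)
    (hy : ∀ j i, aeval (y (j + 1)) (homogeneousComponent d (f i)) = y j i) (l : ℕ) (hl : 1 ≤ l)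
    (hPR : ∀ j, PR (y (j + l)) (y j)) (L : ℕ) (c : E) (hc : c ≠ 0)
    (hL : (Fs d f)^[L] (y 0) = c • y 0) (j : ℕ) : PR (y (j * L)) (y 0) := by
  have hmul : ∀ t : ℕ, ∃ c : E, c ≠ 0 ∧ (Fs d f)^[L * t] (y 0) = c • y 0 := by
    intro t
    induction t with
    | zero => exact ⟨1, one_ne_zero, by simp⟩
    | succ t ih =>
      obtain ⟨c', hc', h⟩ := ih
      refine ⟨c ^ d ^ (L * t) * c', mul_ne_zero (pow_ne_zero _ hc) hc', ?_⟩
      have e1 : L * (t + 1) = L * t + L := by ring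
      rw [e1, Function.iterate_add_apply, hL, Fs_iter_smul, h, smul_smul]
  obtain ⟨l', rfl⟩ : ∃ l', l = l' + 1 := ⟨l - 1, by omega⟩
  obtain ⟨τ, hτ, h⟩ := PR_mul' y (l' + 1) hPR (j * L) 0
  have e1 : y (0 + (l' + 1) * (j * L)) = τ • y 0 := funext h
  have e2 := Fs_iter f y hy (j * L) (L * (j * l'))
  have e3 : j * L + L * (j * l') = 0 + (l' + 1) * (j * L) := by ring
  obtain ⟨c', hc', h'⟩ := hmul (j * l')
  rw [e3, e1, Fs_iter_smul, h', smul_smul] at e2
  refine ⟨τ ^ d ^ (L * (j * l')) * c', mul_ne_zero (pow_ne_zero _ hτ) hc', fun i => ?_⟩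
  rw [← e2, Pi.smul_apply, smul_eq_mul]

/-- iterates of the polynomial map along the orbit -/
lemma aeval_it (f : Fin (N + 1) → MvPolynomial (Fin (N + 1)) k) (x : ℕ → Fin (N + 1) → k)
    (hx : ∀ n i, x (n + 1) i = aeval (x n) (f i)) (L m : ℕ) (i : Fin (N + 1)) :
    aeval (x m) (it f L i) = x (m + L) i := by
  rw [it_eval]
  have h1 : ∀ (L m : ℕ), (fun (w : Fin (N + 1) → k) i => aeval w (f i))^[L] (x m) = x (m + L) := by
    intro L
    induction L with
    | zero => intro m; rfl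
    | succ L ih =>
      intro m
      rw [Function.iterate_succ_apply]
      have h2 : (fun i => aeval (x m) (f i)) = x (m + 1) := by
        funext i
        exact (hx m i).symm
      show (fun (w : Fin (N + 1) → k) i => aeval w (f i))^[L] (fun i => aeval (x m) (f i)) = _
      rw [h2, ih]
      congr 1
      omega
  rw [h1]

end alg

section tow

variable {k : Type} [Field k] {N d : ℕ} {f : Fin (N + 1) → MvPolynomial (Fin (N + 1)) k}
  {U : Ultrafilter ℕ} {x : ℕ → Fin (N + 1) → k} {W : AbsoluteValue (AlgebraicClosure k) ℝ}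

/-- **Small linear forms along pairs of indices.** -/
theorem small_formsE (L0 : Loc d f U x W) (hX : LocX L0) (hY : LocY L0) (hd : 1 ≤ d)
    (hdeg : ∀ i, (f i).totalDegree ≤ d) (hx : ∀ n i, x (n + 1) i = aeval (x n) (f i))
    (hU : (U : Filter ℕ) ≤ atTop) (l : ℕ) (hl : 1 ≤ l) (hPR : ∀ j, PR (L0.y (j + l)) (L0.y j))
    (L A : ℕ) (c : AlgebraicClosure k) (hc : c ≠ 0) (hL : (Fs d f)^[L] (L0.y 0) = c • L0.y 0)
    (hAD : A ≤ d ^ L) (i0 : Fin (N + 1)) (hi0 : L0.y 0 i0 ≠ 0)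
    (hA : pI (L0.y 0) ^ A ≤ fI (tf (d ^ L) (it f L) (AlgebraicClosure k)) (L0.y 0) i0 (A + 1))
    (s0 : ℝ) (hs0 : 0 ≤ s0) :
    1 ≤ A ∧ ∃ c : ℕ, ∀ (Hy : Ultrafilter ℕ) (J : ℕ → ℕ) (q M e : ℕ)
      (p : Ideal (MvPolynomial (Fin (N + 1)) k)), 1 ≤ M → A ^ q ≤ M →
      (∀ g ∈ p, ∀ᶠ m : ℕ in PF Hy U, aeval (x (m.unpair.2 - (J m.unpair.1 + q) * L)) g = 0) →
      Hf p M - Hf p (M - 1) ≤ e → ∀ (n D : ℕ)
      (P : Fin n → MvPolynomial (Fin (N + 1)) k), (∀ e, (P e).totalDegree ≤ D) →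
      ∃ B : Fin n → Fin n → AlgebraicClosure k, (Matrix.of B).det ≠ 0 ∧ ∃ w : Fin n → ℝ,
        ((n : ℝ) - ((c * ((d ^ L) ^ q * e) : ℕ) : ℝ)) * (((d : ℝ) ^ L) ^ q * s0) ≤ ∑ a, w a ∧
        ∀ᶠ m : ℕ in PF Hy U, ∀ a, W (∑ e, B a e * algebraMap k _
          (aeval (x (m.unpair.2 - (J m.unpair.1 + q) * L)) (P e))) ≤
          Real.exp (((D : ℝ) - w a + 1 / 2) * L0.Λ ((J m.unpair.1 + q) * L) m.unpair.2) := by
  classical
  obtain ⟨s, z, hsΛ, hsne, hp, hz, ρ, hρ, Cρ, hrate⟩ := hY.ex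
  let iN : NormedField (AlgebraicClosure k) := W.toNormedField
  have hnorm : ∀ a : AlgebraicClosure k, ‖a‖ = W a := fun a => rfl
  set η : Fin (N + 1) → AlgebraicClosure k := fun i => L0.y 0 i / L0.y 0 i0 with hη
  set X' : ℕ → ℕ → Fin (N + 1) → AlgebraicClosure k := fun j n i =>
    algebraMap k _ (x (n - j * L) i) with hX'
  have hz' : ∀ j i, Tendsto (fun n => z j n i) U (𝓝 (L0.y j i)) := by
    intro j i
    rw [tendsto_iff_norm_sub_tendsto_zero]
    rw [Metric.tendsto_nhds]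
    intro ε hε
    filter_upwards [hz j i ε hε] with n hn
    rw [Real.dist_eq, sub_zero, abs_of_nonneg (norm_nonneg _)]
    exact hn
  have hyj : ∀ j, L0.y (j * L) i0 ≠ 0 ∧ (fun i => L0.y (j * L) i / L0.y (j * L) i0) = η := by
    intro j
    obtain ⟨τ, hτ, h⟩ := cyc_mul f L0.y L0.hy l hl hPR L c hc hL j
    refine ⟨?_, ?_⟩
    · rw [h]
      exact mul_ne_zero hτ hi0
    · funext i
      rw [h, h, mul_div_mul_left _ _ hτ]
  have hch : ∀ j, Ch U (L0.Λ (j * L)) (X' j) i0 η := by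
    intro j
    have h1 := ch_of (L0.hΛ (j * L)) (Eventually.of_forall fun n => hsΛ (j * L) n)
      (hsne (j * L)) (hp (j * L)) (hz' (j * L)) (hyj j).1
    rw [(hyj j).2] at h1
    exact h1
  have hηL : ∃ c : AlgebraicClosure k, c ≠ 0 ∧
      ∀ i, aeval η (homogeneousComponent (d ^ L) (it f L i)) = c * η i := by
    refine ⟨(L0.y 0 i0)⁻¹ ^ d ^ L * c * L0.y 0 i0,
      mul_ne_zero (mul_ne_zero (pow_ne_zero _ (inv_ne_zero hi0)) hc) hi0, fun i => ?_⟩
    rw [aeval_top_it hd f hdeg]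
    have h1 : η = (L0.y 0 i0)⁻¹ • L0.y 0 := by
      funext i
      show L0.y 0 i / L0.y 0 i0 = _
      rw [Pi.smul_apply, smul_eq_mul, div_eq_inv_mul]
    rw [h1, Fs_iter_smul, hL]
    simp only [Pi.smul_apply, smul_eq_mul]
    field_simp
  obtain ⟨cη, hcη, hcηL⟩ := hηL
  have hη0 : ∀ i, L0.y 0 i = L0.y 0 i0 * η i := by
    intro i
    rw [hη]
    simp only
    rw [mul_div_cancel₀ _ hi0]
  have hnil : (idealOfVars (Option (Fin (N + 1))) (AlgebraicClosure k)) ^ A ≤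
      fib (d ^ L) (it f L) i0 i0 η η ⊔
        (idealOfVars (Option (Fin (N + 1))) (AlgebraicClosure k)) ^ (A + 1) :=
    nil_fib hη0 hi0 hcηL hA
  have hΛL : ∀ m t : ℕ, ∀ᶠ n in U, L0.Λ m n = (d : ℝ) ^ t * L0.Λ (m + t) n := by
    intro m t
    induction t with
    | zero => exact Eventually.of_forall fun n => by simp
    | succ t ih =>
      filter_upwards [ih, hX.Λd (m + t)] with n h1 h2
      rw [h1, h2, pow_succ, ← add_assoc, mul_assoc]
  have hrel : ∀ j, Rel (d ^ L) (it f L) (U : Filter ℕ) (L0.Λ (j * L)) (L0.Λ ((j + 1) * L))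
      (X' j) (X' (j + 1)) η η := by
    intro j
    refine ⟨Nat.one_le_pow _ _ hd, fun i => it_deg hdeg L i, ?_, ?_, cη, hcη, hcηL⟩
    · filter_upwards [hΛL (j * L) L] with n hn
      rw [hn]
      push_cast
      congr 2
      ring
    · have h0 : ∀ᶠ n in U, (j + 1) * L ≤ n := hU (eventually_ge_atTop _)
      filter_upwards [h0] with n hn i
      rw [hX']
      simp only
      rw [← map_aevalk, aeval_it f x hx]
      congr 3
      rw [add_mul, one_mul] at hn ⊢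
      omega
  have hT : Towb (Ω := AlgebraicClosure k) (d ^ L) A (it f L) U (fun j => L0.Λ (j * L)) X' i0
      η := by
    refine ⟨hch, hrel, hnil, hAD, ρ, hρ, ?_⟩
    intro i
    have e1 : X' 0 = fun n i => algebraMap k (AlgebraicClosure k) (x (n - 0) i) := by
      funext n i
      rw [hX']
      simp only
      rw [zero_mul]
    have e2 : L0.Λ (0 * L) = L0.Λ 0 := by rw [zero_mul]
    simp only [e2]
    rw [e1]
    refine rate_of (L0.hΛ 0) (hsne 0) (hp 0) (hz' 0) hi0 (fun i => ?_) i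
    apply Ord.of_bound (L0.hΛ 0) |Cρ|
    intro ε hε
    filter_upwards [hrate i, (L0.hΛ 0).eventually_ge_atTop 0] with n h1 h2
    rw [hnorm]
    refine h1.trans (mul_le_mul (le_abs_self _) (Real.exp_le_exp.2 ?_) (Real.exp_pos _).le
      (abs_nonneg _))
    nlinarith
  refine ⟨(hrel 0).one_le' (hch 0) hnil, ?_⟩
  obtain ⟨c, hc⟩ := hT.grow s0
  refine ⟨c, fun Hy J q M e p hM hqM hpz he n D P hP => ?_⟩
  set 𝔷 : Ideal (MvPolynomial (Option (Fin (N + 1))) (AlgebraicClosure k)) :=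
    Ideal.span ({X (some i0)} ∪ {G | ∃ g ∈ p, g.totalDegree ≤ M ∧ G = Hc η M g}) with h𝔷
  have h𝔷le : 𝔷 ≤ Idl (hT.chJ Hy J q).hΛ (hT.chJ Hy J q).lim (((d ^ L : ℕ) : ℝ) ^ q * s0) := by
    rw [h𝔷, Ideal.span_le]
    rintro G (rfl | ⟨g, hg, hgM, rfl⟩)
    · rw [SetLike.mem_coe, mem_Idl]
      refine (ord_zero_fun _).congr ?_
      filter_upwards [(hT.chJ Hy J q).ne] with m hm
      rw [eval_X]
      show 0 = X' (J m.unpair.1 + q) m.unpair.2 i0 / X' (J m.unpair.1 + q) m.unpair.2 i0 - η i0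
      rw [(hT.chJ Hy J q).one, div_self hm, sub_self]
    · rw [SetLike.mem_coe, mem_Idl]
      refine (ord_zero_fun _).congr ?_
      filter_upwards [(hT.chJ Hy J q).ne, hpz g hg] with m hm hm'
      have h1 := eval_pt_Hc (fun m => X' (J m.unpair.1 + q) m.unpair.2) i0 η m M g hgM hm
      have h2 : aeval (X' (J m.unpair.1 + q) m.unpair.2) g = 0 := by
        rw [hX']
        simp only
        rw [← map_aevalk, hm', map_zero]
      rw [h2] at h1
      exact ((mul_eq_zero.1 h1.symm).resolve_left (pow_ne_zero _ hm)).symm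
  have hsp : Sp (AlgebraicClosure k) e (𝔷 ⊔ Ideal.span {X none} ⊔
      (idealOfVars (Option (Fin (N + 1))) (AlgebraicClosure k)) ^ (A ^ q)) := by
    have h1 := sp_hilb p η i0 (hch 0).one 𝔷 (Ideal.subset_span (Or.inl rfl)) M hM
      (fun g hg hgM => Ideal.subset_span (Or.inr ⟨g, hg, hgM, rfl⟩))
    refine (h1.mono ?_).mono_left he
    exact sup_le_sup_left (Ideal.pow_le_pow_right (by omega)) _
  have h2 := hc Hy J q 𝔷 e h𝔷le hsp
  obtain ⟨B, hB, w, hw, hbd⟩ := exists_forms (hT.chJ Hy J q) (s := ((d ^ L : ℕ) : ℝ) ^ q * s0)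
    (by positivity) h2 n D P hP
  refine ⟨B, hB, w, ?_, ?_⟩
  · refine le_trans (le_of_eq ?_) hw
    push_cast
    ring
  filter_upwards [hbd (1 / 2) (by norm_num)] with m hm a
  have h1 := hm a
  rw [hnorm] at h1
  refine le_trans (le_of_eq ?_) h1
  congr 1
  refine Finset.sum_congr rfl fun e _ => ?_
  rw [map_aevalk]

end tow

end Pool.Agent.KS6_82.CC
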