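import Mathlib
import Pool.Agent.KS6_82.CC.TwE
import Pool.Agent.KS6_82.CC.Fin
import Pool.Agent.KS6_82.CC.Num

/-!
# The equations of the predecessors repeat: the nilpotency condition
-/

set_option autoImplicit false

namespace Pool.Agent.KS6_82.CC

open Filter Topology MvPolynomial Pool.Agent.R847.SN Pool.Agent.R847.SB

section basis

variable {k : Type} [Field k] {N : ℕ} (p : Ideal (MvPolynomial (Fin (N + 1)) k))

/-- polynomials of bounded degree independent modulo an ideal -/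
lemma exists_indep (D : ℕ) : ∃ P : Fin (Hf p D) → MvPolynomial (Fin (N + 1)) k,
    (∀ e, (P e).totalDegree ≤ D) ∧ ∀ a : Fin (Hf p D) → k, ∑ e, C (a e) * P e ∈ p → a = 0 := by
  classical
  set b := Module.finBasis k (Wd p D) with hb
  have hlift : ∀ i, ∃ g : MvPolynomial (Fin (N + 1)) k, g.totalDegree ≤ D ∧
      Ideal.Quotient.mk p g = b i := fun i => (mem_Wd p D _).1 (b i).2
  choose P hP hPb using hlift
  refine ⟨P, hP, fun a ha => ?_⟩
  rw [← Ideal.Quotient.eq_zero_iff_mem, map_sum] at ha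
  have h1 : ∑ i, a i • b i = 0 := by
    apply Subtype.ext
    rw [Submodule.coe_sum, ZeroMemClass.coe_zero, ← ha]
    refine Finset.sum_congr rfl fun i _ => ?_
    rw [Submodule.coe_smul, ← hPb i, C_mul']
    rfl
  funext i
  exact Fintype.linearIndependent_iff.1 b.linearIndependent _ h1 i

/-- a relation from a small Hilbert function -/
lemma exists_dep (E M : ℕ) (g : MvPolynomial (Fin (N + 1)) k) (hg : g.totalDegree + 1 ≤ E)
    (i : Fin (N + 1)) (hH : Hf p (M * E) < M * M) : ∃ c : Fin M × Fin M → k, c ≠ 0 ∧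
      ∑ p, C (c p) * (X i ^ (p.2 : ℕ) * g ^ (p.1 : ℕ)) ∈ p := by
  classical
  have hdeg : ∀ q : Fin M × Fin M,
      (X i ^ (q.2 : ℕ) * g ^ (q.1 : ℕ) : MvPolynomial (Fin (N + 1)) k).totalDegree ≤ M * E := by
    intro q
    refine (totalDegree_mul _ _).trans ?_
    have h1 : (X i ^ (q.2 : ℕ) : MvPolynomial (Fin (N + 1)) k).totalDegree ≤ M := by
      rw [totalDegree_X_pow]
      exact q.2.2.le
    have h2 : (g ^ (q.1 : ℕ)).totalDegree ≤ M * g.totalDegree := by
      refine (totalDegree_pow _ _).trans ?_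
      exact Nat.mul_le_mul_right _ q.1.2.le
    calc _ ≤ M + M * g.totalDegree := add_le_add h1 h2
      _ = M * (g.totalDegree + 1) := by ring
      _ ≤ M * E := Nat.mul_le_mul_left _ hg
  set v : Fin M × Fin M → Wd p (M * E) := fun q =>
    ⟨Ideal.Quotient.mk p (X i ^ (q.2 : ℕ) * g ^ (q.1 : ℕ)), (mem_Wd p _ _).2 ⟨_, hdeg q, rfl⟩⟩
    with hv
  have h1 : ¬ LinearIndependent k v := by
    intro hli
    have h2 := hli.fintype_card_le_finrank
    rw [Fintype.card_prod, Fintype.card_fin] at h2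
    exact absurd h2 (not_le.2 hH)
  obtain ⟨r, hr, q0, hq0⟩ := Fintype.not_linearIndependent_iff.1 h1
  refine ⟨r, fun h => hq0 (congrFun h q0), ?_⟩
  rw [← Ideal.Quotient.eq_zero_iff_mem, map_sum]
  have h3 := congrArg (fun w : Wd p (M * E) => (w : MvPolynomial (Fin (N + 1)) k ⧸ p)) hr
  simp only [Submodule.coe_sum, Submodule.coe_smul, ZeroMemClass.coe_zero] at h3
  rw [← h3]
  refine Finset.sum_congr rfl fun q _ => ?_
  rw [C_mul']
  rfl

end basis

section main

variable {k : Type} [Field k] [NumberField k] {N d : ℕ}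
  {f : Fin (N + 1) → MvPolynomial (Fin (N + 1)) k}
  {U : Ultrafilter ℕ} {x : ℕ → Fin (N + 1) → k}

/-- the relations -/
theorem exists_relE (G : Glob d f U x) (hX : ∀ v, LocX (G.loc v)) (hY : ∀ v, LocY (G.loc v))
    (hd : 2 ≤ d) (hdeg : ∀ i, (f i).totalDegree ≤ d) (v : G.big)
    (l : ℕ) (hl : 1 ≤ l) (hPR : ∀ j, PR ((G.loc v).y (j + l)) ((G.loc v).y j))
    (L A : ℕ) (c : AlgebraicClosure k) (hc : c ≠ 0)
    (hL : (Fs d f)^[L] ((G.loc v).y 0) = c • (G.loc v).y 0)
    (hAD : A < d ^ L) (i0 : Fin (N + 1)) (hi0 : (G.loc v).y 0 i0 ≠ 0)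
    (hA : pI ((G.loc v).y 0) ^ A ≤
      fI (tf (d ^ L) (it f L) (AlgebraicClosure k)) ((G.loc v).y 0) i0 (A + 1))
    (Hy : Ultrafilter ℕ) (hHy : (Hy : Filter ℕ) ≤ atTop)
    (g : MvPolynomial (Fin (N + 1)) k) (i : Fin (N + 1)) : ∃ (M : ℕ)
      (c : Fin M × Fin M → k), c ≠ 0 ∧
      ∑ p, C (c p) * (X i ^ (p.2 : ℕ) * g ^ (p.1 : ℕ)) ∈ Pgen Hy U x L := by
  classical
  obtain ⟨A', hA', hcon⟩ := contraP G hX hd v
  set s0 : ℝ := 4 * A' with hs0
  obtain ⟨hA1, C0, hC0⟩ := small_formsE (G.loc v) (hX v) (hY v) (by omega) hdeg G.hx G.hU l hl hPR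
    L A c hc hL hAD.le i0 hi0 hA s0 (by positivity)
  set p := Pgen Hy U x L with hp
  set D0 := d ^ L with hD0
  have hD01 : 1 ≤ D0 := Nat.one_le_pow _ _ (by omega)
  -- the bound for the Hilbert function
  have hbound : ∀ q : ℕ, A ^ q * Hf p (D0 ^ q) ≤
      (2 * C0 + 1) * (D0 ^ q * (Hf p (2 * A ^ q) + 1)) := by
    intro q
    have hAq : 1 ≤ A ^ q := Nat.one_le_pow _ _ hA1
    have hDq : 1 ≤ D0 ^ q := Nat.one_le_pow _ _ hD01
    have hADq : A ^ q ≤ D0 ^ q := Nat.pow_le_pow_left hAD.le q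
    obtain ⟨M, hM, hMe⟩ := exists_small p (A ^ q) hAq
    set e := Hf p M - Hf p (M - 1) with he
    set b := C0 * (D0 ^ q * e) with hb
    -- the Hilbert function is small
    have hkey : Hf p (D0 ^ q) ≤ 2 * b + 1 := by
      by_contra hlt
      push Not at hlt
      obtain ⟨n0, hn0⟩ : ∃ n0, Hf p (D0 ^ q) = n0 + 1 := ⟨Hf p (D0 ^ q) - 1, by omega⟩
      obtain ⟨P', hP'deg, hP'ind⟩ : ∃ P : Fin (n0 + 1) → MvPolynomial (Fin (N + 1)) k,
          (∀ e, (P e).totalDegree ≤ D0 ^ q) ∧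
          ∀ a : Fin (n0 + 1) → k, ∑ e, C (a e) * P e ∈ p → a = 0 := by
        have h1 := exists_indep p (D0 ^ q)
        rw [hn0] at h1
        exact h1
      set J : ℕ → ℕ := fun a => a - q with hJ
      obtain ⟨B, hB, w, hw, hbd⟩ := hC0 Hy J q M e p (by omega) hM (by
        intro g hg
        rw [hp, mem_Pgen] at hg
        rw [ev_PF]
        filter_upwards [hg, hHy (eventually_ge_atTop q)] with a h1 h2
        rw [mem_Pid] at h1
        filter_upwards [h1] with n h3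
        rw [Nat.unpair_pair]
        have h4 : J a + q = a := by
          rw [hJ]
          simp only
          omega
        simp only [h4]
        exact h3) le_rfl (n0 + 1) (D0 ^ q) P' hP'deg
      refine hcon Hy (fun a => (J a + q) * L) n0 (D0 ^ q) (by omega) P' hP'deg ?_ B hB w hbd ?_
      · intro a ha
        have h1 : ¬ ∑ t, C (a t) * P' t ∈ p := fun h => ha (hP'ind a h)
        rw [hp, mem_Pgen] at h1
        rw [ev_PF]
        have h3 : ∀ᶠ a' in Hy, ¬ (∑ t, C (a t) * P' t) ∈ Pid U x (a' * L) :=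
          Ultrafilter.eventually_not.2 h1
        filter_upwards [h3, hHy (eventually_ge_atTop q)] with a' h4 h5
        rw [mem_Pid] at h4
        have h6 : ∀ᶠ n in U, ¬ aeval (x (n - a' * L)) (∑ t, C (a t) * P' t) = 0 :=
          Ultrafilter.eventually_not.2 h4
        filter_upwards [h6] with n h7 h8
        apply h7
        rw [Nat.unpair_pair] at h8
        have h9 : J a' + q = a' := by
          rw [hJ]
          simp only
          omega
        simp only [h9] at h8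
        rw [map_sum, ← h8]
        refine Finset.sum_congr rfl fun t _ => ?_
        rw [map_mul, aeval_C]
        rfl
      · refine le_trans ?_ hw
        have e1 : 2 * ((b : ℕ) : ℝ) ≤ (n0 : ℝ) + 1 := by
          have : 2 * b ≤ n0 + 1 := by omega
          exact_mod_cast this
        have e2 : ((D0 ^ q : ℕ) : ℝ) = ((d : ℝ) ^ L) ^ q := by
          rw [hD0]
          push_cast
          ring
        have e3 : (1 : ℝ) ≤ ((d : ℝ) ^ L) ^ q := by
          rw [← e2]
          exact_mod_cast hDq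
        have e4 : ((n0 + 1 : ℕ) : ℝ) = (n0 : ℝ) + 1 := by push_cast; ring
        rw [e4, e2, hs0]
        have hn : (0 : ℝ) ≤ (n0 : ℝ) + 1 := by positivity
        have h1 : ((n0 : ℝ) + 1) * (((d : ℝ) ^ L) ^ q + 1) * A' ≤
            ((n0 : ℝ) + 1) * (2 * ((d : ℝ) ^ L) ^ q) * A' := by
          apply mul_le_mul_of_nonneg_right _ hA'.le
          apply mul_le_mul_of_nonneg_left _ hn
          linarith
        have h2 : ((n0 : ℝ) + 1) / 2 * (((d : ℝ) ^ L) ^ q * (4 * A')) ≤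
            ((n0 : ℝ) + 1 - (b : ℝ)) * (((d : ℝ) ^ L) ^ q * (4 * A')) := by
          apply mul_le_mul_of_nonneg_right _ (by positivity)
          linarith
        refine h1.trans (le_trans (le_of_eq ?_) h2)
        ring
    calc A ^ q * Hf p (D0 ^ q) ≤ A ^ q * (2 * b + 1) := Nat.mul_le_mul_left _ hkey
      _ = 2 * C0 * (D0 ^ q * (A ^ q * e)) + A ^ q := by rw [hb]; ring
      _ ≤ 2 * C0 * (D0 ^ q * Hf p (2 * A ^ q)) + D0 ^ q := by
          apply add_le_add _ hADq
          exact Nat.mul_le_mul_left _ (Nat.mul_le_mul_left _ hMe)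
      _ ≤ (2 * C0 + 1) * (D0 ^ q * (Hf p (2 * A ^ q) + 1)) := by
          have h1 : (2 * C0 + 1) * (D0 ^ q * (Hf p (2 * A ^ q) + 1)) =
              2 * C0 * (D0 ^ q * Hf p (2 * A ^ q)) + D0 ^ q +
              (2 * C0 * D0 ^ q + D0 ^ q * Hf p (2 * A ^ q)) := by ring
          rw [h1]
          exact Nat.le_add_right _ _
  obtain ⟨M, hM, hHM⟩ := growth (Hf p) (fun a b h => Hf_mono p h) (N + 1) (Hf_le p) A D0 hA1 hAD
    (2 * C0 + 1) hbound (g.totalDegree + 1) (by omega)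
  obtain ⟨c, hc, h⟩ := exists_dep p (g.totalDegree + 1) M g le_rfl i hHM
  exact ⟨M, c, hc, h⟩

/-- Almost all return points have a fixed arithmetic progression of returns. -/
theorem fin_nil (G : Glob d f U x) (hX : ∀ v, LocX (G.loc v)) (hY : ∀ v, LocY (G.loc v))
    (hd : 2 ≤ d) (hdeg : ∀ i, (f i).totalDegree ≤ d) (v : G.big)
    (l : ℕ) (hl : 1 ≤ l) (hPR : ∀ j, PR ((G.loc v).y (j + l)) ((G.loc v).y j))
    (L A : ℕ) (hL1 : 1 ≤ L) (c : AlgebraicClosure k) (hc : c ≠ 0)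
    (hL : (Fs d f)^[L] ((G.loc v).y 0) = c • (G.loc v).y 0)
    (hAD : A < d ^ L) (i0 : Fin (N + 1)) (hi0 : (G.loc v).y 0 i0 ≠ 0)
    (hA : pI ((G.loc v).y 0) ^ A ≤
      fI (tf (d ^ L) (it f L) (AlgebraicClosure k)) ((G.loc v).y 0) i0 (A + 1)) :
    ∃ L ≥ 1, ∀ᶠ n in U, ∀ t, ∀ h : MvPolynomial (Fin (N + 1)) k,
      (∀ᶠ n' in U, aeval (x n') h = 0) → aeval (x (n + L * t)) h = 0 := by
  have hHy : ((hyperfilter ℕ : Ultrafilter ℕ) : Filter ℕ) ≤ atTop := by
    rw [← Nat.cofinite_eq_atTop]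
    exact hyperfilter_le_cofinite
  have hcoord : ∀ j, ∃ i, Coord U x j i := by
    intro j
    obtain ⟨i, hi⟩ := Function.ne_iff.1 ((G.loc v).hy0 j)
    exact ⟨i, (G.loc v).coord j i hi⟩
  obtain ⟨c, L, hL, hcL⟩ := exists_eq (hyperfilter ℕ) hHy L hL1 hcoord
    (exists_relE G hX hY hd hdeg v l hl hPR L A c hc hL hAD i0 hi0 hA (hyperfilter ℕ) hHy)
  exact ⟨L, hL, returns G.hx G.hU c L hcL⟩

end main

end Pool.Agent.KS6_82.CC
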