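import Mathlib
import Pool.Agent.KS6_82.CC.Fin

/-!
# Dynamical Mordell-Lang for curves at cycles at infinity of small local degree
-/

set_option autoImplicit false

open MvPolynomial Filter Topology Asymptotics

namespace Pool.Agent.KS6_82.CC

open Pool.Agent.R847.SN Pool.Agent.R847.SB

section cyc

variable {k : Type} [Field k] {N d : ℕ} {E : Type} [Field E] [Algebra k E]

/-- The points of a periodic backward orbit are the points of the cycle. -/
lemma cyc_pt (f : Fin (N + 1) → MvPolynomial (Fin (N + 1)) k) (y : ℕ → Fin (N + 1) → E)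
    (hy : ∀ j i, aeval (y (j + 1)) (homogeneousComponent d (f i)) = y j i) (l : ℕ) (hl : 1 ≤ l)
    (hPR : ∀ j, PR (y (j + l)) (y j)) (m : ℕ) :
    PR ((Fs d f)^[(l - m % l) % l] (y 0)) (y m) := by
  obtain ⟨t, ht⟩ : ∃ t, m + (l - m % l) % l = 0 + l * t := by
    have h1 := Nat.mod_add_div m l
    have h2 : m % l < l := Nat.mod_lt _ (by omega)
    rcases Nat.eq_zero_or_pos (m % l) with h3 | h3
    · refine ⟨m / l, ?_⟩
      rw [h3, Nat.sub_zero, Nat.mod_self]
      omega
    · refine ⟨m / l + 1, ?_⟩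
      rw [Nat.mod_eq_of_lt (by omega : l - m % l < l), mul_add, mul_one]
      omega
  obtain ⟨τ, hτ, h⟩ := PR_mul' y l hPR t 0
  have e1 : y (0 + l * t) = τ • y 0 := funext h
  have e2 := Fs_iter f y hy m ((l - m % l) % l)
  rw [ht, e1, Fs_iter_smul] at e2
  refine ⟨(τ ^ d ^ ((l - m % l) % l))⁻¹, inv_ne_zero (pow_ne_zero _ hτ), fun i => ?_⟩
  rw [← e2, Pi.smul_apply, smul_eq_mul, inv_mul_cancel_left₀ (pow_ne_zero _ hτ)]

lemma cyc_base (f : Fin (N + 1) → MvPolynomial (Fin (N + 1)) k) (y : ℕ → Fin (N + 1) → E)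
    (hy : ∀ j i, aeval (y (j + 1)) (homogeneousComponent d (f i)) = y j i) (l : ℕ)
    (hPR : ∀ j, PR (y (j + l)) (y j)) : ∃ c : E, c ≠ 0 ∧ (Fs d f)^[l] (y 0) = c • y 0 := by
  obtain ⟨τ, hτ, hτy⟩ := hPR 0
  have e1 : y (0 + l) = τ • y 0 := funext hτy
  have e2 := Fs_iter f y hy 0 l
  rw [e1, Fs_iter_smul] at e2
  refine ⟨(τ ^ d ^ l)⁻¹, inv_ne_zero (pow_ne_zero _ hτ), ?_⟩
  have e3 : (Fs d f)^[l] (y 0) = (τ ^ d ^ l)⁻¹ • (τ ^ d ^ l • (Fs d f)^[l] (y 0)) := by
    rw [smul_smul, inv_mul_cancel₀ (pow_ne_zero _ hτ), one_smul]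
  rw [e3, e2]

end cyc

lemma prod_refl (e : ℕ → ℕ) (l : ℕ) :
    ∏ i ∈ Finset.range l, e ((l - (i + 1) % l) % l) = ∏ i ∈ Finset.range l, e i := by
  rw [← Finset.prod_range_reflect e l]
  refine Finset.prod_congr rfl fun i hi => ?_
  rw [Finset.mem_range] at hi
  congr 1
  rcases Nat.lt_or_ge (i + 1) l with h | h
  · rw [Nat.mod_eq_of_lt h, Nat.mod_eq_of_lt (by omega)]
    omega
  · have h1 : i + 1 = l := by omega
    rw [h1, Nat.mod_self, Nat.sub_zero, Nat.mod_self]
    omega

section main

/-- from the complex multiplicity to the multiplicity over the algebraic closure -/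
lemma sp_down {k : Type} [Field k] [Algebra k ℂ] {N d : ℕ} (σ : AlgebraicClosure k →ₐ[k] ℂ)
    (f : Fin (N + 1) → MvPolynomial (Fin (N + 1)) k) (w : Fin (N + 1) → AlgebraicClosure k)
    (i : Fin (N + 1)) (K e : ℕ)
    (h : Module.finrank ℂ (MvPolynomial (Fin (N + 1)) ℂ ⧸
      fI (tf d f ℂ) (fun i => σ (w i)) i K) ≤ e) :
    Sp (AlgebraicClosure k) e (fI (tf d f (AlgebraicClosure k)) w i K) := by
  let iA : Algebra (AlgebraicClosure k) ℂ := σ.toRingHom.toAlgebra
  have h2 : FiniteDimensional ℂ (MvPolynomial (Fin (N + 1)) ℂ ⧸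
    fI (tf d f ℂ) (fun i => σ (w i)) i K) := fI_fd _ _ _ _
  have h3 := Sp.of_finrank h
  have h4 : (fI (tf d f (AlgebraicClosure k)) w i K).map
      (MvPolynomial.map (algebraMap (AlgebraicClosure k) ℂ)) =
      fI (tf d f ℂ) (fun i => σ (w i)) i K := by
    rw [fI_map]
    congr 1
    funext i'
    show MvPolynomial.map _ (MvPolynomial.map (algebraMap k (AlgebraicClosure k)) _) =
      MvPolynomial.map (algebraMap k ℂ) _
    have h6 : (algebraMap (AlgebraicClosure k) ℂ).comp (algebraMap k (AlgebraicClosure k)) =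
        algebraMap k ℂ := RingHom.ext fun a => σ.commutes a
    rw [MvPolynomial.map_map, h6]
  rw [← h4] at h3
  have h5 := fI_fd (tf d f (AlgebraicClosure k)) w i K
  exact Sp.descend _ h3

variable {k : Type} [Field k] [NumberField k] [Algebra k ℂ] {N : ℕ}

/-- **Dynamical Mordell-Lang for curves and regular polynomial endomorphisms.** -/
theorem dml_kc (d : ℕ) (hd : 2 ≤ d) (f : Fin (N + 1) → MvPolynomial (Fin (N + 1)) k)
    (hdeg : ∀ i, (f i).totalDegree ≤ d) (hreg : Reg d f)
    (V : Set (MvPolynomial (Fin (N + 1)) ℂ))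
    (hV : ∀ i j, ∃ P : MvPolynomial (Fin 2) ℂ, P ≠ 0 ∧
      ∀ z : Fin (N + 1) → ℂ, (∀ h ∈ V, eval z h = 0) → eval ![z i, z j] P = 0)
    (hper : ∀ z : Fin (N + 1) → ℂ, z ≠ 0 → AtInf V z → ∀ l ≥ 1, ∀ c : ℂ, c ≠ 0 →
      (Fs d f)^[l] z = c • z → ∃ e : ℕ → ℕ, (∀ i < l, ∀ K r, (Fs d f)^[i] z r ≠ 0 →
        Module.finrank ℂ (MvPolynomial (Fin (N + 1)) ℂ ⧸
          fI (tf d f ℂ) ((Fs d f)^[i] z) r K) ≤ e i) ∧
        ∏ i ∈ Finset.range l, e i < d ^ l)
    (x : ℕ → Fin (N + 1) → k) (hx : ∀ n i, x (n + 1) i = aeval (x n) (f i)) :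
    ∃ T : Finset (ℕ × ℕ), {n : ℕ | ∀ h ∈ V, eval (fun i => algebraMap k ℂ (x n i)) h = 0} =
      {n : ℕ | ∃ q ∈ T, ∃ m : ℕ, n = q.1 * m + q.2} := by
  classical
  set Z : Set ℕ := {n : ℕ | ∀ h ∈ V, eval (fun i => algebraMap k ℂ (x n i)) h = 0} with hZ
  apply Pool.Agent.R847.SG.compact_AP
  intro U hU hZU
  by_cases hinj : Function.Injective x
  · have hpair : ∀ i j, ∃ P : MvPolynomial (Fin 2) k, P ≠ 0 ∧
        ∀ᶠ n in U, aeval ![x n i, x n j] P = 0 := by
      intro i j
      obtain ⟨P, hP, hP0⟩ := hV i j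
      obtain ⟨κ, hκ⟩ := MvPolynomial.support_nonempty.2 hP
      obtain ⟨φ, hφ⟩ : ∃ φ : Module.Dual k ℂ, φ (coeff κ P) ≠ 0 := by
        by_contra hno
        push Not at hno
        exact (mem_support_iff.1 hκ) ((Module.forall_dual_apply_eq_zero_iff k _).1 hno)
      refine ⟨cmp φ P, ?_, ?_⟩
      · intro h0
        apply hφ
        rw [← coeff_cmp, h0, coeff_zero]
      · filter_upwards [hZU] with n hn
        have h1 := hP0 _ hn
        rw [aeval_cmp]
        have h2 : (fun e => algebraMap k ℂ ((![x n i, x n j] : Fin 2 → k) e)) =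
            ![algebraMap k ℂ (x n i), algebraMap k ℂ (x n j)] := by
          funext e
          fin_cases e <;> rfl
        rw [h2, h1, map_zero]
    obtain ⟨G, hX, hY⟩ := exists_globY hd hdeg hreg hx hinj hU hpair
    -- the embedding of the algebraic closure
    let σ : AlgebraicClosure k →ₐ[k] ℂ :=
      IsAlgClosed.lift (M := ℂ) (R := k) (S := AlgebraicClosure k)
    set v : G.big := ⟨G.v0, G.hv0⟩ with hv
    obtain ⟨l, hl, hPR⟩ := per_all G hX hd hreg v
    set L := G.loc v with hL
    have hinf : AtInf V (fun i => σ (L.y 0 i)) := by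
      intro g hg
      apply comp_zero σ
      intro φ
      rw [cmp_comp]
      have h1 := L.top 0 g.totalDegree (cmp φ g) (cmp_deg φ g) (by
        filter_upwards [hZU] with n hn
        rw [Nat.sub_zero, aeval_cmp, hg _ hn, map_zero])
      rwa [H_zero] at h1
    have hne : (fun i => σ (L.y 0 i)) ≠ 0 := by
      intro h0
      apply L.hy0 0
      funext i
      exact (map_eq_zero σ).1 (congrFun h0 i)
    have hσF : ∀ (t : ℕ) (w : Fin (N + 1) → AlgebraicClosure k),
        (Fs d f)^[t] (fun i => σ (w i)) = fun i => σ ((Fs d f)^[t] w i) := by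
      intro t
      induction t with
      | zero => intro w; rfl
      | succ t ih =>
        intro w
        rw [Function.iterate_succ_apply, Function.iterate_succ_apply, ← ih]
        congr 1
        funext i
        show aeval (fun i => σ (w i)) _ = σ (aeval w _)
        rw [comp_aeval_apply _ σ]
    obtain ⟨c, hc, hcy⟩ := cyc_base f L.y L.hy l hPR
    obtain ⟨e', he', hprod'⟩ := hper _ hne hinf l hl (σ c) ((map_ne_zero σ).2 hc) (by
      rw [hσF, hcy]
      funext i
      rw [Pi.smul_apply, Pi.smul_apply, smul_eq_mul, smul_eq_mul, map_mul])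
    have hmult : ∀ j, ∃ w : Fin (N + 1) → AlgebraicClosure k, PR w (L.y (j + 1)) ∧
        ∀ K i, w i ≠ 0 → Sp (AlgebraicClosure k) (e' ((l - (j + 1) % l) % l))
          (fI (tf d f (AlgebraicClosure k)) w i K) := by
      intro j
      have hrl : (l - (j + 1) % l) % l < l := Nat.mod_lt _ (by omega)
      refine ⟨(Fs d f)^[(l - (j + 1) % l) % l] (L.y 0),
        cyc_pt f L.y L.hy l hl hPR (j + 1), fun K i hi => ?_⟩
      generalize (l - (j + 1) % l) % l = r at hrl hi
      have h1 := he' r hrl K i (by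
        rw [hσF]
        exact (map_ne_zero σ).2 hi)
      rw [hσF] at h1
      exact sp_down σ _ _ _ _ _ h1
    obtain ⟨Lp, hLp, h⟩ := fin_crit G hX hY hd hdeg v l hl hPR
      (fun j => e' ((l - j % l) % l)) (fun j => by simp only [Nat.add_mod_right]) (by
        rw [prod_refl e' l]
        exact hprod') hmult
    refine ⟨Lp, hLp, ?_⟩
    filter_upwards [h] with n hn t g hg
    apply (Module.forall_dual_apply_eq_zero_iff k _).1
    intro φ
    have h1 := hn t (cmp φ g) (by
      filter_upwards [hZU] with n' hn'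
      rw [aeval_cmp, hn' g hg, map_zero])
    rwa [aeval_cmp] at h1
  · -- a preperiodic orbit
    rw [Function.Injective] at hinj
    push Not at hinj
    obtain ⟨a, b, hab, hne⟩ := hinj
    have key : ∀ a b, a < b → x a = x b →
        ∃ r ≥ 1, ∀ᶠ n in U, ∀ t, n + r * t ∈ Z := by
      intro a b hlt hab
      have h1 : ∀ m, x (a + m) = x (b + m) := by
        intro m
        induction m with
        | zero => exact hab
        | succ m ih =>
          funext i
          rw [← add_assoc, ← add_assoc, hx, hx, ih]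
      have h2 : ∀ n ≥ a, ∀ t, x (n + (b - a) * t) = x n := by
        intro n hn t
        induction t with
        | zero => rfl
        | succ t ih =>
          rw [← ih]
          have h3 := h1 (n + (b - a) * t - a)
          have e1 : a + (n + (b - a) * t - a) = n + (b - a) * t := by
            generalize (b - a) * t = w
            omega
          have e2 : b + (n + (b - a) * t - a) = n + (b - a) * (t + 1) := by
            rw [mul_add, mul_one]
            generalize (b - a) * t = w
            omega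
          rw [e1, e2] at h3
          exact h3.symm
      refine ⟨b - a, by omega, ?_⟩
      have h3 : ∀ᶠ n in U, a ≤ n := hU (eventually_ge_atTop a)
      filter_upwards [h3, hZU] with n h4 h5 t g hg
      rw [h2 n h4 t]
      exact h5 g hg
    rcases lt_or_gt_of_ne hne with h | h
    · exact key a b h hab
    · exact key b a h hab.symm

end main

/-- The same with complex polynomials with algebraic coefficients. -/
theorem dml_algc {N : ℕ} (d : ℕ) (hd : 2 ≤ d) (f : Fin (N + 1) → MvPolynomial (Fin (N + 1)) ℂ)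
    (hdeg : ∀ i, (f i).totalDegree ≤ d) (halg : ∀ i κ, IsAlgebraic ℚ (coeff κ (f i)))
    (hreg : ∀ z : Fin (N + 1) → ℂ, (∀ i, eval z (homogeneousComponent d (f i)) = 0) → z = 0)
    (V : Set (MvPolynomial (Fin (N + 1)) ℂ))
    (hV : ∀ i j, ∃ P : MvPolynomial (Fin 2) ℂ, P ≠ 0 ∧
      ∀ z : Fin (N + 1) → ℂ, (∀ h ∈ V, eval z h = 0) → eval ![z i, z j] P = 0)
    (hper : ∀ z : Fin (N + 1) → ℂ, z ≠ 0 → AtInf V z → ∀ l ≥ 1, ∀ c : ℂ, c ≠ 0 →
      (fun w i => eval w (homogeneousComponent d (f i)))^[l] z = c • z → ∃ e : ℕ → ℕ,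
        (∀ i < l, ∀ K r, (fun w i => eval w (homogeneousComponent d (f i)))^[i] z r ≠ 0 →
          Module.finrank ℂ (MvPolynomial (Fin (N + 1)) ℂ ⧸
            fI (fun i => homogeneousComponent d (f i))
              ((fun w i => eval w (homogeneousComponent d (f i)))^[i] z) r K) ≤ e i) ∧
        ∏ i ∈ Finset.range l, e i < d ^ l)
    (x : ℕ → Fin (N + 1) → ℂ) (hx : ∀ n i, x (n + 1) i = eval (x n) (f i))
    (hx0 : ∀ i, IsAlgebraic ℚ (x 0 i)) :
    ∃ T : Finset (ℕ × ℕ), {n : ℕ | ∀ h ∈ V, eval (x n) h = 0} =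
      {n : ℕ | ∃ q ∈ T, ∃ m : ℕ, n = q.1 * m + q.2} := by
  classical
  -- the field of the coefficients and the coordinates
  set T0 : Set ℂ := (⋃ i, ⋃ κ ∈ (f i).support, {coeff κ (f i)}) ∪ (⋃ i, {x 0 i}) with hT0
  have hT0f : T0.Finite := by
    apply Set.Finite.union
    · exact Set.finite_iUnion fun i => Set.Finite.biUnion (f i).support.finite_toSet
        fun κ _ => Set.finite_singleton _
    · exact Set.finite_iUnion fun i => Set.finite_singleton _
  have hT0a : ∀ t ∈ T0, IsIntegral ℚ t := by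
    intro t ht
    apply IsAlgebraic.isIntegral
    rcases ht with ht | ht
    · simp only [Set.mem_iUnion] at ht
      obtain ⟨i, κ, _, rfl⟩ := ht
      exact halg i κ
    · simp only [Set.mem_iUnion] at ht
      obtain ⟨i, rfl⟩ := ht
      exact hx0 i
  set k : IntermediateField ℚ ℂ := IntermediateField.adjoin ℚ T0 with hk
  have hfd : FiniteDimensional ℚ k := by
    have := hT0f.to_subtype
    exact IntermediateField.finiteDimensional_adjoin hT0a
  have : NumberField k := { to_charZero := inferInstance, to_finiteDimensional := hfd }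
  have hcm : ∀ i κ, coeff κ (f i) ∈ k := by
    intro i κ
    by_cases hκ : κ ∈ (f i).support
    · apply IntermediateField.subset_adjoin
      left
      simp only [Set.mem_iUnion]
      exact ⟨i, κ, hκ, rfl⟩
    · rw [notMem_support_iff.1 hκ]
      exact zero_mem _
  have hx0m : ∀ i, x 0 i ∈ k := by
    intro i
    apply IntermediateField.subset_adjoin
    right
    simp only [Set.mem_iUnion]
    exact ⟨i, rfl⟩
  have hf' : ∀ i, ∃ g : MvPolynomial (Fin (N + 1)) k, MvPolynomial.map (algebraMap k ℂ) g = f i := by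
    intro i
    refine ⟨∑ κ ∈ (f i).support, monomial κ ⟨coeff κ (f i), hcm i κ⟩, ?_⟩
    rw [map_sum]
    simp_rw [map_monomial]
    conv_rhs => rw [← support_sum_monomial_coeff (f i)]
    rfl
  choose g hg using hf'
  have hinjk : Function.Injective (algebraMap k ℂ) := (algebraMap k ℂ).injective
  have hhc : ∀ i, homogeneousComponent d (f i) =
      MvPolynomial.map (algebraMap k ℂ) (homogeneousComponent d (g i)) := by
    intro i
    rw [← hg i]
    ext κ
    rw [coeff_map, coeff_homogeneousComponent, coeff_homogeneousComponent, coeff_map]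
    split_ifs
    · rfl
    · rw [map_zero]
  have hev : ∀ (z : Fin (N + 1) → ℂ) (p : MvPolynomial (Fin (N + 1)) k),
      eval z (MvPolynomial.map (algebraMap k ℂ) p) = aeval z p := by
    intro z p
    rw [aeval_def, eval₂_eq_eval_map]
  -- the orbit
  set x' : ℕ → Fin (N + 1) → k := fun n => (fun z i => aeval z (g i))^[n]
    (fun i => ⟨x 0 i, hx0m i⟩) with hx'
  have hx'x : ∀ n i, algebraMap k ℂ (x' n i) = x n i := by
    intro n
    induction n with
    | zero =>
      intro i
      rfl
    | succ n ih =>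
      intro i
      rw [hx']
      simp only [Function.iterate_succ_apply']
      rw [map_aevalk, hx, ← hg i, hev]
      congr 2
      funext r
      exact ih r
  have hreg' : Reg d g := by
    intro z hz
    let σ : AlgebraicClosure k →ₐ[k] ℂ :=
      IsAlgClosed.lift (M := ℂ) (R := k) (S := AlgebraicClosure k)
    have h1 := hreg (fun i => σ (z i)) fun i => by
      rw [hhc, hev, ← comp_aeval_apply _ σ, hz i, map_zero]
    funext i
    exact (map_eq_zero σ).1 (congrFun h1 i)
  have hFs : (Fs d g : (Fin (N + 1) → ℂ) → Fin (N + 1) → ℂ) =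
      fun w i => eval w (homogeneousComponent d (f i)) := by
    funext w i
    rw [hhc, hev]
    rfl
  have htf : tf d g ℂ = fun i => homogeneousComponent d (f i) := by
    funext i
    rw [hhc]
    rfl
  obtain ⟨T, hT⟩ := dml_kc d hd g (by
    intro i
    refine le_trans ?_ (hdeg i)
    rw [← hg i]
    unfold totalDegree
    rw [support_map_of_injective _ hinjk]) hreg' V hV (by
      intro z hz hinf l hl c hc hcz
      rw [hFs] at hcz ⊢
      rw [htf]
      exact hper z hz hinf l hl c hc hcz) x' (by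
      intro n i
      rw [hx']
      simp only [Function.iterate_succ_apply'])
  refine ⟨T, ?_⟩
  rw [← hT]
  ext n
  simp only [Set.mem_ofPred_eq]
  have h1 : (fun i => algebraMap k ℂ (x' n i)) = x n := funext (hx'x n)
  rw [h1]

end Pool.Agent.KS6_82.CC
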