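import Mathlib
import Pool.Agent.KS6_82.CC.FinE
import Pool.Agent.KS6_82.CC.Main

/-!
# Dynamical Mordell-Lang for curves at slow cycles at infinity
-/

set_option autoImplicit false

open MvPolynomial Filter Topology Asymptotics

namespace Pool.Agent.KS6_82.CC

open Pool.Agent.R847.SN Pool.Agent.R847.SB

lemma map_it {E E' : Type} [Field E] [Field E'] {ι : Type} (σ : E →+* E')
    (F : ι → MvPolynomial ι E) (L : ℕ) (i : ι) :
    MvPolynomial.map σ (it F L i) = it (fun i => MvPolynomial.map σ (F i)) L i := by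
  induction L with
  | zero => exact map_X σ i
  | succ L ih =>
    have h1 : it F (L + 1) i = bind₁ F (it F L i) := Function.iterate_succ_apply' _ _ _
    have h2 : it (fun i => MvPolynomial.map σ (F i)) (L + 1) i =
        bind₁ (fun i => MvPolynomial.map σ (F i))
          (it (fun i => MvPolynomial.map σ (F i)) L i) := Function.iterate_succ_apply' _ _ _
    rw [h1, h2, ← ih, map_bind₁]

/-- the leading forms of the iterates over an extension -/
lemma tf_it {k : Type} [Field k] {N d : ℕ} (hd : 1 ≤ d)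
    (f : Fin (N + 1) → MvPolynomial (Fin (N + 1)) k) (hdeg : ∀ i, (f i).totalDegree ≤ d) (L : ℕ)
    (E : Type) [Field E] [Algebra k E] : tf (d ^ L) (it f L) E = it (tf d f E) L := by
  funext i
  show MvPolynomial.map (algebraMap k E) (homogeneousComponent (d ^ L) (it f L i)) = _
  rw [top_it hd hdeg, map_it]
  rfl

/-- periods of the backward orbit -/
lemma PR_per {k : Type} [Field k] {N d : ℕ} {E : Type} [Field E] [Algebra k E]
    (f : Fin (N + 1) → MvPolynomial (Fin (N + 1)) k) (y : ℕ → Fin (N + 1) → E)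
    (hy : ∀ j i, aeval (y (j + 1)) (homogeneousComponent d (f i)) = y j i) (l : ℕ) (hl : 1 ≤ l)
    (hPR : ∀ j, PR (y (j + l)) (y j)) (l' : ℕ) (c : E) (hc : c ≠ 0)
    (h : (Fs d f)^[l'] (y 0) = c • y 0) (j : ℕ) : PR (y (j + l')) (y j) := by
  obtain ⟨τ, hτ, hm⟩ := cyc_pt f y hy l hl hPR (j + l')
  generalize (l - (j + l') % l) % l = r at hm
  have e1 : (Fs d f)^[r] (y 0) = τ • y (j + l') := funext hm
  have e2 : (Fs d f)^[l'] ((Fs d f)^[r] (y 0)) = c ^ d ^ r • (Fs d f)^[r] (y 0) := by
    rw [← Function.iterate_add_apply, Nat.add_comm l' r, Function.iterate_add_apply, h,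
      Fs_iter_smul]
  rw [e1, Fs_iter_smul, Fs_iter f y hy j l', smul_smul] at e2
  have hu : c ^ d ^ r * τ ≠ 0 := mul_ne_zero (pow_ne_zero _ hc) hτ
  refine ⟨(c ^ d ^ r * τ)⁻¹ * τ ^ d ^ l', mul_ne_zero (inv_ne_zero hu) (pow_ne_zero _ hτ),
    fun i => ?_⟩
  have e3 : τ ^ d ^ l' * y j i = c ^ d ^ r * τ * y (j + l') i := congrFun e2 i
  rw [mul_assoc, e3, inv_mul_cancel_left₀ hu]

section main

variable {k : Type} [Field k] [NumberField k] [Algebra k ℂ] {N : ℕ}

/-- **Dynamical Mordell-Lang for curves and regular polynomial endomorphisms.** -/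
theorem dml_kE (d : ℕ) (hd : 2 ≤ d) (f : Fin (N + 1) → MvPolynomial (Fin (N + 1)) k)
    (hdeg : ∀ i, (f i).totalDegree ≤ d) (hreg : Reg d f)
    (V : Set (MvPolynomial (Fin (N + 1)) ℂ))
    (hV : ∀ i j, ∃ P : MvPolynomial (Fin 2) ℂ, P ≠ 0 ∧
      ∀ z : Fin (N + 1) → ℂ, (∀ h ∈ V, eval z h = 0) → eval ![z i, z j] P = 0)
    (hper : ∀ z : Fin (N + 1) → ℂ, z ≠ 0 → AtInf V z →
      (∃ l ≥ 1, ∃ c : ℂ, c ≠ 0 ∧ (Fs d f)^[l] z = c • z) →
      ∃ L ≥ 1, (∃ c : ℂ, c ≠ 0 ∧ (Fs d f)^[L] z = c • z) ∧
        ((∃ A < d ^ L, ∃ i, z i ≠ 0 ∧ pI z ^ A ≤ fI (it (tf d f ℂ) L) z i (A + 1)) ∨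
        ∃ e : ℕ → ℕ, (∀ i < L, ∀ K r, (Fs d f)^[i] z r ≠ 0 →
          Module.finrank ℂ (MvPolynomial (Fin (N + 1)) ℂ ⧸
            fI (tf d f ℂ) ((Fs d f)^[i] z) r K) ≤ e i) ∧ ∏ i ∈ Finset.range L, e i < d ^ L))
    (x : ℕ → Fin (N + 1) → k) (hx : ∀ n i, x (n + 1) i = aeval (x n) (f i)) :
    ∃ T : Finset (ℕ × ℕ), {n : ℕ | ∀ h ∈ V, eval (fun i => algebraMap k ℂ (x n i)) h = 0} =
      {n : ℕ | ∃ q ∈ T, ∃ m : ℕ, n = q.1 * m + q.2} := by
  classical
  set Z : Set ℕ := {n : ℕ | ∀ h ∈ V, eval (fun i => algebraMap k ℂ (x n i)) h = 0} with hZ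
  apply Pool.Agent.R847.SG.compact_AP
  intro U hU hZU
  by_cases hinj : Function.Injective x
  · have hpair : ∀ i j, ∃ P : MvPolynomial (Fin 2) k, P ≠ 0 ∧
        ∀ᶠ n in U, aeval ![x n i, x n j] P = 0 := by
      intro i j
      obtain ⟨P, hP, hP0⟩ := hV i j
      obtain ⟨κ, hκ⟩ := MvPolynomial.support_nonempty.2 hP
      obtain ⟨φ, hφ⟩ : ∃ φ : Module.Dual k ℂ, φ (coeff κ P) ≠ 0 := by
        by_contra hno
        push Not at hno
        exact (mem_support_iff.1 hκ) ((Module.forall_dual_apply_eq_zero_iff k _).1 hno)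
      refine ⟨cmp φ P, ?_, ?_⟩
      · intro h0
        apply hφ
        rw [← coeff_cmp, h0, coeff_zero]
      · filter_upwards [hZU] with n hn
        have h1 := hP0 _ hn
        rw [aeval_cmp]
        have h2 : (fun e => algebraMap k ℂ ((![x n i, x n j] : Fin 2 → k) e)) =
            ![algebraMap k ℂ (x n i), algebraMap k ℂ (x n j)] := by
          funext e
          fin_cases e <;> rfl
        rw [h2, h1, map_zero]
    obtain ⟨G, hX, hY⟩ := exists_globY hd hdeg hreg hx hinj hU hpair
    -- the embedding of the algebraic closure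
    let σ : AlgebraicClosure k →ₐ[k] ℂ :=
      IsAlgClosed.lift (M := ℂ) (R := k) (S := AlgebraicClosure k)
    set v : G.big := ⟨G.v0, G.hv0⟩ with hv
    obtain ⟨l, hl, hPR⟩ := per_all G hX hd hreg v
    set L0 := G.loc v with hL0
    have hinf : AtInf V (fun i => σ (L0.y 0 i)) := by
      intro g hg
      apply comp_zero σ
      intro φ
      rw [cmp_comp]
      have h1 := L0.top 0 g.totalDegree (cmp φ g) (cmp_deg φ g) (by
        filter_upwards [hZU] with n hn
        rw [Nat.sub_zero, aeval_cmp, hg _ hn, map_zero])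
      rwa [H_zero] at h1
    have hne : (fun i => σ (L0.y 0 i)) ≠ 0 := by
      intro h0
      apply L0.hy0 0
      funext i
      exact (map_eq_zero σ).1 (congrFun h0 i)
    have hσF : ∀ (t : ℕ) (w : Fin (N + 1) → AlgebraicClosure k),
        (Fs d f)^[t] (fun i => σ (w i)) = fun i => σ ((Fs d f)^[t] w i) := by
      intro t
      induction t with
      | zero => intro w; rfl
      | succ t ih =>
        intro w
        rw [Function.iterate_succ_apply, Function.iterate_succ_apply, ← ih]
        congr 1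
        funext i
        show aeval (fun i => σ (w i)) _ = σ (aeval w _)
        rw [comp_aeval_apply _ σ]
    obtain ⟨c, hc, hcy⟩ := cyc_base f L0.y L0.hy l hPR
    obtain ⟨L, hL1, ⟨c', hc', hc'z⟩, hor⟩ := hper _ hne hinf
      ⟨l, hl, σ c, (map_ne_zero σ).2 hc, by
        rw [hσF, hcy]
        funext i
        rw [Pi.smul_apply, Pi.smul_apply, smul_eq_mul, smul_eq_mul, map_mul]⟩
    obtain ⟨i0, hy0⟩ : ∃ i, L0.y 0 i ≠ 0 := Function.ne_iff.1 (L0.hy0 0)
    have hi0 : σ (L0.y 0 i0) ≠ 0 := (map_ne_zero σ).2 hy0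
    -- the multiplier
    have hmul : (Fs d f)^[L] (L0.y 0) = ((Fs d f)^[L] (L0.y 0) i0 / L0.y 0 i0) • L0.y 0 := by
      rw [hσF] at hc'z
      have h1 : ∀ i, σ ((Fs d f)^[L] (L0.y 0) i) = c' * σ (L0.y 0 i) := fun i =>
        congrFun hc'z i
      have h2 : σ ((Fs d f)^[L] (L0.y 0) i0 / L0.y 0 i0) = c' := by
        rw [map_div₀, h1, mul_div_cancel_right₀ _ hi0]
      funext i
      apply σ.toRingHom.injective
      show σ _ = σ _
      rw [h1, Pi.smul_apply, smul_eq_mul, map_mul, h2]
    have hmul0 : (Fs d f)^[L] (L0.y 0) i0 / L0.y 0 i0 ≠ 0 := by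
      rw [hσF] at hc'z
      have h1 : σ ((Fs d f)^[L] (L0.y 0) i0) = c' * σ (L0.y 0 i0) := congrFun hc'z i0
      have h2 : σ ((Fs d f)^[L] (L0.y 0) i0 / L0.y 0 i0) = c' := by
        rw [map_div₀, h1, mul_div_cancel_right₀ _ hi0]
      rw [← h2] at hc'
      exact (map_ne_zero σ).1 hc'
    suffices hfin : ∃ L ≥ 1, ∀ᶠ n in U, ∀ t, ∀ h : MvPolynomial (Fin (N + 1)) k,
        (∀ᶠ n' in U, aeval (x n') h = 0) → aeval (x (n + L * t)) h = 0 by
      obtain ⟨Lp, hLp, h⟩ := hfin
      refine ⟨Lp, hLp, ?_⟩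
      filter_upwards [h] with n hn t g hg
      apply (Module.forall_dual_apply_eq_zero_iff k _).1
      intro φ
      have h1 := hn t (cmp φ g) (by
        filter_upwards [hZU] with n' hn'
        rw [aeval_cmp, hn' g hg, map_zero])
      rwa [aeval_cmp] at h1
    rcases hor with ⟨A, hAD, i0', hi0', hA⟩ | ⟨e', he', hprod'⟩
    · -- the nilpotency over the algebraic closure
      have hy0' : L0.y 0 i0' ≠ 0 := (map_ne_zero σ).1 hi0'
      have hAΩ : pI (L0.y 0) ^ A ≤ fI (tf (d ^ L) (it f L) (AlgebraicClosure k)) (L0.y 0) i0'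
          (A + 1) := by
        let iA : Algebra (AlgebraicClosure k) ℂ := σ.toRingHom.toAlgebra
        rw [tf_it (by omega) f hdeg]
        apply nil_descend
        have h4 : (fun i => MvPolynomial.map (algebraMap (AlgebraicClosure k) ℂ)
            (it (tf d f (AlgebraicClosure k)) L i)) = it (tf d f ℂ) L := by
          funext i
          rw [map_it]
          congr 1
          funext i'
          show MvPolynomial.map _ (MvPolynomial.map (algebraMap k (AlgebraicClosure k)) _) =
            MvPolynomial.map (algebraMap k ℂ) _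
          have h6 : (algebraMap (AlgebraicClosure k) ℂ).comp
              (algebraMap k (AlgebraicClosure k)) = algebraMap k ℂ :=
            RingHom.ext fun a => σ.commutes a
          rw [MvPolynomial.map_map, h6]
        rw [h4]
        exact hA
      exact fin_nil G hX hY hd hdeg v l hl hPR L A hL1 _ hmul0 hmul hAD i0' hy0' hAΩ
    · -- the local degrees
      have hPR' := PR_per f L0.y L0.hy l hl hPR L _ hmul0 hmul
      have hmult : ∀ j, ∃ w : Fin (N + 1) → AlgebraicClosure k, PR w (L0.y (j + 1)) ∧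
          ∀ K i, w i ≠ 0 → Sp (AlgebraicClosure k) (e' ((L - (j + 1) % L) % L))
            (fI (tf d f (AlgebraicClosure k)) w i K) := by
        intro j
        have hrl : (L - (j + 1) % L) % L < L := Nat.mod_lt _ (by omega)
        refine ⟨(Fs d f)^[(L - (j + 1) % L) % L] (L0.y 0),
          cyc_pt f L0.y L0.hy L hL1 hPR' (j + 1), fun K i hi => ?_⟩
        generalize (L - (j + 1) % L) % L = r at hrl hi
        have h1 := he' r hrl K i (by
          rw [hσF]
          exact (map_ne_zero σ).2 hi)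
        rw [hσF] at h1
        exact sp_down σ _ _ _ _ _ h1
      exact fin_crit G hX hY hd hdeg v L hL1 hPR'
        (fun j => e' ((L - j % L) % L)) (fun j => by simp only [Nat.add_mod_right]) (by
          rw [prod_refl e' L]
          exact hprod') hmult
  · -- a preperiodic orbit
    rw [Function.Injective] at hinj
    push Not at hinj
    obtain ⟨a, b, hab, hne⟩ := hinj
    have key : ∀ a b, a < b → x a = x b →
        ∃ r ≥ 1, ∀ᶠ n in U, ∀ t, n + r * t ∈ Z := by
      intro a b hlt hab
      have h1 : ∀ m, x (a + m) = x (b + m) := by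
        intro m
        induction m with
        | zero => exact hab
        | succ m ih =>
          funext i
          rw [← add_assoc, ← add_assoc, hx, hx, ih]
      have h2 : ∀ n ≥ a, ∀ t, x (n + (b - a) * t) = x n := by
        intro n hn t
        induction t with
        | zero => rfl
        | succ t ih =>
          rw [← ih]
          have h3 := h1 (n + (b - a) * t - a)
          have e1 : a + (n + (b - a) * t - a) = n + (b - a) * t := by
            generalize (b - a) * t = w
            omega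
          have e2 : b + (n + (b - a) * t - a) = n + (b - a) * (t + 1) := by
            rw [mul_add, mul_one]
            generalize (b - a) * t = w
            omega
          rw [e1, e2] at h3
          exact h3.symm
      refine ⟨b - a, by omega, ?_⟩
      have h3 : ∀ᶠ n in U, a ≤ n := hU (eventually_ge_atTop a)
      filter_upwards [h3, hZU] with n h4 h5 t g hg
      rw [h2 n h4 t]
      exact h5 g hg
    rcases lt_or_gt_of_ne hne with h | h
    · exact key a b h hab
    · exact key b a h hab.symm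

end main

/-- The same with complex polynomials with algebraic coefficients. -/
theorem dml_algE {N : ℕ} (d : ℕ) (hd : 2 ≤ d) (f : Fin (N + 1) → MvPolynomial (Fin (N + 1)) ℂ)
    (hdeg : ∀ i, (f i).totalDegree ≤ d) (halg : ∀ i κ, IsAlgebraic ℚ (coeff κ (f i)))
    (hreg : ∀ z : Fin (N + 1) → ℂ, (∀ i, eval z (homogeneousComponent d (f i)) = 0) → z = 0)
    (V : Set (MvPolynomial (Fin (N + 1)) ℂ))
    (hV : ∀ i j, ∃ P : MvPolynomial (Fin 2) ℂ, P ≠ 0 ∧
      ∀ z : Fin (N + 1) → ℂ, (∀ h ∈ V, eval z h = 0) → eval ![z i, z j] P = 0)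
    (hper : ∀ z : Fin (N + 1) → ℂ, z ≠ 0 → AtInf V z →
      (∃ l ≥ 1, ∃ c : ℂ, c ≠ 0 ∧
        (fun w i => eval w (homogeneousComponent d (f i)))^[l] z = c • z) →
      ∃ L ≥ 1, (∃ c : ℂ, c ≠ 0 ∧
        (fun w i => eval w (homogeneousComponent d (f i)))^[L] z = c • z) ∧
        ((∃ A < d ^ L, ∃ i, z i ≠ 0 ∧
          pI z ^ A ≤ fI (it (fun i => homogeneousComponent d (f i)) L) z i (A + 1)) ∨
        ∃ e : ℕ → ℕ, (∀ i < L, ∀ K r,
          (fun w i => eval w (homogeneousComponent d (f i)))^[i] z r ≠ 0 →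
          Module.finrank ℂ (MvPolynomial (Fin (N + 1)) ℂ ⧸
            fI (fun i => homogeneousComponent d (f i))
              ((fun w i => eval w (homogeneousComponent d (f i)))^[i] z) r K) ≤ e i) ∧
          ∏ i ∈ Finset.range L, e i < d ^ L))
    (x : ℕ → Fin (N + 1) → ℂ) (hx : ∀ n i, x (n + 1) i = eval (x n) (f i))
    (hx0 : ∀ i, IsAlgebraic ℚ (x 0 i)) :
    ∃ T : Finset (ℕ × ℕ), {n : ℕ | ∀ h ∈ V, eval (x n) h = 0} =
      {n : ℕ | ∃ q ∈ T, ∃ m : ℕ, n = q.1 * m + q.2} := by
  classical
  -- the field of the coefficients and the coordinates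
  set T0 : Set ℂ := (⋃ i, ⋃ κ ∈ (f i).support, {coeff κ (f i)}) ∪ (⋃ i, {x 0 i}) with hT0
  have hT0f : T0.Finite := by
    apply Set.Finite.union
    · exact Set.finite_iUnion fun i => Set.Finite.biUnion (f i).support.finite_toSet
        fun κ _ => Set.finite_singleton _
    · exact Set.finite_iUnion fun i => Set.finite_singleton _
  have hT0a : ∀ t ∈ T0, IsIntegral ℚ t := by
    intro t ht
    apply IsAlgebraic.isIntegral
    rcases ht with ht | ht
    · simp only [Set.mem_iUnion] at ht
      obtain ⟨i, κ, _, rfl⟩ := ht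
      exact halg i κ
    · simp only [Set.mem_iUnion] at ht
      obtain ⟨i, rfl⟩ := ht
      exact hx0 i
  set k : IntermediateField ℚ ℂ := IntermediateField.adjoin ℚ T0 with hk
  have hfd : FiniteDimensional ℚ k := by
    have := hT0f.to_subtype
    exact IntermediateField.finiteDimensional_adjoin hT0a
  have : NumberField k := { to_charZero := inferInstance, to_finiteDimensional := hfd }
  have hcm : ∀ i κ, coeff κ (f i) ∈ k := by
    intro i κ
    by_cases hκ : κ ∈ (f i).support
    · apply IntermediateField.subset_adjoin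
      left
      simp only [Set.mem_iUnion]
      exact ⟨i, κ, hκ, rfl⟩
    · rw [notMem_support_iff.1 hκ]
      exact zero_mem _
  have hx0m : ∀ i, x 0 i ∈ k := by
    intro i
    apply IntermediateField.subset_adjoin
    right
    simp only [Set.mem_iUnion]
    exact ⟨i, rfl⟩
  have hf' : ∀ i, ∃ g : MvPolynomial (Fin (N + 1)) k, MvPolynomial.map (algebraMap k ℂ) g = f i := by
    intro i
    refine ⟨∑ κ ∈ (f i).support, monomial κ ⟨coeff κ (f i), hcm i κ⟩, ?_⟩
    rw [map_sum]
    simp_rw [map_monomial]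
    conv_rhs => rw [← support_sum_monomial_coeff (f i)]
    rfl
  choose g hg using hf'
  have hinjk : Function.Injective (algebraMap k ℂ) := (algebraMap k ℂ).injective
  have hhc : ∀ i, homogeneousComponent d (f i) =
      MvPolynomial.map (algebraMap k ℂ) (homogeneousComponent d (g i)) := by
    intro i
    rw [← hg i]
    ext κ
    rw [coeff_map, coeff_homogeneousComponent, coeff_homogeneousComponent, coeff_map]
    split_ifs
    · rfl
    · rw [map_zero]
  have hev : ∀ (z : Fin (N + 1) → ℂ) (p : MvPolynomial (Fin (N + 1)) k),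
      eval z (MvPolynomial.map (algebraMap k ℂ) p) = aeval z p := by
    intro z p
    rw [aeval_def, eval₂_eq_eval_map]
  -- the orbit
  set x' : ℕ → Fin (N + 1) → k := fun n => (fun z i => aeval z (g i))^[n]
    (fun i => ⟨x 0 i, hx0m i⟩) with hx'
  have hx'x : ∀ n i, algebraMap k ℂ (x' n i) = x n i := by
    intro n
    induction n with
    | zero =>
      intro i
      rfl
    | succ n ih =>
      intro i
      rw [hx']
      simp only [Function.iterate_succ_apply']
      rw [map_aevalk, hx, ← hg i, hev]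
      congr 2
      funext r
      exact ih r
  have hreg' : Reg d g := by
    intro z hz
    let σ : AlgebraicClosure k →ₐ[k] ℂ :=
      IsAlgClosed.lift (M := ℂ) (R := k) (S := AlgebraicClosure k)
    have h1 := hreg (fun i => σ (z i)) fun i => by
      rw [hhc, hev, ← comp_aeval_apply _ σ, hz i, map_zero]
    funext i
    exact (map_eq_zero σ).1 (congrFun h1 i)
  have hFs : (Fs d g : (Fin (N + 1) → ℂ) → Fin (N + 1) → ℂ) =
      fun w i => eval w (homogeneousComponent d (f i)) := by
    funext w i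
    rw [hhc, hev]
    rfl
  have htf : tf d g ℂ = fun i => homogeneousComponent d (f i) := by
    funext i
    rw [hhc]
    rfl
  obtain ⟨T, hT⟩ := dml_kE d hd g (by
    intro i
    refine le_trans ?_ (hdeg i)
    rw [← hg i]
    unfold totalDegree
    rw [support_map_of_injective _ hinjk]) hreg' V hV (by
      intro z hz hinf hcz
      rw [hFs] at hcz ⊢
      rw [htf]
      exact hper z hz hinf hcz) x' (by
      intro n i
      rw [hx']
      simp only [Function.iterate_succ_apply'])
  refine ⟨T, ?_⟩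
  rw [← hT]
  ext n
  simp only [Set.mem_ofPred_eq]
  have h1 : (fun i => algebraMap k ℂ (x' n i)) = x n := funext (hx'x n)
  rw [h1]

end Pool.Agent.KS6_82.CC
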